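import Mathlib

namespace Pool.Agent.Lib.CF64

def cg (t : ℕ) : ℕ := t.rec 1 fun _ g => 28 * g + 2
def eB (n : ℕ) : ℕ := n + 2 ^ (n * n) * cg (2 * n)
def gT (c : ℕ) : ℕ := c.rec 0 fun c t => c + c * t
def pB (c r : ℕ) : ℕ := gT c + r * r
def sJ (n m t : ℕ) : ℕ := t.rec 0 fun _ b => b + m + eB ((b + m) * 14 + n) + 1
def sB (n m : ℕ) : ℕ := n + 2 ^ n * (sJ n m (pB (2 * n) m + 6 * n + m + 1) + 1)
def pL (b M : ℕ) : ℕ := M.rec 0 fun M k => k + 33 * (b + M * 14 + M * 1960) + 1
def cB (f k j z : ℕ) : ℕ := (fun z => z + pB f z * k)^[j] z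
def iT (m w s : ℕ) : ℕ := s.rec 1 fun _ M => M + eB (M * 14 + w) + sB w m + 1
def cA (f D b : ℕ) : ℕ := pL b (iT (D * f + 1) (14 * f) f) + 1
def fN (f : ℕ) : ℕ := f.rec 10 fun f D =>
  D + cB (f + 1) (cA (f + 1) D (D + 2)) (cA (f + 1) D (D + 2)) (cA (f + 1) D (D + 2))

section
open Primrec
variable {α : Type} [Primcodable α] {a b c d : α → ℕ}

theorem p_add (ha : Primrec a) (hb : Primrec b) : Primrec fun x => a x + b x := nat_add.comp ha hb
theorem p_mul (ha : Primrec a) (hb : Primrec b) : Primrec fun x => a x * b x := nat_mul.comp ha hb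
theorem p_pow (ha : Primrec a) (hb : Primrec b) : Primrec fun x => a x ^ b x :=
  (Primrec₂.unpaired'.mp Nat.Primrec.pow).comp ha hb
theorem p_n : Primrec fun p : α × ℕ × ℕ => p.2.1 := fst.comp snd
theorem p_i : Primrec fun p : α × ℕ × ℕ => p.2.2 := snd.comp snd

theorem p_rec {h : α → ℕ → ℕ → ℕ} (ha : Primrec a) (hb : Primrec b)
    (hh : Primrec fun p : α × ℕ × ℕ => h p.1 p.2.1 p.2.2) :
    Primrec fun x => ((a x).rec (b x) fun n i => h x n i : ℕ) :=
  nat_rec' (h := fun x p => h x p.1 p.2) ha hb hh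

theorem p_cg (ha : Primrec a) : Primrec fun x => cg (a x) :=
  p_rec (h := fun _ _ g => 28 * g + 2) ha (const 1) (p_add (p_mul (const 28) p_i) (const 2))

theorem p_eB (ha : Primrec a) : Primrec fun x => eB (a x) :=
  p_add ha (p_mul (p_pow (const 2) (p_mul ha ha)) (p_cg (p_mul (const 2) ha)))

theorem p_gT (ha : Primrec a) : Primrec fun x => gT (a x) :=
  p_rec (h := fun _ c t => c + c * t) ha (const 0) (p_add p_n (p_mul p_n p_i))

theorem p_pB (ha : Primrec a) (hb : Primrec b) : Primrec fun x => pB (a x) (b x) :=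
  p_add (p_gT ha) (p_mul hb hb)

theorem p_sJ (ha : Primrec a) (hb : Primrec b) (hc : Primrec c) :
    Primrec fun x => sJ (a x) (b x) (c x) :=
  p_rec (h := fun x _ i => i + b x + eB ((i + b x) * 14 + a x) + 1) hc (const 0)
    (p_add (p_add (p_add p_i (hb.comp fst))
      (p_eB (p_add (p_mul (p_add p_i (hb.comp fst)) (const 14)) (ha.comp fst)))) (const 1))

theorem p_sB (ha : Primrec a) (hb : Primrec b) : Primrec fun x => sB (a x) (b x) :=
  p_add ha (p_mul (p_pow (const 2) ha) (p_add (p_sJ ha hb (p_add (p_add (p_add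
    (p_pB (p_mul (const 2) ha) hb) (p_mul (const 6) ha)) hb) (const 1))) (const 1)))

theorem p_pL (ha : Primrec a) (hb : Primrec b) : Primrec fun x => pL (a x) (b x) :=
  p_rec (h := fun x M k => k + 33 * (a x + M * 14 + M * 1960) + 1) hb (const 0)
    (p_add (p_add p_i (p_mul (const 33) (p_add (p_add (ha.comp fst) (p_mul p_n (const 14)))
      (p_mul p_n (const 1960))))) (const 1))

theorem p_cB (ha : Primrec a) (hb : Primrec b) (hc : Primrec c) (hd : Primrec d) :
    Primrec fun x => cB (a x) (b x) (c x) (d x) :=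
  nat_iterate (h := fun x z => z + pB (a x) z * b x) hc hd
    (p_add snd (p_mul (p_pB (ha.comp fst) snd) (hb.comp fst)))

theorem p_iT (ha : Primrec a) (hb : Primrec b) (hc : Primrec c) :
    Primrec fun x => iT (a x) (b x) (c x) :=
  p_rec (h := fun x _ M => M + eB (M * 14 + b x) + sB (b x) (a x) + 1) hc (const 1)
    (p_add (p_add (p_add p_i (p_eB (p_add (p_mul p_i (const 14)) (hb.comp fst))))
      (p_sB (hb.comp fst) (ha.comp fst))) (const 1))

theorem p_cA (ha : Primrec a) (hb : Primrec b) (hc : Primrec c) :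
    Primrec fun x => cA (a x) (b x) (c x) :=
  p_add (p_pL hc (p_iT (p_add (p_mul hb ha) (const 1)) (p_mul (const 14) ha) ha)) (const 1)

theorem p_fN : Primrec fN := by
  have k : Primrec fun p : ℕ × ℕ × ℕ => cA (p.2.1 + 1) p.2.2 (p.2.2 + 2) :=
    p_cA (p_add p_n (const 1)) p_i (p_add p_i (const 2))
  exact p_rec (h := fun _ f D => D + cB (f + 1) (cA (f + 1) D (D + 2)) (cA (f + 1) D (D + 2))
    (cA (f + 1) D (D + 2))) Primrec.id (const 10) (p_add p_i (p_cB (p_add p_n (const 1)) k k k))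

end

end Pool.Agent.Lib.CF64
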