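import Pool.Agent.Lib.CF53.FinDef

set_option linter.unusedSectionVars false
set_option linter.unusedVariables false
set_option linter.unusedSimpArgs false

namespace Pool.Agent.Lib.CF64

open Finset Pool.Agent.Lib.MP_aa6b05_co Pool.Agent.Lib.MP_aa6b05_co.MG

open scoped Classical

noncomputable section

variable {V E : Type} [Fintype V] [Fintype E] {G : MG V E}

variable {A B C W X S : Finset V} {a b c v : V}

theorem Cn.refl (A : Finset V) (a : V) : Cn G A a a := Relation.ReflTransGen.refl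

theorem Cn.trans (h : Cn G A a b) (h' : Cn G A b c) : Cn G A a c := Relation.ReflTransGen.trans h h'

theorem Cn.adj (ha : a ∈ A) (hb : b ∈ A) (h : Adj G a b) : Cn G A a b :=
  Relation.ReflTransGen.single ⟨ha, hb, h⟩

theorem Cn.symm (h : Cn G A a b) : Cn G A b a := by
  induction h with
  | refl => exact Cn.refl _ _
  | tail _ h2 ih => exact (Cn.adj h2.2.1 h2.1 h2.2.2.symm).trans ih

theorem Cn.mono (hAB : A ⊆ B) (h : Cn G A a b) : Cn G B a b := by
  induction h with
  | refl => exact Cn.refl _ _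
  | tail _ h2 ih => exact ih.trans (Cn.adj (hAB h2.1) (hAB h2.2.1) h2.2.2)

theorem Cn.const {α : Type} {g : V → α} (hg : ∀ x ∈ A, ∀ y ∈ A, Adj G x y → g x = g y)
    (h : Cn G A a b) : g a = g b := by
  induction h with
  | refl => rfl
  | tail _ h2 ih => exact ih.trans (hg _ h2.1 _ h2.2.1 h2.2.2)

theorem Cn.mem (ha : a ∈ A) (h : Cn G A a b) : b ∈ A := by
  induction h with
  | refl => exact ha
  | tail _ h2 _ => exact h2.2.1

theorem mem_cmp : b ∈ cmp G A a ↔ b ∈ A ∧ Cn G A a b := mem_filter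

theorem cmp_sub : cmp G A a ⊆ A := filter_subset _ _

theorem self_cmp (ha : a ∈ A) : a ∈ cmp G A a := mem_cmp.mpr ⟨ha, Cn.refl _ _⟩

theorem Cn.cmp_eq (h : Cn G A a b) : cmp G A a = cmp G A b := by
  ext x
  simp only [mem_cmp]
  exact ⟨fun k => ⟨k.1, h.symm.trans k.2⟩, fun k => ⟨k.1, h.trans k.2⟩⟩

theorem cn_of_cmp (hb : b ∈ A) (h : cmp G A a = cmp G A b) : Cn G A a b :=
  (mem_cmp.mp (h ▸ self_cmp hb : b ∈ cmp G A a)).2

theorem far_cmp : FarG G (cmp G A a) (A \ cmp G A a) := by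
  refine ⟨disjoint_sdiff, fun x hx y hy k => ?_⟩
  obtain ⟨h1, h2⟩ := mem_cmp.mp hx
  obtain ⟨h3, h4⟩ := mem_sdiff.mp hy
  exact h4 (mem_cmp.mpr ⟨h3, h2.trans (Cn.adj h1 h3 k)⟩)

theorem cp_empty : cp G ∅ = 0 := by simp [cp]

theorem cp_pos (h : A.Nonempty) : 1 ≤ cp G A := card_pos.mpr (h.image _)

theorem cp_le_card : cp G A ≤ A.card := card_image_le

theorem image_le_image {α γ : Type} [DecidableEq α] [DecidableEq γ] {g : V → α} {h : V → γ}
    (k : ∀ x ∈ A, ∀ y ∈ A, g x = g y → h x = h y) : (A.image h).card ≤ (A.image g).card := by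
  refine card_le_card_of_forall_subsingleton (fun y z => ∃ x ∈ A, h x = y ∧ g x = z) ?_ ?_
  · intro y hy
    obtain ⟨x, hx, rfl⟩ := mem_image.mp hy
    exact ⟨g x, mem_image_of_mem _ hx, x, hx, rfl, rfl⟩
  · rintro z - y ⟨-, x, hx, rfl, e1⟩ y' ⟨-, x', hx', rfl, e2⟩
    exact k x hx x' hx' (e1.trans e2.symm)

theorem image_le_cp {α : Type} [DecidableEq α] {g : V → α}
    (hg : ∀ x ∈ A, ∀ y ∈ A, Adj G x y → g x = g y) : (A.image g).card ≤ cp G A :=
  image_le_image fun x _ y hy h => (cn_of_cmp hy h).const hg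

theorem cp_le_image {α : Type} [DecidableEq α] {g : V → α}
    (hg : ∀ x ∈ A, ∀ y ∈ A, g x = g y → Cn G A x y) : cp G A ≤ (A.image g).card :=
  image_le_image fun x hx y hy h => (hg x hx y hy h).cmp_eq

theorem cp_le_anch {R : Finset V} (h : ∀ v ∈ A, ∃ r ∈ R, Cn G A v r) : cp G A ≤ R.card := by
  refine le_trans (card_le_card ?_) (card_image_le (f := cmp G A))
  intro z hz
  obtain ⟨x, hx, rfl⟩ := mem_image.mp hz
  obtain ⟨r, hr, k⟩ := h x hx
  exact mem_image.mpr ⟨r, hr, k.cmp_eq.symm⟩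

theorem cp_le_of_meet (hC : C ⊆ A) (h : ∀ v ∈ A, ∃ c ∈ C, Cn G A v c) : cp G A ≤ cp G C := by
  refine le_trans (card_le_card ?_) (image_le_cp (g := cmp G A)
    fun x hx y hy k => (Cn.adj (hC hx) (hC hy) k).cmp_eq)
  intro z hz
  obtain ⟨x, hx, rfl⟩ := mem_image.mp hz
  obtain ⟨r, hr, k⟩ := h x hx
  exact mem_image.mpr ⟨r, hr, k.cmp_eq.symm⟩

theorem cp_one (hne : A.Nonempty) (h : ∀ x ∈ A, ∀ y ∈ A, Cn G A x y) : cp G A = 1 := by
  obtain ⟨a, ha⟩ := hne
  have := cp_le_anch (G := G) (A := A) (R := {a}) fun v hv => ⟨a, by simp, h v hv a ha⟩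
  have := cp_pos (G := G) ⟨a, ha⟩
  simp only [card_singleton] at *
  omega

theorem FarG.cn (h : FarG G A B) (ha : a ∈ A) (k : Cn G (A ∪ B) a b) : Cn G A a b := by
  induction k with
  | refl => exact Cn.refl _ _
  | tail _ h2 ih =>
    have h3 := ih.mem ha
    rcases mem_union.mp h2.2.1 with h4 | h4
    · exact ih.trans (Cn.adj h3 h4 h2.2.2)
    · exact absurd h2.2.2 (h.na _ h3 _ h4)

theorem FarG.cmp_eq (h : FarG G A B) (ha : a ∈ A) : cmp G (A ∪ B) a = cmp G A a := by
  ext x
  simp only [mem_cmp]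
  exact ⟨fun k => ⟨(h.cn ha k.2).mem ha, h.cn ha k.2⟩,
    fun k => ⟨mem_union_left _ k.1, k.2.mono subset_union_left⟩⟩

theorem cp_far (h : FarG G A B) : cp G (A ∪ B) = cp G A + cp G B := by
  unfold cp
  rw [image_union, image_congr (g := cmp G A) fun x hx => h.cmp_eq hx,
    image_congr (s := B) (g := cmp G B) fun x hx => by rw [union_comm]; exact h.symm.cmp_eq hx,
    card_union_of_disjoint]
  rw [disjoint_left]
  intro z h1 h2
  obtain ⟨x, hx, rfl⟩ := mem_image.mp h1
  obtain ⟨y, hy, e⟩ := mem_image.mp h2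
  exact disjoint_left.mp h.dj hx (cmp_sub (e ▸ self_cmp hx : x ∈ cmp G B y))

theorem cmp_cn (ha : a ∈ A) : ∀ x ∈ cmp G A a, Cn G (cmp G A a) a x := by
  intro x hx
  refine far_cmp.cn (self_cmp ha) ?_
  rw [union_sdiff_of_subset cmp_sub]
  exact (mem_cmp.mp hx).2

theorem cp_cmp (ha : a ∈ A) : cp G (cmp G A a) = 1 :=
  cp_one ⟨a, self_cmp ha⟩ fun x hx y hy => (cmp_cn ha x hx).symm.trans (cmp_cn ha y hy)

theorem cp_peel (ha : a ∈ A) : cp G A = cp G (A \ cmp G A a) + 1 := by
  have := cp_far (far_cmp (G := G) (A := A) (a := a))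
  rw [union_sdiff_of_subset cmp_sub, cp_cmp ha] at this
  omega

theorem cc_ge {α : Type} [DecidableEq α] {T : Finset E} {g : V → α}
    (hT : ∀ e ∈ T, (G.s e ∈ W ↔ G.t e ∈ W))
    (hg : ∀ e ∈ T, G.s e ∈ W → g (G.s e) = g (G.t e)) : (W.image g).card ≤ cc G W T := by
  let f : ((W.image g) → ZMod 2) →ₗ[ZMod 2] zsp G W T :=
    { toFun := fun p => ⟨fun v => if h : v ∈ W then p ⟨g v, mem_image_of_mem _ h⟩ else 0,
        fun v hv => dif_neg hv, fun e he => by
          by_cases k : G.s e ∈ W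
          · simp only [k, (hT e he).mp k, dif_pos, hg e he k]
          · simp only [k, mt (hT e he).mpr k, dif_neg, not_false_iff]⟩
      map_add' := fun p q => by
        ext v
        by_cases k : v ∈ W <;> simp [k]
      map_smul' := fun r p => by
        ext v
        by_cases k : v ∈ W <;> simp [k] }
  have hf : Function.Injective f := by
    rw [injective_iff_map_eq_zero]
    intro p hp
    ext ⟨z, hz⟩
    obtain ⟨x, hx, rfl⟩ := mem_image.mp hz
    have := congrFun (congrArg Subtype.val hp) x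
    simpa [f, hx] using this
  have := LinearMap.finrank_le_finrank_of_injective hf
  simpa [cc] using this

theorem cc_le_image {α : Type} [DecidableEq α] {T : Finset E} {g : V → α}
    (hg : ∀ h ∈ zsp G W T, ∀ x ∈ W, ∀ y ∈ W, g x = g y → h x = h y) :
    cc G W T ≤ (W.image g).card := by
  obtain ⟨R, h1, h2, h3⟩ := exists_subset_injOn_image_eq_of_surjOn (f := g) (↑W) (W.image g)
    (by simp [Set.SurjOn])
  rw [← h3, card_image_of_injOn h2]
  refine cc_le R fun h hh h0 v hv => ?_
  obtain ⟨r, hr, e⟩ := mem_image.mp (h3 ▸ mem_image_of_mem g hv : g v ∈ R.image g)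
  rw [← hg h hh r (h1 hr) v hv e, h0 r hr]

theorem cc_drop1 (T : Finset E) (e : E) : cc G W T ≤ cc G W (insert e T) + 1 := by
  let f : zsp G W T →ₗ[ZMod 2] ZMod 2 :=
    { toFun := fun g => g.1 (G.s e) - g.1 (G.t e)
      map_add' := fun p q => by simp only [Submodule.coe_add, Pi.add_apply]; ring
      map_smul' := fun r p => by
        simp only [Submodule.coe_smul, Pi.smul_apply, smul_eq_mul, RingHom.id_apply]; ring }
  have h1 := LinearMap.finrank_range_add_finrank_ker f
  have h2 : Module.finrank (ZMod 2) (LinearMap.range f) ≤ 1 := by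
    simpa using Submodule.finrank_le (LinearMap.range f)
  have h3 : (LinearMap.ker f).map (zsp G W T).subtype ≤ zsp G W (insert e T) := by
    rintro _ ⟨g, hg, rfl⟩
    refine ⟨g.2.1, fun x hx => ?_⟩
    rcases mem_insert.mp hx with rfl | hx
    · exact sub_eq_zero.mp hg
    · exact g.2.2 x hx
  have h4 := Submodule.finrank_mono h3
  rw [Submodule.finrank_map_subtype_eq] at h4
  unfold cc
  omega

theorem cc_drop (T D : Finset E) : cc G W T ≤ cc G W (T ∪ D) + D.card := by
  induction D using Finset.induction_on with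
  | empty => simp
  | insert e D he ih =>
    have := cc_drop1 (G := G) (W := W) (T ∪ D) e
    rw [union_insert, card_insert_of_notMem he]
    omega

theorem zsp_cn {h : V → ZMod 2} {T : Finset E} (hT : eset G A ⊆ T) (hh : h ∈ zsp G W T)
    (k : Cn G A a b) : h a = h b := by
  refine k.const fun x hx y hy ⟨n, e, j⟩ => ?_
  have := hh.2 e (hT ((mem_eset_j j n).mpr ⟨hx, hy⟩))
  rcases j with ⟨rfl, rfl⟩ | ⟨rfl, rfl⟩
  · exact this
  · exact this.symm

theorem cc_univ : cc G univ (eset G A) + A.card = cp G A + Fintype.card V := by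
  let g : V → Finset V ⊕ V := fun v => if v ∈ A then .inl (cmp G A v) else .inr v
  have h1 : (univ.image g).card ≤ cc G univ (eset G A) := cc_ge (by simp) fun e he _ => by
    have := mem_eset.mp he
    simp only [g, this.2.1, this.2.2, if_true]
    rw [(Cn.adj this.2.1 this.2.2 (adj_of_mem he)).cmp_eq]
  have h2 : cc G univ (eset G A) ≤ (univ.image g).card := cc_le_image fun h hh x _ y _ e => by
    by_cases hx : x ∈ A <;> by_cases hy : y ∈ A <;> simp only [g, hx, hy, if_true, if_false] at e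
    · exact zsp_cn Subset.rfl hh (cn_of_cmp hy (Sum.inl.inj e))
    · cases e
    · cases e
    · rw [Sum.inr.inj e]
  have h3 : univ.image g = (A.image (cmp G A)).disjSum (univ \ A) := by
    ext z
    simp only [mem_image, mem_univ, true_and, mem_disjSum, mem_sdiff]
    constructor
    · rintro ⟨x, rfl⟩
      by_cases hx : x ∈ A
      · exact Or.inl ⟨_, ⟨x, hx, rfl⟩, by simp [g, hx]⟩
      · exact Or.inr ⟨x, hx, by simp [g, hx]⟩
    · rintro (⟨_, ⟨x, hx, rfl⟩, rfl⟩ | ⟨x, hx, rfl⟩) <;> exact ⟨x, by simp [g, hx]⟩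
  rw [h3, card_disjSum] at h1 h2
  have h4 := card_sdiff_add_card_eq_card (subset_univ A)
  rw [card_univ] at h4
  unfold cp
  omega

theorem cp_super (A B : Finset V) : ein G A + cp G A + (ein G B + cp G B) ≤
    ein G (A ∪ B) + cp G (A ∪ B) + (ein G (A ∩ B) + cp G (A ∩ B)) := by
  have h1 := cc_super (G := G) univ (eset G A) (eset G B)
  have h0 : eset G A ∪ eset G B ⊆ eset G (A ∪ B) :=
    union_subset (eset_mono subset_union_left) (eset_mono subset_union_right)
  have h2 := cc_drop (G := G) (W := univ) (eset G A ∪ eset G B)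
    (eset G (A ∪ B) \ (eset G A ∪ eset G B))
  rw [union_sdiff_of_subset h0] at h2
  rw [← eset_inter] at h1
  have h3 := card_sdiff_add_card_eq_card h0
  have h4 := card_union_add_card_inter (eset G A) (eset G B)
  rw [← eset_inter] at h4
  have h5 := card_union_add_card_inter A B
  have a1 := cc_univ (G := G) (A := A)
  have a2 := cc_univ (G := G) (A := B)
  have a3 := cc_univ (G := G) (A := A ∪ B)
  have a4 := cc_univ (G := G) (A := A ∩ B)
  unfold ein
  omega

theorem cp_ge (A : Finset V) : A.card ≤ cp G A + ein G A := by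
  have h1 := cc_drop (G := G) (W := univ) ∅ (eset G A)
  have h2 : (univ.image (fun v : V => v)).card ≤ cc G univ ∅ := cc_ge (by simp) (by simp)
  have h3 := cc_univ (G := G) (A := A)
  rw [image_id', card_univ] at h2
  rw [empty_union] at h1
  unfold ein
  omega

theorem ein_split (X W : Finset V) : ein G W = ein G (W \ X) + ein G (W ∩ X) +
    ((eset G W).filter (fun e => ¬ (G.s e ∈ X ↔ G.t e ∈ X))).card := by
  have h1 := card_filter_add_card_filter_not (s := eset G W) (fun e => (G.s e ∈ X ↔ G.t e ∈ X))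
  have h2 : (eset G W).filter (fun e => (G.s e ∈ X ↔ G.t e ∈ X)) =
      eset G (W \ X) ∪ eset G (W ∩ X) := by
    ext e
    simp only [mem_filter, mem_eset, mem_union, mem_sdiff, mem_inter]
    tauto
  rw [h2, card_union_of_disjoint (disjoint_left.mpr fun e a b =>
    (mem_sdiff.mp (mem_eset.mp a).2.1).2 (mem_inter.mp (mem_eset.mp b).2.1).2)] at h1
  unfold ein
  omega

theorem sg_sub (X A B : Finset V) : sg G X (A ∪ B) + sg G X (A ∩ B) ≤ sg G X A + sg G X B := by
  have a1 := cp_super (G := G) (A \ X) (B \ X)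
  have a2 := cp_super (G := G) (A ∩ X) (B ∩ X)
  have e1 : (A \ X) ∩ (B \ X) = (A ∩ B) \ X := by
    ext x
    simp only [mem_inter, mem_sdiff]
    tauto
  rw [← union_sdiff_distrib, e1] at a1
  rw [← union_inter_distrib_right, ← inter_inter_distrib_right] at a2
  have b1 := ein_split (G := G) X A
  have b2 := ein_split (G := G) X B
  have b3 := ein_split (G := G) X (A ∪ B)
  have b4 := ein_split (G := G) X (A ∩ B)
  have c1 := card_union_add_card_inter
    ((eset G A).filter (fun e => ¬ (G.s e ∈ X ↔ G.t e ∈ X)))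
    ((eset G B).filter (fun e => ¬ (G.s e ∈ X ↔ G.t e ∈ X)))
  rw [← filter_union, ← filter_inter_distrib, ← eset_inter] at c1
  have c2 := card_le_card (filter_subset_filter (fun e => ¬ (G.s e ∈ X ↔ G.t e ∈ X))
    (union_subset (eset_mono (G := G) (subset_union_left : A ⊆ A ∪ B))
      (eset_mono subset_union_right)))
  have c3 := card_union_add_card_inter A B
  unfold sg Fz
  omega

theorem sg_congr (h : Disjoint W S) : sg G (X ∪ S) W = sg G X W := by
  have h1 : W \ (X ∪ S) = W \ X := by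
    ext x
    have := @disjoint_left.mp h x
    simp only [mem_sdiff, mem_union]
    tauto
  have h2 : W ∩ (X ∪ S) = W ∩ X := by
    ext x
    have := @disjoint_left.mp h x
    simp only [mem_inter, mem_union]
    tauto
  unfold sg
  rw [h1, h2]

/-- the change of `F` when `K` is attached only through `T` -/
theorem F_peel {K T : Finset V} (hT : T ⊆ W) (dj : Disjoint K W)
    (h : ∀ x ∈ K, ∀ a ∈ W, Adj G a x → a ∈ T) :
    Fz G (K ∪ W) - Fz G W = Fz G (K ∪ T) - Fz G T := by
  have h1 := tch_congr hT dj h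
  have h2 := tch_F (G := G) dj
  have h3 := tch_F (G := G) (dj.mono_right hT)
  omega

/-- removing one component of `W \ X` -/
theorem peel {T : Finset V} (hv : v ∈ W \ X) (hT : T ⊆ W ∩ X)
    (h : ∀ x ∈ cmp G (W \ X) v, ∀ a ∈ W ∩ X, Adj G a x → a ∈ T) :
    sg G X W = sg G X (W \ cmp G (W \ X) v) + (Fz G (cmp G (W \ X) v ∪ T) - Fz G T) - 1 := by
  set K := cmp G (W \ X) v with hK
  have k1 : K ⊆ W \ X := cmp_sub
  have h1 := F_peel (G := G) (K := K) (W := W \ K) (T := T)
    (fun x hx => mem_sdiff.mpr ⟨(mem_inter.mp (hT hx)).1,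
      fun c => (mem_sdiff.mp (k1 c)).2 (mem_inter.mp (hT hx)).2⟩) disjoint_sdiff (by
      intro x hx a ha j
      obtain ⟨a1, a2⟩ := mem_sdiff.mp ha
      by_cases c : a ∈ X
      · exact h x hx a (mem_inter.mpr ⟨a1, c⟩) j
      · exact absurd j.symm (far_cmp.na x hx a (mem_sdiff.mpr ⟨mem_sdiff.mpr ⟨a1, c⟩, a2⟩)))
  rw [union_sdiff_of_subset (k1.trans sdiff_subset)] at h1
  have h2 := cp_peel (G := G) hv
  rw [← hK] at h2
  have h3 : (W \ K) \ X = (W \ X) \ K := sdiff_right_comm _ _ _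
  have h4 : (W \ K) ∩ X = W ∩ X := by
    ext x
    have := @k1 x
    simp only [mem_inter, mem_sdiff] at *
    tauto
  unfold sg
  rw [h3, h4, h2]
  push_cast
  omega

theorem hang {R U : Finset V} (dj : Disjoint R U)
    (h : ∀ K ⊆ R, K.Nonempty → Fz G U + 1 ≤ Fz G (K ∪ U)) : Fz G U + cp G R ≤ Fz G (R ∪ U) := by
  induction R using Finset.strongInduction with
  | H R ih =>
  rcases R.eq_empty_or_nonempty with rfl | ⟨v, hv⟩
  · simp [cp_empty]
  have k1 : cmp G R v ⊆ R := cmp_sub
  have h1 := ih (R \ cmp G R v) (sdiff_ssubset k1 ⟨v, self_cmp hv⟩) (dj.mono_left sdiff_subset)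
    fun K hK => h K (hK.trans sdiff_subset)
  have h2 := F_peel (G := G) (K := cmp G R v) (W := (R \ cmp G R v) ∪ U) (T := U)
    subset_union_right (disjoint_union_right.mpr ⟨disjoint_sdiff, dj.mono_left k1⟩)
    fun x hx a ha j => (mem_union.mp ha).elim (fun c => absurd j.symm (far_cmp.na x hx a c)) id
  rw [← union_assoc, union_sdiff_of_subset k1] at h2
  have h3 := h _ k1 ⟨v, self_cmp hv⟩
  rw [cp_peel hv]
  push_cast
  omega

theorem Fz_empty : Fz G ∅ = -2 := by simp [Fz, ein_empty]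

theorem Fz_single (v : V) : Fz G {v} = 0 := by simp [Fz, ein_single]

theorem sg_empty {Y : Finset V} (h : ∀ A ⊆ Y, A.Nonempty → 0 ≤ Fz G A) :
    ∀ W ⊆ Y, W.Nonempty → 0 ≤ sg G ∅ W := by
  intro W hW ⟨v, hv⟩
  have h1 := far_cmp (G := G) (A := W) (a := v)
  have h2 := hang (G := G) (R := W \ cmp G W v) (U := cmp G W v) h1.dj.symm fun K hK ne => by
    rw [(h1.symm.mono hK Subset.rfl).F]
    have := h K (hK.trans (sdiff_subset.trans hW)) ne
    omega
  rw [sdiff_union_of_subset cmp_sub] at h2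
  have h3 := h _ (cmp_sub.trans hW) ⟨v, self_cmp (G := G) hv⟩
  have h4 := cp_peel (G := G) hv
  unfold sg
  rw [sdiff_empty, inter_empty, cp_empty]
  omega

theorem sg_init {f D : ℕ} (h0 : ∀ A : Finset V, A.Nonempty → 0 ≤ Fz G A)
    (hD : ∀ A : Finset V, Fz G A + 1 ≤ f → A.card ≤ D) (hW : D * f + 1 ≤ W.card) :
    (f : ℤ) ≤ sg G ∅ W := by
  have key : ∀ W : Finset V, (f : ℤ) ≤ sg G ∅ W ∨ (W.card : ℤ) ≤ D * (sg G ∅ W + 1) := by
    intro W
    induction W using Finset.strongInduction with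
    | H W ih =>
    rcases W.eq_empty_or_nonempty with rfl | ⟨v, hv⟩
    · right
      simp [sg, Fz_empty, cp_empty]
    have h1 := peel (G := G) (W := W) (X := ∅) (T := ∅) (v := v) (by simpa using hv) (by simp)
      (by simp)
    rw [sdiff_empty, union_empty, Fz_empty] at h1
    have k1 : cmp G W v ⊆ W := cmp_sub
    have h2 := h0 _ ⟨v, self_cmp (G := G) hv⟩
    have h3 : -1 ≤ sg G ∅ (W \ cmp G W v) := by
      rcases (W \ cmp G W v).eq_empty_or_nonempty with e | e
      · simp [e, sg, Fz_empty, cp_empty]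
      · have := sg_empty (G := G) (Y := univ) (fun A _ => h0 A) _ (subset_univ _) e
        omega
    have h4 := card_sdiff_add_card_eq_card k1
    by_cases c : Fz G (cmp G W v) + 1 ≤ f
    · rcases ih _ (sdiff_ssubset k1 ⟨v, self_cmp hv⟩) with a | a
      · left
        omega
      · right
        have b := hD _ c
        have : (D : ℤ) * (sg G ∅ (W \ cmp G W v) + 1) + D ≤ D * (sg G ∅ W + 1) := by
          nlinarith [Int.natCast_nonneg D]
        omega
    · left
      omega
  rcases key W with a | a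
  · exact a
  · by_contra c
    have : (D : ℤ) * (sg G ∅ W + 1) ≤ D * f := mul_le_mul_of_nonneg_left (by omega) (by omega)
    have b : ((D * f + 1 : ℕ) : ℤ) ≤ W.card := by exact_mod_cast hW
    push_cast at b
    omega

theorem Sh.ne (h : Sh G S) : S.Nonempty := by
  rcases h with ⟨x, rfl⟩ | ⟨x, y, -, rfl⟩ <;> simp

theorem Sh.card_le (h : Sh G S) : S.card ≤ 2 := by
  rcases h with ⟨x, rfl⟩ | ⟨x, y, -, rfl⟩
  · simp
  · exact card_le_two

theorem Sh.adj (h : Sh G S) (ha : a ∈ S) (hb : b ∈ S) (hab : a ≠ b) : Adj G a b := by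
  rcases h with ⟨x, rfl⟩ | ⟨x, y, j, rfl⟩
  · exact absurd ((mem_singleton.mp ha).trans (mem_singleton.mp hb).symm) hab
  · simp only [mem_insert, mem_singleton] at ha hb
    rcases ha with rfl | rfl <;> rcases hb with rfl | rfl
    · exact absurd rfl hab
    · exact j
    · exact j.symm
    · exact absurd rfl hab

theorem Sh.cn (h : Sh G S) {U : Finset V} (hU : U ⊆ S) (hA : U ⊆ A) :
    ∀ x ∈ U, ∀ y ∈ U, Cn G A x y := by
  intro x hx y hy
  by_cases c : x = y
  · exact c ▸ Cn.refl _ _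
  · exact Cn.adj (hA hx) (hA hy) (h.adj (hU hx) (hU hy) c)

theorem Sh.cp_eq (h : Sh G S) {U : Finset V} (hU : U ⊆ S) (hne : U.Nonempty) : cp G U = 1 :=
  cp_one hne (h.cn hU Subset.rfl)

theorem Sh.F_le (h : Sh G S) {U : Finset V} (hU : U ⊆ S) (hne : U.Nonempty) :
    Fz G U + 1 ≤ U.card := by
  have h1 := cp_ge (G := G) U
  rw [h.cp_eq hU hne] at h1
  unfold Fz
  omega

/-- among the sets of a union-closed family above `T` there is a largest one -/
theorem exists_top {p : Finset V → Prop} (hp : ∀ A B, p A → p B → p (A ∪ B)) (hA : p A) :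
    ∃ Z, p Z ∧ ∀ B, p B → B ⊆ Z := by
  obtain ⟨Z, h1, h2⟩ := exists_max_image (univ.filter p) card ⟨A, by simpa using hA⟩
  simp only [mem_filter, mem_univ, true_and] at h1 h2
  refine ⟨Z, h1, fun B hB => ?_⟩
  have := eq_of_subset_of_card_le (subset_union_left : Z ⊆ Z ∪ B) (h2 _ (hp _ _ h1 hB))
  rw [this]
  exact subset_union_right

end

end Pool.Agent.Lib.CF64
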