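import Pool.Agent.Lib.CF64.F4Main

set_option linter.unusedSectionVars false
set_option linter.unusedVariables false
set_option linter.unusedSimpArgs false

namespace Pool.Agent.Lib.CF64

open Finset Pool.Agent.Lib.MP_aa6b05_co Pool.Agent.Lib.MP_aa6b05_co.MG

open scoped Classical

noncomputable section

variable {V E : Type} [Fintype V] [Fintype E] {G : MG V E}

/-- `a` and `b` lie in one component of the subgraph induced on `A` -/
def Cn (G : MG V E) (A : Finset V) (a b : V) : Prop :=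
  Relation.ReflTransGen (fun x y => x ∈ A ∧ y ∈ A ∧ Adj G x y) a b

def cmp (G : MG V E) (A : Finset V) (v : V) : Finset V := A.filter (Cn G A v)

/-- number of components of the subgraph induced on `A` -/
def cp (G : MG V E) (A : Finset V) : ℕ := (A.image (cmp G A)).card

/-- the potential: slack of `W` when the edges leaving `X` may only go to the second forest -/
def sg (G : MG V E) (X W : Finset V) : ℤ := Fz G W + 1 - cp G (W \ X) - cp G (W ∩ X)

/-- the edge set `T` connects all vertices of `W` -/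
def Con (G : MG V E) (W : Finset V) (T : Finset E) : Prop :=
  ∀ g : V → ZMod 2, (∀ e ∈ T, g (G.s e) = g (G.t e)) → ∀ a ∈ W, ∀ b ∈ W, g a = g b

/-- `Y` accepts every boundary -/
def Acc (G : MG V E) (Y : Finset V) : Prop :=
  2 ≤ Y.card ∧ ∀ β : V → K, (∀ v, v ∉ Y → β v = 0) → ∑ v, β v = 0 → Feas (sub G Y) β

structure NA (G : MG V E) : Prop where
  gi : Gi G
  na : ∀ Y, ¬ Acc G Y

/-- a vertex or an edge -/
def Sh (G : MG V E) (S : Finset V) : Prop := (∃ x, S = {x}) ∨ ∃ x y, Adj G x y ∧ S = {x, y}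

/-- the parity `u` is met on `X` by edges inside `X` -/
def Ev (G : MG V E) (u : V → ZMod 2) (X : Finset V) : Prop :=
  ∃ M ⊆ eset G X, ∀ v ∈ X, G.df (ind M) v = u v

/-- closed neighbourhood of `S` inside `Y` -/
def nb (G : MG V E) (Y S : Finset V) : Finset V :=
  Y.filter (fun v => v ∈ S ∨ ∃ x ∈ S, Adj G x v)

/-- a minimal neutral petal `P` over the base `Z` -/
structure Pt (G : MG V E) (Z P : Finset V) : Prop where
  dj : Disjoint P Z
  ne : P.Nonempty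
  h0 : Fz G (P ∪ Z) = Fz G Z
  h1 : ∀ Q ⊆ P, Q.Nonempty → Q ≠ P → Fz G Z + 1 ≤ Fz G (Q ∪ Z)

/-- a pool of items inside `Y`, far from `X` and from each other -/
structure Pl (G : MG V E) (Y X : Finset V) (PP : Finset (Finset V)) : Prop where
  hX : X ⊆ Y
  sh : ∀ S ∈ PP, Sh G S
  sub : ∀ S ∈ PP, S ⊆ Y
  low : ∀ S ∈ PP, (nb G Y S).card ≤ 14
  farX : ∀ S ∈ PP, FarG G S X
  far : ∀ S ∈ PP, ∀ S' ∈ PP, S ≠ S' → FarG G S S'
  pf : ∀ S ∈ PP, ∀ S' ∈ PP, S ≠ S' → S.card = 2 → S'.card = 2 → ∀ A ⊆ Y, S ∪ S' ⊆ A → 4 ≤ Fz G A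

/-- a minimal violator `W` for the new item `S` -/
structure MinV (G : MG V E) (Y X S N0 : Finset V) (m : ℕ) (θ : ℤ) (W : Finset V) : Prop where
  sub : W ⊆ Y
  vio : sg G (X ∪ S) W ≤ θ
  big : m ≤ (W ∩ N0).card
  meet : (W ∩ S).Nonempty
  anch : ∀ v ∈ W \ (X ∪ S), ∃ a ∈ N0 ∪ nb G Y X, a ∈ W \ (X ∪ S) ∧ Cn G (W \ (X ∪ S)) v a
  up1 : ∀ C ⊆ W, C ≠ W → W ∩ (N0 ∪ nb G Y X) ⊆ C → (C ∩ S).Nonempty → Fz G W + 1 ≤ Fz G C
  up2 : ∀ C ⊆ W, W ∩ (N0 ∪ nb G Y X) ⊆ C → Disjoint C S → Fz G W + sg G X C - θ - 1 ≤ Fz G C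

end

end Pool.Agent.Lib.CF64
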