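import Pool.Agent.Lib.CF53.FinPk

set_option linter.unusedSectionVars false
set_option linter.unusedVariables false
set_option linter.unusedSimpArgs false

namespace Pool.Agent.Lib.CF64

open Finset Pool.Agent.Lib.MP_aa6b05_co Pool.Agent.Lib.MP_aa6b05_co.MG

open scoped Classical

noncomputable section

variable {V E : Type} [Fintype V] [Fintype E] {G : MG V E}

variable {Y X S S' N0 W W' : Finset V} {m : ℕ} {PP : Finset (Finset V)}

theorem mem_nb {v : V} : v ∈ nb G Y S ↔ v ∈ Y ∧ (v ∈ S ∨ ∃ x ∈ S, Adj G x v) := mem_filter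

theorem Pl.mono {QQ : Finset (Finset V)} (h : Pl G Y X PP) (k : QQ ⊆ PP) : Pl G Y X QQ :=
  ⟨h.hX, fun S a => h.sh S (k a), fun S a => h.sub S (k a), fun S a => h.low S (k a),
    fun S a => h.farX S (k a), fun S a S' b => h.far S (k a) S' (k b),
    fun S a S' b => h.pf S (k a) S' (k b)⟩

theorem few_meet {R : Finset V} (h : ∀ S ∈ PP, ∀ S' ∈ PP, S ≠ S' → Disjoint S S') :
    (PP.filter (fun S => ¬ Disjoint S R)).card ≤ R.card := by
  refine card_le_card_of_forall_subsingleton (fun S v => v ∈ S) (fun S hS => ?_) ?_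
  · obtain ⟨v, a, b⟩ := not_disjoint_iff.mp (mem_filter.mp hS).2
    exact ⟨v, b, a⟩
  · rintro v - S ⟨a, b⟩ S' ⟨c, d⟩
    by_contra k
    exact disjoint_left.mp (h S (mem_filter.mp a).1 S' (mem_filter.mp c).1 k) b d

theorem sg_item (sh : Sh G S) (far : FarG G S X) (h : (W ∩ S).Nonempty) :
    sg G (X ∪ S) W = Fz G W - cp G (W \ (X ∪ S)) - cp G (W ∩ X) := by
  unfold sg
  rw [inter_union_distrib_left, cp_far (far.symm.mono inter_subset_right inter_subset_right),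
    sh.cp_eq inter_subset_right h]
  push_cast
  ring

theorem exists_minV (na : NA G) {θ : ℤ} (hX : X ⊆ Y) (sh : Sh G S) (far : FarG G S X)
    (dj : Disjoint S (N0 ∪ nb G Y X))
    (inv : ∀ C ⊆ Y, C.Nonempty → m ≤ (C ∩ N0).card → θ + 1 ≤ sg G X C)
    (h : ∃ C ⊆ Y, C.Nonempty ∧ m ≤ (C ∩ N0).card ∧ sg G (X ∪ S) C ≤ θ) :
    ∃ W, MinV G Y X S N0 m θ W := by
  obtain ⟨W, hW, hmin⟩ := exists_min_image (Y.powerset.filter
    (fun C => C.Nonempty ∧ m ≤ (C ∩ N0).card ∧ sg G (X ∪ S) C ≤ θ)) card (by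
      obtain ⟨C, a, b⟩ := h
      exact ⟨C, mem_filter.mpr ⟨mem_powerset.mpr a, b⟩⟩)
  simp only [mem_filter, mem_powerset] at hW hmin
  obtain ⟨w1, w2, w3, w4⟩ := hW
  have mn : ∀ C ⊆ W, C ≠ W → C.Nonempty → W ∩ N0 ⊆ C → θ + 1 ≤ sg G (X ∪ S) C := by
    intro C a b c d
    by_contra k
    exact b (eq_of_subset_of_card_le a (hmin C ⟨a.trans w1, c,
      w3.trans (card_le_card (subset_inter d inter_subset_right)), by omega⟩))
  have meet : (W ∩ S).Nonempty := by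
    by_contra k
    rw [not_nonempty_iff_eq_empty, ← disjoint_iff_inter_eq_empty] at k
    have := inv W w1 w2 w3
    rw [sg_congr k] at w4
    omega
  have anch : ∀ v ∈ W \ (X ∪ S), ∃ a ∈ N0 ∪ nb G Y X, a ∈ W \ (X ∪ S) ∧ Cn G (W \ (X ∪ S)) v a := by
    intro v hv
    by_contra k
    push Not at k
    have k1 : cmp G (W \ (X ∪ S)) v ⊆ W \ (X ∪ S) := cmp_sub
    have k2 : ∀ x ∈ cmp G (W \ (X ∪ S)) v, x ∉ N0 ∪ nb G Y X := fun x hx c =>
      k x c (k1 hx) (mem_cmp.mp hx).2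
    have a1 := peel (G := G) (T := W ∩ S) hv (inter_subset_inter_left subset_union_right) (by
      intro x hx a ha j
      obtain ⟨b1, b2⟩ := mem_inter.mp ha
      rcases mem_union.mp b2 with b | b
      · exact absurd (mem_union_right _ (mem_nb.mpr ⟨w1 (mem_sdiff.mp (k1 hx)).1,
          Or.inr ⟨a, b, j⟩⟩)) (k2 x hx)
      · exact mem_inter.mpr ⟨b1, b⟩)
    have a0 : Disjoint (cmp G (W \ (X ∪ S)) v) (W ∩ S) := disjoint_left.mpr fun x a b =>
      (mem_sdiff.mp (k1 a)).2 (mem_union_right _ (mem_inter.mp b).2)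
    have a2 := na.hang1 sh inter_subset_right meet ⟨v, self_cmp hv⟩ a0
    have a3 := mn (W \ cmp G (W \ (X ∪ S)) v) sdiff_subset
      (sdiff_ssubset (k1.trans sdiff_subset) ⟨v, self_cmp hv⟩).ne
      (meet.mono (subset_sdiff.mpr ⟨inter_subset_left, a0.symm⟩))
      (subset_sdiff.mpr ⟨inter_subset_left, disjoint_left.mpr fun x a b =>
        k2 x b (mem_union_left _ (mem_inter.mp a).2)⟩)
    omega
  have cpl : ∀ C ⊆ W, W ∩ (N0 ∪ nb G Y X) ⊆ C →
      cp G (W \ (X ∪ S)) ≤ cp G (C \ (X ∪ S)) ∧ C ∩ X = W ∩ X := by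
    intro C a b
    refine ⟨cp_le_of_meet (sdiff_subset_sdiff a Subset.rfl) fun v hv => ?_, ?_⟩
    · obtain ⟨x, x1, x2, x3⟩ := anch v hv
      exact ⟨x, mem_sdiff.mpr ⟨b (mem_inter.mpr ⟨(mem_sdiff.mp x2).1, x1⟩), (mem_sdiff.mp x2).2⟩, x3⟩
    · refine Subset.antisymm (inter_subset_inter_right a) fun x hx => ?_
      obtain ⟨x1, x2⟩ := mem_inter.mp hx
      exact mem_inter.mpr ⟨b (mem_inter.mpr ⟨x1, mem_union_right _
        (mem_nb.mpr ⟨w1 x1, Or.inl x2⟩)⟩), x2⟩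
  have e0 := sg_item sh far meet
  refine ⟨W, w1, w4, w3, meet, anch, fun C a b c d => ?_, fun C a c d => ?_⟩
  · have e1 := mn C a b (d.mono inter_subset_left)
      ((inter_subset_inter_left subset_union_left).trans c)
    obtain ⟨e2, e3⟩ := cpl C a c
    rw [sg_item sh far d, e3] at e1
    omega
  · obtain ⟨e2, e3⟩ := cpl C a c
    rw [← sg_congr d]
    have e4 : C ∩ (X ∪ S) = W ∩ X := by
      rw [inter_union_distrib_left, disjoint_iff_inter_eq_empty.mp d, union_empty, e3]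
    unfold sg at *
    rw [e4]
    omega

/-- the component of `v` in `C` has a neighbour in `U` -/
def tc (G : MG V E) (C U : Finset V) (v : V) : Prop := ∃ x, Cn G C v x ∧ ∃ u ∈ U, Adj G u x

/-- the component of `v` in `C` misses `N` -/
def un (G : MG V E) (C N : Finset V) (v : V) : Prop := ∀ a ∈ N, ¬ Cn G C v a

theorem tc.cn {C U : Finset V} {v w : V} (h : tc G C U v) (k : Cn G C v w) : tc G C U w := by
  obtain ⟨x, a, b⟩ := h
  exact ⟨x, k.symm.trans a, b⟩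

theorem un.cn {C U : Finset V} {v w : V} (h : un G C U v) (k : Cn G C v w) : un G C U w :=
  fun a ha c => h a ha (k.trans c)

theorem pair_side {s : ℤ} {C0 : Finset V} {δ : Prop} (sh : Sh G S) (sh' : Sh G S')
    (fx : FarG G S X) (fx' : FarG G S' X) (far : FarG G S S')
    (w : MinV G Y X S N0 m (s - 2) W) (w' : MinV G Y X S' N0 m (s - 2) W')
    (p2 : ∀ a ∈ N0 ∪ nb G Y X, ∀ b ∈ N0 ∪ nb G Y X,
      Cn G (W \ (X ∪ S)) a b ↔ Cn G (W' \ (X ∪ S')) a b)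
    (m1 : W ∩ nb G Y S ⊆ W') (m2 : W' ∩ nb G Y S' ⊆ W)
    (hC : ∀ v, v ∈ C0 ↔ v ∈ W \ (X ∪ S) ∧ v ∈ W' \ (X ∪ S'))
    (hδ : ¬ δ → (∀ v ∈ C0, tc G C0 (W ∩ S) v → ¬ tc G C0 (W' ∩ S') v) ∨
      ∃ v ∈ C0, tc G C0 (W ∩ S) v ∧ tc G C0 (W' ∩ S') v ∧ ¬ un G C0 (N0 ∪ nb G Y X) v) :
    sg G X W ≤ s - 1 + cp G (C0.filter (fun v => tc G C0 (W ∩ S) v ∧ ¬ tc G C0 (W' ∩ S') v ∧
      un G C0 (N0 ∪ nb G Y X) v)) + (if δ then 1 else 0) := by
  set N := N0 ∪ nb G Y X with hN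
  set W0 := W \ (X ∪ S) with hW0
  set W1 := W' \ (X ∪ S') with hW1
  set R := C0.filter (fun v => tc G C0 (W ∩ S) v ∧ ¬ tc G C0 (W' ∩ S') v ∧ un G C0 N v) with hR
  obtain ⟨u0, hu0⟩ := w.meet
  obtain ⟨u1, hu1⟩ := w'.meet
  have c0 : C0 ⊆ W0 := fun v hv => ((hC v).mp hv).1
  have c1 : C0 ⊆ W1 := fun v hv => ((hC v).mp hv).2
  have hU : W ∩ S ⊆ W1 := fun u hu => by
    obtain ⟨a, b⟩ := mem_inter.mp hu
    refine mem_sdiff.mpr ⟨m1 (mem_inter.mpr ⟨a, mem_nb.mpr ⟨w.sub a, Or.inl b⟩⟩), fun c => ?_⟩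
    exact (mem_union.mp c).elim (disjoint_left.mp fx.dj b) (disjoint_left.mp far.dj b)
  have hU' : W' ∩ S' ⊆ W0 := fun u hu => by
    obtain ⟨a, b⟩ := mem_inter.mp hu
    refine mem_sdiff.mpr ⟨m2 (mem_inter.mpr ⟨a, mem_nb.mpr ⟨w'.sub a, Or.inl b⟩⟩), fun c => ?_⟩
    exact (mem_union.mp c).elim (disjoint_left.mp fx'.dj b) (disjoint_right.mp far.dj b)
  let lab : V → Finset V := fun v => cmp G W0 v ∩ N
  let lab' : V → Finset V := fun v => cmp G W1 v ∩ N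
  have lc : ∀ {x y}, Cn G W0 x y → lab x = lab y := fun h => by simp only [lab, h.cmp_eq]
  have lc' : ∀ {x y}, Cn G W1 x y → lab' x = lab' y := fun h => by simp only [lab', h.cmp_eq]
  have l1 : ∀ v ∈ C0, tc G C0 (W ∩ S) v → lab' v = lab' u0 := by
    rintro v hv ⟨x, a, u, b, c⟩
    exact lc' (((a.mono c1).trans (Cn.adj (c1 (a.mem hv)) (hU b) c.symm)).trans
      (sh.cn inter_subset_right hU u b u0 hu0))
  have l2 : ∀ v ∈ C0, tc G C0 (W' ∩ S') v → lab v = lab u1 := by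
    rintro v hv ⟨x, a, u, b, c⟩
    exact lc (((a.mono c0).trans (Cn.adj (c0 (a.mem hv)) (hU' b) c.symm)).trans
      (sh'.cn inter_subset_right hU' u b u1 hu1))
  have l3 : ∀ v ∈ C0, ¬ un G C0 N v → lab v = lab' v := by
    intro v hv k
    unfold un at k
    push Not at k
    obtain ⟨a, ha, k⟩ := k
    rw [lc (k.mono c0), lc' (k.mono c1)]
    ext b
    simp only [lab, lab', mem_inter, mem_cmp]
    constructor
    · rintro ⟨⟨-, b2⟩, b3⟩
      have := (p2 a ha b b3).mp b2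
      exact ⟨⟨this.mem (c1 (k.mem hv)), this⟩, b3⟩
    · rintro ⟨⟨-, b2⟩, b3⟩
      have := (p2 a ha b b3).mpr b2
      exact ⟨⟨this.mem (c0 (k.mem hv)), this⟩, b3⟩
  set L := (W0.filter (fun x => ∃ u ∈ W ∩ S, Adj G u x)).image lab with hL
  have s0 : cp G W0 ≤ (W0.image lab).card := cp_le_image fun x hx y hy e => by
    obtain ⟨a, a1, a2, a3⟩ := w.anch x hx
    have : a ∈ lab y := e ▸ mem_inter.mpr ⟨mem_cmp.mpr ⟨a2, a3⟩, a1⟩
    exact a3.trans (mem_cmp.mp (mem_inter.mp this).1).2.symm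
  let g : V → Option (Finset V) := fun v => if v ∈ S ∨ lab v ∈ L then none else some (lab v)
  have g0 : ∀ x ∈ W \ X, ∀ y ∈ W \ X, Adj G x y → x ∈ S → g y = none := by
    intro x hx y hy j a
    refine if_pos (or_iff_not_imp_left.mpr fun b => mem_image_of_mem _ (mem_filter.mpr ⟨?_, x,
      mem_inter.mpr ⟨(mem_sdiff.mp hx).1, a⟩, j⟩))
    exact mem_sdiff.mpr ⟨(mem_sdiff.mp hy).1, fun c => (mem_union.mp c).elim (mem_sdiff.mp hy).2 b⟩
  have s1 : ((W \ X).image g).card ≤ cp G (W \ X) := image_le_cp fun x hx y hy j => by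
    by_cases a : x ∈ S
    · rw [g0 x hx y hy j a]
      exact if_pos (Or.inl a)
    by_cases b : y ∈ S
    · rw [g0 y hy x hx j.symm b]
      exact (if_pos (Or.inl b)).symm
    have e : lab x = lab y := lc (Cn.adj
      (mem_sdiff.mpr ⟨(mem_sdiff.mp hx).1, fun c => (mem_union.mp c).elim (mem_sdiff.mp hx).2 a⟩)
      (mem_sdiff.mpr ⟨(mem_sdiff.mp hy).1, fun c => (mem_union.mp c).elim (mem_sdiff.mp hy).2 b⟩) j)
    simp only [g, a, b, e]
  have s2 : insert none ((W0.image lab \ L).image some) ⊆ (W \ X).image g := by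
    intro z hz
    rcases mem_insert.mp hz with rfl | hz
    · obtain ⟨a, b⟩ := mem_inter.mp hu0
      exact mem_image.mpr ⟨u0, mem_sdiff.mpr ⟨a, disjoint_left.mp fx.dj b⟩, if_pos (Or.inl b)⟩
    · obtain ⟨y, hy, rfl⟩ := mem_image.mp hz
      obtain ⟨a, b⟩ := mem_sdiff.mp hy
      obtain ⟨x, hx, rfl⟩ := mem_image.mp a
      obtain ⟨c, d⟩ := mem_sdiff.mp hx
      exact mem_image.mpr ⟨x, mem_sdiff.mpr ⟨c, fun k => d (mem_union_left _ k)⟩,
        if_neg fun k => k.elim (fun k => d (mem_union_right _ k)) b⟩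
  have s3 := card_le_card s2
  rw [card_insert_of_notMem (by simp), card_image_of_injective _ (Option.some_injective _)] at s3
  have s4 := le_card_sdiff L (W0.image lab)
  have s5 : L ⊆ insert (lab' u0) (R.image lab ∪ if δ then {lab u1} else ∅) := by
    intro z hz
    obtain ⟨x, hx, rfl⟩ := mem_image.mp hz
    obtain ⟨x1, u, u2, j⟩ := mem_filter.mp hx
    obtain ⟨x2, x3⟩ := mem_sdiff.mp x1
    have x4 : x ∈ C0 := (hC x).mpr ⟨x1, mem_sdiff.mpr ⟨m1 (mem_inter.mpr ⟨x2,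
      mem_nb.mpr ⟨w.sub x2, Or.inr ⟨u, (mem_inter.mp u2).2, j⟩⟩⟩), fun c => (mem_union.mp c).elim
        (fun k => x3 (mem_union_left _ k)) fun k => far.na u (mem_inter.mp u2).2 x k j⟩⟩
    have x5 : tc G C0 (W ∩ S) x := ⟨x, Cn.refl _ _, u, u2, j⟩
    refine mem_insert.mpr (or_iff_not_imp_left.mpr fun n => ?_)
    have x6 : un G C0 N x := by
      by_contra k
      exact n ((l3 x x4 k).trans (l1 x x4 x5))
    by_cases x7 : tc G C0 (W' ∩ S') x
    · refine mem_union_right _ ?_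
      by_cases d : δ
      · rw [if_pos d, l2 x x4 x7]
        exact mem_singleton_self _
      · rcases hδ d with k | ⟨v, v1, v2, v3, v4⟩
        · exact absurd x7 (k x x4 x5)
        · exact absurd ((l2 x x4 x7).trans ((l2 v v1 v3).symm.trans
            ((l3 v v1 v4).trans (l1 v v1 v2)))) n
    · exact mem_union_left _ (mem_image_of_mem _ (mem_filter.mpr ⟨x4, x5, x7, x6⟩))
  have s6 := (card_le_card s5).trans ((card_insert_le _ _).trans
    (Nat.add_le_add_right (card_union_le _ _) 1))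
  have s7 : (R.image lab).card ≤ cp G R := image_le_cp fun x hx y hy j =>
    lc (Cn.adj (c0 (mem_filter.mp hx).1) (c0 (mem_filter.mp hy).1) j)
  have s8 := w.vio
  rw [sg_item sh fx ⟨u0, hu0⟩, ← hW0] at s8
  unfold sg
  by_cases d : δ
  · simp only [if_pos d, card_singleton] at s6 ⊢
    omega
  · simp only [if_neg d, card_empty] at s6 ⊢
    omega

/-- two violators with one pattern cannot contain each other's neighbourhoods -/
theorem pair_lemma (na : NA G) {s : ℤ} (pl : Pl G Y X PP) (hS : S ∈ PP) (hS' : S' ∈ PP)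
    (hne : S ≠ S') (dj : Disjoint S (N0 ∪ nb G Y X)) (dj' : Disjoint S' (N0 ∪ nb G Y X))
    (inv : ∀ C ⊆ Y, m ≤ (C ∩ N0).card → s ≤ sg G X C)
    (w : MinV G Y X S N0 m (s - 2) W) (w' : MinV G Y X S' N0 m (s - 2) W')
    (p1 : W ∩ (N0 ∪ nb G Y X) = W' ∩ (N0 ∪ nb G Y X))
    (p2 : ∀ a ∈ N0 ∪ nb G Y X, ∀ b ∈ N0 ∪ nb G Y X,
      Cn G (W \ (X ∪ S)) a b ↔ Cn G (W' \ (X ∪ S')) a b)
    (m1 : W ∩ nb G Y S ⊆ W') (m2 : W' ∩ nb G Y S' ⊆ W) : False := by
  have sh := pl.sh S hS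
  have sh' := pl.sh S' hS'
  have fx := pl.farX S hS
  have fx' := pl.farX S' hS'
  have far := pl.far S hS S' hS' hne
  set N := N0 ∪ nb G Y X with hN
  set U := W ∩ S with hU
  set U' := W' ∩ S' with hU'
  set C := W ∩ W' with hCd
  set C0 := (W \ (X ∪ S)) ∩ (W' \ (X ∪ S')) with hC0
  obtain ⟨δ, hδ⟩ : ∃ δ : Prop, δ ↔ (∃ v ∈ C0, tc G C0 U v ∧ tc G C0 U' v) ∧
      ∀ v ∈ C0, tc G C0 U v → tc G C0 U' v → un G C0 N v := ⟨_, Iff.rfl⟩
  have hd : ¬ δ → (∀ v ∈ C0, tc G C0 U v → ¬ tc G C0 U' v) ∨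
      ∃ v ∈ C0, tc G C0 U v ∧ tc G C0 U' v ∧ ¬ un G C0 N v := by
    rw [hδ]
    intro k
    by_contra c
    push Not at c
    exact k ⟨c.1, c.2⟩
  have a1 := pair_side (C0 := C0) (δ := δ) sh sh' fx fx' far w w' p2 m1 m2 (fun v => mem_inter) hd
  have a2 := pair_side (C0 := C0) (δ := δ) sh' sh fx' fx far.symm w' w
    (fun a ha b hb => (p2 a ha b hb).symm) m2 m1 (fun v => mem_inter.trans and_comm) fun k =>
      (hd k).imp (fun c v hv x y => c v hv y x) fun ⟨v, v1, v2, v3, v4⟩ => ⟨v, v1, v3, v2, v4⟩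
  rw [← hN, ← hU, ← hU'] at a1 a2
  have a3 := sg_sub (G := G) X W W'
  rw [← hCd] at a3
  have a4 := inv (W ∪ W') (union_subset w.sub w'.sub)
    (w.big.trans (card_le_card (inter_subset_inter_right subset_union_left)))
  have u1 : U ⊆ C := fun u hu => by
    obtain ⟨a, b⟩ := mem_inter.mp hu
    exact mem_inter.mpr ⟨a, m1 (mem_inter.mpr ⟨a, mem_nb.mpr ⟨w.sub a, Or.inl b⟩⟩)⟩
  have u2 : U' ⊆ C := fun u hu => by
    obtain ⟨a, b⟩ := mem_inter.mp hu
    exact mem_inter.mpr ⟨m2 (mem_inter.mpr ⟨a, mem_nb.mpr ⟨w'.sub a, Or.inl b⟩⟩), a⟩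
  have fu : FarG G U U' := far.mono inter_subset_right inter_subset_right
  have c0 : ∀ v, v ∈ C0 ↔ v ∈ C ∧ v ∉ X ∧ v ∉ U ∧ v ∉ U' := fun v => by
    simp only [hC0, hCd, hU, hU', mem_inter, mem_sdiff, mem_union]
    tauto
  have ux : ∀ v ∈ U, v ∉ X := fun v hv => disjoint_left.mp fx.dj (mem_inter.mp hv).2
  have ux' : ∀ v ∈ U', v ∉ X := fun v hv => disjoint_left.mp fx'.dj (mem_inter.mp hv).2
  have cY : C ⊆ Y := inter_subset_left.trans w.sub
  have rm : ∀ (p : V → Prop) (R D T : Finset V), (∀ v, v ∈ R ↔ v ∈ C0 ∧ p v) →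
      (∀ x y, Cn G C0 x y → p x → p y) → (∀ x ∈ C0, p x → un G C0 N x) → R ⊆ D → D ⊆ C →
      T ⊆ D \ R → (∀ x ∈ C0, p x → ∀ a ∈ U ∪ U', Adj G a x → a ∈ T) →
      Fz G D - Fz G (D \ R) = Fz G (R ∪ T) - Fz G T := by
    intro p R D T h0 h1 h2 h3 h4 h5 h6
    have := F_peel (G := G) (K := R) h5 disjoint_sdiff (by
      intro x hx a ha j
      obtain ⟨x1, x2⟩ := (h0 x).mp hx
      obtain ⟨b1, b2⟩ := mem_sdiff.mp ha
      by_cases c : a ∈ U ∪ U'
      · exact h6 x x1 x2 a c j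
      by_cases d : a ∈ X
      · exact absurd (Cn.refl _ _) (h2 x x1 x2 x (mem_union_right _
          (mem_nb.mpr ⟨cY ((c0 x).mp x1).1, Or.inr ⟨a, d, j⟩⟩)))
      have e : a ∈ C0 := (c0 a).mpr ⟨h4 b1, d, fun k => c (mem_union_left _ k),
        fun k => c (mem_union_right _ k)⟩
      exact absurd ((h0 a).mpr ⟨e, h1 x a (Cn.adj x1 e j.symm) x2⟩) b2)
    rwa [union_sdiff_of_subset h3] at this
  set R1 := C0.filter (fun v => tc G C0 U v ∧ ¬ tc G C0 U' v ∧ un G C0 N v) with hR1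
  set R2 := C0.filter (fun v => tc G C0 U' v ∧ ¬ tc G C0 U v ∧ un G C0 N v) with hR2
  set R3 := C0.filter (fun v => tc G C0 U v ∧ tc G C0 U' v ∧ δ) with hR3
  have q1 : R1 ⊆ C0 := filter_subset _ _
  have q2 : R2 ⊆ C0 := filter_subset _ _
  have q3 : R3 ⊆ C0 := filter_subset _ _
  have sb : ∀ {R}, R ⊆ C0 → R ⊆ C := fun h v hv => ((c0 v).mp (h hv)).1
  have d1 : ∀ {R}, R ⊆ C0 → Disjoint R U := fun h => disjoint_left.mpr fun v hv =>
    ((c0 v).mp (h hv)).2.2.1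
  have d2 : ∀ {R}, R ⊆ C0 → Disjoint R U' := fun h => disjoint_left.mpr fun v hv =>
    ((c0 v).mp (h hv)).2.2.2
  have b1 := rm _ R1 C U (fun v => mem_filter)
    (fun x y k h => ⟨h.1.cn k, fun c => h.2.1 (c.cn k.symm), h.2.2.cn k⟩) (fun x _ h => h.2.2)
    (sb q1) Subset.rfl (subset_sdiff.mpr ⟨u1, (d1 q1).symm⟩) fun x _ h a ha j =>
      (mem_union.mp ha).elim id fun c => absurd ⟨x, Cn.refl _ _, a, c, j⟩ h.2.1
  have r21 : R2 ⊆ C \ R1 := subset_sdiff.mpr ⟨sb q2, disjoint_left.mpr fun v a b =>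
    (mem_filter.mp a).2.2.1 (mem_filter.mp b).2.1⟩
  have b2 := rm _ R2 (C \ R1) U' (fun v => mem_filter)
    (fun x y k h => ⟨h.1.cn k, fun c => h.2.1 (c.cn k.symm), h.2.2.cn k⟩) (fun x _ h => h.2.2)
    r21 sdiff_subset (subset_sdiff.mpr ⟨subset_sdiff.mpr ⟨u2, (d2 q1).symm⟩, (d2 q2).symm⟩)
    fun x _ h a ha j =>
      (mem_union.mp ha).elim (fun c => absurd ⟨x, Cn.refl _ _, a, c, j⟩ h.2.1) id
  have r3 : R3 ⊆ (C \ R1) \ R2 := subset_sdiff.mpr ⟨subset_sdiff.mpr ⟨sb q3,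
    disjoint_left.mpr fun v a b => (mem_filter.mp b).2.2.1 (mem_filter.mp a).2.2.1⟩,
    disjoint_left.mpr fun v a b => (mem_filter.mp b).2.2.1 (mem_filter.mp a).2.1⟩
  have uu : ∀ {R}, R ⊆ C0 → Disjoint (U ∪ U') R := fun h =>
    disjoint_union_left.mpr ⟨(d1 h).symm, (d2 h).symm⟩
  have u3 : U ∪ U' ⊆ ((C \ R1) \ R2) \ R3 := subset_sdiff.mpr ⟨subset_sdiff.mpr
    ⟨subset_sdiff.mpr ⟨union_subset u1 u2, uu q1⟩, uu q2⟩, uu q3⟩
  have un3 : ∀ x ∈ C0, (tc G C0 U x ∧ tc G C0 U' x ∧ δ) → un G C0 N x :=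
    fun x hx h => (hδ.mp h.2.2).2 x hx h.1 h.2.1
  have b3 := rm _ R3 ((C \ R1) \ R2) (U ∪ U') (fun v => mem_filter)
    (fun x y k h => ⟨h.1.cn k, h.2.1.cn k, h.2.2⟩) un3 r3 (sdiff_subset.trans sdiff_subset) u3
    fun x _ _ a ha _ => ha
  have h1 := hang (G := G) (R := R1) (d1 q1) fun K hK ne =>
    na.hang1 sh inter_subset_right w.meet ne ((d1 q1).mono_left hK)
  have h2 := hang (G := G) (R := R2) (d2 q2) fun K hK ne =>
    na.hang1 sh' inter_subset_right w'.meet ne ((d2 q2).mono_left hK)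
  have h3 : Fz G (U ∪ U') ≤ Fz G (R3 ∪ (U ∪ U')) := by
    rcases R3.eq_empty_or_nonempty with e | e
    · rw [e, empty_union]
    have e1 := fu.F
    have e2 := sh.F_le inter_subset_right w.meet
    have e3 := sh'.F_le inter_subset_right w'.meet
    have e4 := card_pos.mpr e
    have e5 := card_union_of_disjoint (uu q3).symm
    have e6 := card_union_of_disjoint fu.dj
    have e7 := na.F_ge (R3 ∪ (U ∪ U'))
    have e8 : U.card ≤ S.card := card_le_card inter_subset_right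
    have e9 : U'.card ≤ S'.card := card_le_card inter_subset_right
    have f1 := sh.card_le
    have f2 := sh'.card_le
    have f3 := card_pos.mpr w.meet
    have f4 := card_pos.mpr w'.meet
    rw [← hU] at e2 f3
    rw [← hU'] at e3 f4
    by_cases c : U.card = 2 ∧ U'.card = 2
    · have g1 : U = S := eq_of_subset_of_card_le inter_subset_right (by omega)
      have g2 : U' = S' := eq_of_subset_of_card_le inter_subset_right (by omega)
      have := pl.pf S hS S' hS' hne (by omega) (by omega) (R3 ∪ (U ∪ U'))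
        ((union_subset (sb q3) (union_subset u1 u2)).trans cY) (by rw [g1, g2]; exact subset_union_right)
      omega
    · omega
  set C3 := ((C \ R1) \ R2) \ R3 with hC3
  have c3 : ∀ v, v ∈ C3 ↔ v ∈ C ∧ v ∉ R1 ∧ v ∉ R2 ∧ v ∉ R3 := fun v => by
    simp only [hC3, mem_sdiff, and_assoc]
  have k0 : C0 ⊆ C \ X := fun v hv => mem_sdiff.mpr ⟨((c0 v).mp hv).1, ((c0 v).mp hv).2.1⟩
  have k1 : U ⊆ C3 \ X := fun v hv => mem_sdiff.mpr ⟨u3 (mem_union_left _ hv), ux v hv⟩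
  have k2 : U' ⊆ C3 \ X := fun v hv => mem_sdiff.mpr ⟨u3 (mem_union_right _ hv), ux' v hv⟩
  have k3 : C3 \ X ⊆ C \ X := sdiff_subset_sdiff (fun v hv => ((c3 v).mp hv).1) Subset.rfl
  have k4 : ∀ T ⊆ C3 \ X, ∀ v ∈ C0, tc G C0 T v → ∃ u ∈ T, Cn G (C \ X) v u := by
    rintro T hT v hv ⟨x, a, u, b, c⟩
    exact ⟨u, b, (a.mono k0).trans (Cn.adj (k0 (a.mem hv)) (k3 (hT b)) c.symm)⟩
  have k5 : cp G (C \ X) ≤ ((C3 \ X).image (cmp G (C \ X))).card := by
    refine card_le_card fun z hz => ?_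
    obtain ⟨v, hv, rfl⟩ := mem_image.mp hz
    have a : ∀ T ⊆ C3 \ X, v ∈ C0 → tc G C0 T v → cmp G (C \ X) v ∈
        (C3 \ X).image (cmp G (C \ X)) := fun T hT h t => by
      obtain ⟨u, b, c⟩ := k4 T hT v h t
      exact mem_image.mpr ⟨u, hT b, c.cmp_eq.symm⟩
    by_cases c1 : v ∈ R1
    · exact a U k1 (mem_filter.mp c1).1 (mem_filter.mp c1).2.1
    by_cases c2 : v ∈ R2
    · exact a U' k2 (mem_filter.mp c2).1 (mem_filter.mp c2).2.1
    by_cases c4 : v ∈ R3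
    · exact a U k1 (mem_filter.mp c4).1 (mem_filter.mp c4).2.1
    exact mem_image_of_mem _ (mem_sdiff.mpr ⟨(c3 v).mpr ⟨(mem_sdiff.mp hv).1, c1, c2, c4⟩,
      (mem_sdiff.mp hv).2⟩)
  have k6 : (cp G (C \ X) : ℤ) + (if δ then 1 else 0) ≤ cp G (C3 \ X) := by
    by_cases d : δ
    swap
    · have := image_le_cp (G := G) (A := C3 \ X) (g := cmp G (C \ X))
        fun x hx y hy j => (Cn.adj (k3 hx) (k3 hy) j).cmp_eq
      rw [if_neg d]
      omega
    let h : V → Prop := fun v => v ∈ U ∨ (v ∈ C0 ∧ tc G C0 U v)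
    have hh : ∀ x ∈ C3 \ X, ∀ y ∈ C3 \ X, Adj G x y → h x → h y := by
      intro x hx y hy j k
      by_cases e1 : y ∈ U
      · exact Or.inl e1
      have e2 : y ∉ U' := fun e => k.elim (fun k => fu.na x k y e j) fun k =>
        ((c3 x).mp (mem_sdiff.mp hx).1).2.2.2 (mem_filter.mpr ⟨k.1, k.2,
          ⟨x, Cn.refl _ _, y, e, j.symm⟩, d⟩)
      have e3 : y ∈ C0 := (c0 y).mpr ⟨(mem_sdiff.mp (k3 hy)).1, (mem_sdiff.mp hy).2, e1, e2⟩
      exact Or.inr ⟨e3, k.elim (fun k => ⟨y, Cn.refl _ _, x, k, j⟩)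
        fun k => k.2.cn (Cn.adj k.1 e3 j)⟩
    have e1 := image_le_cp (G := G) (A := C3 \ X) (g := fun v => (cmp G (C \ X) v, h v))
      fun x hx y hy j => Prod.ext (Cn.adj (k3 hx) (k3 hy) j).cmp_eq
        (propext ⟨hh x hx y hy j, hh y hy x hx j.symm⟩)
    have e2 : (C3 \ X).image (cmp G (C \ X)) =
        ((C3 \ X).image (fun v => (cmp G (C \ X) v, h v))).image Prod.fst := by
      rw [image_image]
      rfl
    obtain ⟨v, v1, v2, v3⟩ := (hδ.mp d).1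
    obtain ⟨u, b, c⟩ := k4 U k1 v v1 v2
    obtain ⟨u', b', c'⟩ := k4 U' k2 v v1 v3
    have e3 : (((C3 \ X).image (fun v => (cmp G (C \ X) v, h v))).image Prod.fst).card <
        ((C3 \ X).image (fun v => (cmp G (C \ X) v, h v))).card := by
      refine lt_of_le_of_ne card_image_le fun k => ?_
      have := card_image_iff.mp k (mem_image_of_mem _ (k1 b)) (mem_image_of_mem _ (k2 b'))
        (c.symm.trans c').cmp_eq
      have k7' : h u = h u' := congrArg Prod.snd this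
      have k7 : h u' := k7' ▸ (Or.inl b : h u)
      exact k7.elim (disjoint_right.mp fu.dj b') fun k => ((c0 u').mp k.1).2.2.2 b'
    rw [← e2] at e3
    rw [if_pos d]
    omega
  have k7 : ∀ v ∈ C, v ∈ N → v ∈ C3 := fun v hv h => (c3 v).mpr ⟨hv,
    fun k => (mem_filter.mp k).2.2.2 v h (Cn.refl _ _),
    fun k => (mem_filter.mp k).2.2.2 v h (Cn.refl _ _),
    fun k => un3 v (mem_filter.mp k).1 (mem_filter.mp k).2 v h (Cn.refl _ _)⟩
  have k8 : C3 ∩ X = C ∩ X := by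
    ext v
    simp only [mem_inter]
    exact ⟨fun k => ⟨((c3 v).mp k.1).1, k.2⟩,
      fun k => ⟨k7 v k.1 (mem_union_right _ (mem_nb.mpr ⟨cY k.1, Or.inl k.2⟩)), k.2⟩⟩
  have k9 := inv C3 (fun v hv => cY ((c3 v).mp hv).1) (w.big.trans (card_le_card fun v hv => by
    obtain ⟨a, b⟩ := mem_inter.mp hv
    have c : v ∈ N := mem_union_left _ b
    have d : v ∈ W' ∩ N := p1 ▸ mem_inter.mpr ⟨a, c⟩
    exact mem_inter.mpr ⟨k7 v (mem_inter.mpr ⟨a, (mem_inter.mp d).1⟩) c, b⟩))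
  have z1 : sg G X C3 = Fz G C3 + 1 - cp G (C3 \ X) - cp G (C ∩ X) := by rw [← k8]; rfl
  have z2 : sg G X C = Fz G C + 1 - cp G (C \ X) - cp G (C ∩ X) := rfl
  by_cases d : δ
  · simp only [if_pos d] at a1 a2 k6
    omega
  · simp only [if_neg d] at a1 a2 k6
    omega

theorem tour {α : Type} {s : Finset α} {R : α → α → Prop} (hne : s.Nonempty)
    (h : ∀ a ∈ s, ∀ b ∈ s, a ≠ b → R a b ∨ R b a) :
    ∃ a ∈ s, ∃ t ⊆ s, (∀ b ∈ t, R a b) ∧ s.card ≤ 2 * t.card + 1 := by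
  by_contra c0
  have c : ∀ a ∈ s, 2 * (s.filter (R a)).card + 1 < s.card := fun a ha => by
    by_contra k
    exact c0 ⟨a, ha, _, filter_subset _ _, fun b hb => (mem_filter.mp hb).2, not_lt.mp k⟩
  have h1 : ∑ a ∈ s, (s.filter (R a)).card = ∑ b ∈ s, (s.filter (fun a => R a b)).card :=
    sum_card_bipartiteAbove_eq_sum_card_bipartiteBelow (s := s) (t := s) R
  have h3 : ∑ a ∈ s, (2 * (s.filter (R a)).card + 1) <
      ∑ a ∈ s, ((s.filter (R a)).card + (s.filter (fun b => R b a)).card + 1) := by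
    refine sum_lt_sum_of_nonempty hne fun a ha => lt_of_lt_of_le (c a ha) ?_
    have : s ⊆ insert a (s.filter (R a) ∪ s.filter (fun b => R b a)) := by
      intro b hb
      by_cases k : a = b
      · simp [k]
      · simp only [mem_insert, mem_union, mem_filter]
        have := h a ha b hb k
        tauto
    exact (card_le_card this).trans ((card_insert_le _ _).trans
      (Nat.add_le_add_right (card_union_le _ _) 1))
  simp only [sum_add_distrib, ← mul_sum] at h3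
  omega

theorem chain (t : ℕ) : ∃ g : ℕ, 1 ≤ g ∧ ∀ {V E : Type} [Fintype V] [Fintype E] (G : MG V E)
    (τ : Finset V) (FF : Finset (Finset V)) (Wf Nf : Finset V → Finset V),
    (∀ S ∈ FF, τ ⊆ Wf S ∧ Nf S ⊆ Wf S ∧ (Nf S).card ≤ 14 ∧
      ∀ C ⊆ Wf S, C ≠ Wf S → τ ⊆ C → Fz G (Wf S) + 1 ≤ Fz G C) →
    (∀ S ∈ FF, ∀ S' ∈ FF, S ≠ S' → ¬ Nf S ⊆ Wf S' ∨ ¬ Nf S' ⊆ Wf S) → g ≤ FF.card →
    ∃ B, τ ⊆ B ∧ (∀ v ∈ B, v ∈ τ ∨ ∃ S ∈ FF, v ∈ Wf S) ∧ Fz G B + t ≤ Fz G τ := by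
  induction t with
  | zero => exact ⟨1, le_rfl, fun G τ FF Wf Nf _ _ _ => ⟨τ, Subset.rfl, fun v hv => Or.inl hv, by simp⟩⟩
  | succ t ih =>
  obtain ⟨g, g1, ih⟩ := ih
  refine ⟨28 * g + 2, by omega, fun G τ FF Wf Nf h1 h2 h3 => ?_⟩
  obtain ⟨S, hS, O, o1, o2, a⟩ := tour (R := fun S S' => ¬ Nf S ⊆ Wf S') (card_pos.mp (by omega)) h2
  obtain ⟨s1, s2, s3, s4⟩ := h1 S hS
  obtain ⟨v, hv, b⟩ : ∃ v ∈ Nf S, g ≤ (FF.filter (fun S' => v ∉ Wf S')).card := by
    by_contra c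
    push Not at c
    have e1 : O ⊆ (Nf S).biUnion (fun v => FF.filter (fun S' => v ∉ Wf S')) := by
      intro S' h
      obtain ⟨v, v1, v2⟩ := not_subset.mp (o2 S' h)
      exact mem_biUnion.mpr ⟨v, v1, mem_filter.mpr ⟨o1 h, v2⟩⟩
    have e2 := (card_le_card e1).trans (card_biUnion_le_card_mul _ _ g fun v hv => (c v hv).le)
    have e3 := Nat.mul_le_mul_right g s3
    omega
  obtain ⟨B, b1, b2, b3⟩ := ih G τ (FF.filter (fun S' => v ∉ Wf S')) Wf Nf
    (fun S' h => h1 S' (mem_filter.mp h).1)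
    (fun S' h S'' h' => h2 S' (mem_filter.mp h).1 S'' (mem_filter.mp h').1) b
  have vB : v ∉ B := fun k => by
    rcases b2 v k with k | ⟨S', k1, k2⟩
    · obtain ⟨S', k1⟩ := card_pos.mp (lt_of_lt_of_le g1 b)
      exact (mem_filter.mp k1).2 ((h1 S' (mem_filter.mp k1).1).1 k)
    · exact (mem_filter.mp k1).2 k2
  have c1 := s4 (B ∩ Wf S) inter_subset_right (fun k => vB (mem_inter.mp (k ▸ s2 hv)).1)
    (subset_inter b1 s1)
  have c2 := Fz_sub (G := G) B (Wf S)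
  refine ⟨B ∪ Wf S, b1.trans subset_union_left, fun x hx => ?_, by push_cast; omega⟩
  rcases mem_union.mp hx with k | k
  · exact (b2 x k).imp id fun ⟨S', k1, k2⟩ => ⟨S', (mem_filter.mp k1).1, k2⟩
  · exact Or.inr ⟨S, hS, k⟩

theorem Cn.mem_left {A : Finset V} {a b : V} (h : Cn G A a b) (n : a ≠ b) : a ∈ A := by
  rcases Relation.ReflTransGen.cases_head h with k | ⟨c, k, -⟩
  · exact absurd k n
  · exact k.1

theorem ebad (n : ℕ) : ∃ B : ℕ, ∀ {V E : Type} [Fintype V] [Fintype E] (G : MG V E), NA G →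
    ∀ (Y X N0 : Finset V) (PP : Finset (Finset V)) (m : ℕ) (s : ℤ), Pl G Y X PP → 1 ≤ m →
      (N0 ∪ nb G Y X).card ≤ n → (∀ C ⊆ Y, m ≤ (C ∩ N0).card → s ≤ sg G X C) →
      (∀ S ∈ PP, ∃ C ⊆ Y, m ≤ (C ∩ N0).card ∧ sg G (X ∪ S) C ≤ s - 2) → PP.card ≤ B := by
  obtain ⟨g, g1, hg⟩ := chain (2 * n)
  refine ⟨n + 2 ^ (n * n) * g, fun G na Y X N0 PP m s pl hm hn inv bad => ?_⟩
  by_contra hc
  set N := N0 ∪ nb G Y X with hN
  have a1 := few_meet (PP := PP) (R := N) fun S a S' b c => (pl.far S a S' b c).dj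
  have a2 := card_filter_add_card_filter_not (s := PP) (fun S => Disjoint S N)
  set P1 := PP.filter (fun S => Disjoint S N) with hP1
  have ne : ∀ C : Finset _, m ≤ (C ∩ N0).card → (C ∩ N0).Nonempty := fun C k =>
    card_pos.mp (by omega)
  have ex : ∀ S ∈ P1, ∃ W, MinV G Y X S N0 m (s - 2) W := fun S hS => by
    obtain ⟨b1, b2⟩ := mem_filter.mp hS
    obtain ⟨C, c1, c2, c3⟩ := bad S b1
    exact exists_minV na pl.hX (pl.sh S b1) (pl.farX S b1) b2
      (fun C a _ b => by have := inv C a b; omega) ⟨C, c1, (ne C c2).mono inter_subset_left, c2, c3⟩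
  choose! Wf hW using ex
  let pat := fun S => (N ×ˢ N).filter
    (fun p => p.1 ∈ Wf S ∧ (p.1 = p.2 ∨ Cn G (Wf S \ (X ∪ S)) p.1 p.2))
  obtain ⟨y, -, hy⟩ := exists_le_card_fiber_of_mul_le_card_of_maps_to (s := P1)
    (t := (N ×ˢ N).powerset) (f := pat) (n := g)
    (fun S _ => mem_powerset.mpr (filter_subset _ _)) ⟨∅, by simp⟩ (by
      rw [card_powerset, card_product]
      have := Nat.mul_le_mul_right g (Nat.pow_le_pow_right (n := 2) (by omega) (Nat.mul_le_mul hn hn))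
      omega)
  have q1 : ∀ S S', pat S = pat S' → Wf S ∩ N ⊆ Wf S' ∩ N := fun S S' e a ha => by
    obtain ⟨b1, b2⟩ := mem_inter.mp ha
    have : (a, a) ∈ pat S' := e ▸ mem_filter.mpr ⟨mem_product.mpr ⟨b2, b2⟩, b1, Or.inl rfl⟩
    exact mem_inter.mpr ⟨(mem_filter.mp this).2.1, b2⟩
  have q2 : ∀ S S', pat S = pat S' → ∀ a ∈ N, ∀ b ∈ N, Cn G (Wf S \ (X ∪ S)) a b →
      Cn G (Wf S' \ (X ∪ S')) a b := fun S S' e a ha b hb k => by
    by_cases c : a = b
    · exact c ▸ Cn.refl _ _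
    have : (a, b) ∈ pat S' := e ▸ mem_filter.mpr ⟨mem_product.mpr ⟨ha, hb⟩,
      (mem_sdiff.mp (k.mem_left c)).1, Or.inr k⟩
    exact (mem_filter.mp this).2.2.resolve_left c
  obtain ⟨S0, h0⟩ := card_pos.mp (lt_of_lt_of_le g1 hy)
  have e0 : ∀ S ∈ P1.filter (fun S => pat S = y), pat S = pat S0 := fun S hS =>
    (mem_filter.mp hS).2.trans (mem_filter.mp h0).2.symm
  have e1 : ∀ S ∈ P1.filter (fun S => pat S = y), Wf S ∩ N = Wf S0 ∩ N := fun S hS =>
    Subset.antisymm (q1 _ _ (e0 S hS)) (q1 _ _ (e0 S hS).symm)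
  obtain ⟨B, b1, -, b3⟩ := hg G (Wf S0 ∩ N) _ Wf (fun S => Wf S ∩ nb G Y S) (fun S hS => by
      have w := hW S (mem_filter.mp hS).1
      have p := (mem_filter.mp (mem_filter.mp hS).1).1
      refine ⟨e1 S hS ▸ inter_subset_left, inter_subset_left,
        (card_le_card inter_subset_right).trans (pl.low S p), fun C c1 c2 c3 => ?_⟩
      rw [← e1 S hS] at c3
      by_cases d : Disjoint C S
      · have f1 := w.up2 C c1 c3 d
        have f2 := inv C (c1.trans w.sub) (w.big.trans (card_le_card (subset_inter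
          ((inter_subset_inter_left subset_union_left).trans c3) inter_subset_right)))
        omega
      · exact w.up1 C c1 c2 c3 (not_disjoint_iff_nonempty_inter.mp d))
    (fun S hS S' hS' k => by
      by_contra c
      push Not at c
      obtain ⟨p1, p2⟩ := mem_filter.mp (mem_filter.mp hS).1
      obtain ⟨p3, p4⟩ := mem_filter.mp (mem_filter.mp hS').1
      have e := (e0 S hS).trans (e0 S' hS').symm
      exact pair_lemma na pl p1 p3 k p2 p4 inv (hW S (mem_filter.mp hS).1)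
        (hW S' (mem_filter.mp hS').1) ((e1 S hS).trans (e1 S' hS').symm)
        (fun a ha b hb => ⟨q2 _ _ e a ha b hb, q2 _ _ e.symm a ha b hb⟩) c.1 c.2) hy
  have f1 := F_le_card (G := G) (Wf S0 ∩ N)
  have f2 := card_le_card (inter_subset_right : Wf S0 ∩ N ⊆ N)
  have f3 := na.F0 (((ne _ (hW S0 (mem_filter.mp h0).1).big).mono
    (inter_subset_inter_left subset_union_left)).mono b1)
  push_cast at b3
  omega

end

end Pool.Agent.Lib.CF64
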