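import Pool.Agent.Lib.CF53.FinTop
import Pool.Agent.Lib.CF53.FinBd

set_option linter.unusedSectionVars false
set_option linter.unusedVariables false
set_option linter.unusedSimpArgs false

namespace Pool.Agent.Lib.CF64

open Finset Pool.Agent.Lib.MP_aa6b05_co Pool.Agent.Lib.MP_aa6b05_co.MG

open scoped Classical

noncomputable section

variable {V E : Type} [Fintype V] [Fintype E] {G : MG V E}

theorem chainE (t : ℕ) : ∃ g : ℕ, g = cg t ∧ 1 ≤ g ∧ ∀ {V E : Type} [Fintype V] [Fintype E] (G : MG V E)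
    (τ : Finset V) (FF : Finset (Finset V)) (Wf Nf : Finset V → Finset V),
    (∀ S ∈ FF, τ ⊆ Wf S ∧ Nf S ⊆ Wf S ∧ (Nf S).card ≤ 14 ∧
      ∀ C ⊆ Wf S, C ≠ Wf S → τ ⊆ C → Fz G (Wf S) + 1 ≤ Fz G C) →
    (∀ S ∈ FF, ∀ S' ∈ FF, S ≠ S' → ¬ Nf S ⊆ Wf S' ∨ ¬ Nf S' ⊆ Wf S) → g ≤ FF.card →
    ∃ B, τ ⊆ B ∧ (∀ v ∈ B, v ∈ τ ∨ ∃ S ∈ FF, v ∈ Wf S) ∧ Fz G B + t ≤ Fz G τ := by
  induction t with
  | zero => exact ⟨1, rfl, le_rfl, fun G τ FF Wf Nf _ _ _ => ⟨τ, Subset.rfl, fun v hv => Or.inl hv, by simp⟩⟩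
  | succ t ih =>
  obtain ⟨g, g0, g1, ih⟩ := ih
  refine ⟨28 * g + 2, g0 ▸ rfl, by omega, fun G τ FF Wf Nf h1 h2 h3 => ?_⟩
  obtain ⟨S, hS, O, o1, o2, a⟩ := tour (R := fun S S' => ¬ Nf S ⊆ Wf S') (card_pos.mp (by omega)) h2
  obtain ⟨s1, s2, s3, s4⟩ := h1 S hS
  obtain ⟨v, hv, b⟩ : ∃ v ∈ Nf S, g ≤ (FF.filter (fun S' => v ∉ Wf S')).card := by
    by_contra c
    push Not at c
    have e1 : O ⊆ (Nf S).biUnion (fun v => FF.filter (fun S' => v ∉ Wf S')) := by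
      intro S' h
      obtain ⟨v, v1, v2⟩ := not_subset.mp (o2 S' h)
      exact mem_biUnion.mpr ⟨v, v1, mem_filter.mpr ⟨o1 h, v2⟩⟩
    have e2 := (card_le_card e1).trans (card_biUnion_le_card_mul _ _ g fun v hv => (c v hv).le)
    have e3 := Nat.mul_le_mul_right g s3
    omega
  obtain ⟨B, b1, b2, b3⟩ := ih G τ (FF.filter (fun S' => v ∉ Wf S')) Wf Nf
    (fun S' h => h1 S' (mem_filter.mp h).1)
    (fun S' h S'' h' => h2 S' (mem_filter.mp h).1 S'' (mem_filter.mp h').1) b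
  have vB : v ∉ B := fun k => by
    rcases b2 v k with k | ⟨S', k1, k2⟩
    · obtain ⟨S', k1⟩ := card_pos.mp (lt_of_lt_of_le g1 b)
      exact (mem_filter.mp k1).2 ((h1 S' (mem_filter.mp k1).1).1 k)
    · exact (mem_filter.mp k1).2 k2
  have c1 := s4 (B ∩ Wf S) inter_subset_right (fun k => vB (mem_inter.mp (k ▸ s2 hv)).1)
    (subset_inter b1 s1)
  have c2 := Fz_sub (G := G) B (Wf S)
  refine ⟨B ∪ Wf S, b1.trans subset_union_left, fun x hx => ?_, by push_cast; omega⟩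
  rcases mem_union.mp hx with k | k
  · exact (b2 x k).imp id fun ⟨S', k1, k2⟩ => ⟨S', (mem_filter.mp k1).1, k2⟩
  · exact Or.inr ⟨S, hS, k⟩

theorem ebadE (n : ℕ) : ∃ B : ℕ, B = eB n ∧ ∀ {V E : Type} [Fintype V] [Fintype E] (G : MG V E), NA G →
    ∀ (Y X N0 : Finset V) (PP : Finset (Finset V)) (m : ℕ) (s : ℤ), Pl G Y X PP → 1 ≤ m →
      (N0 ∪ nb G Y X).card ≤ n → (∀ C ⊆ Y, m ≤ (C ∩ N0).card → s ≤ sg G X C) →
      (∀ S ∈ PP, ∃ C ⊆ Y, m ≤ (C ∩ N0).card ∧ sg G (X ∪ S) C ≤ s - 2) → PP.card ≤ B := by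
  obtain ⟨g, g0, g1, hg⟩ := chainE (2 * n)
  refine ⟨n + 2 ^ (n * n) * g, g0 ▸ rfl, fun G na Y X N0 PP m s pl hm hn inv bad => ?_⟩
  by_contra hc
  set N := N0 ∪ nb G Y X with hN
  have a1 := few_meet (PP := PP) (R := N) fun S a S' b c => (pl.far S a S' b c).dj
  have a2 := card_filter_add_card_filter_not (s := PP) (fun S => Disjoint S N)
  set P1 := PP.filter (fun S => Disjoint S N) with hP1
  have ne : ∀ C : Finset _, m ≤ (C ∩ N0).card → (C ∩ N0).Nonempty := fun C k =>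
    card_pos.mp (by omega)
  have ex : ∀ S ∈ P1, ∃ W, MinV G Y X S N0 m (s - 2) W := fun S hS => by
    obtain ⟨b1, b2⟩ := mem_filter.mp hS
    obtain ⟨C, c1, c2, c3⟩ := bad S b1
    exact exists_minV na pl.hX (pl.sh S b1) (pl.farX S b1) b2
      (fun C a _ b => by have := inv C a b; omega) ⟨C, c1, (ne C c2).mono inter_subset_left, c2, c3⟩
  choose! Wf hW using ex
  let pat := fun S => (N ×ˢ N).filter
    (fun p => p.1 ∈ Wf S ∧ (p.1 = p.2 ∨ Cn G (Wf S \ (X ∪ S)) p.1 p.2))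
  obtain ⟨y, -, hy⟩ := exists_le_card_fiber_of_mul_le_card_of_maps_to (s := P1)
    (t := (N ×ˢ N).powerset) (f := pat) (n := g)
    (fun S _ => mem_powerset.mpr (filter_subset _ _)) ⟨∅, by simp⟩ (by
      rw [card_powerset, card_product]
      have := Nat.mul_le_mul_right g (Nat.pow_le_pow_right (n := 2) (by omega) (Nat.mul_le_mul hn hn))
      omega)
  have q1 : ∀ S S', pat S = pat S' → Wf S ∩ N ⊆ Wf S' ∩ N := fun S S' e a ha => by
    obtain ⟨b1, b2⟩ := mem_inter.mp ha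
    have : (a, a) ∈ pat S' := e ▸ mem_filter.mpr ⟨mem_product.mpr ⟨b2, b2⟩, b1, Or.inl rfl⟩
    exact mem_inter.mpr ⟨(mem_filter.mp this).2.1, b2⟩
  have q2 : ∀ S S', pat S = pat S' → ∀ a ∈ N, ∀ b ∈ N, Cn G (Wf S \ (X ∪ S)) a b →
      Cn G (Wf S' \ (X ∪ S')) a b := fun S S' e a ha b hb k => by
    by_cases c : a = b
    · exact c ▸ Cn.refl _ _
    have : (a, b) ∈ pat S' := e ▸ mem_filter.mpr ⟨mem_product.mpr ⟨ha, hb⟩,
      (mem_sdiff.mp (k.mem_left c)).1, Or.inr k⟩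
    exact (mem_filter.mp this).2.2.resolve_left c
  obtain ⟨S0, h0⟩ := card_pos.mp (lt_of_lt_of_le g1 hy)
  have e0 : ∀ S ∈ P1.filter (fun S => pat S = y), pat S = pat S0 := fun S hS =>
    (mem_filter.mp hS).2.trans (mem_filter.mp h0).2.symm
  have e1 : ∀ S ∈ P1.filter (fun S => pat S = y), Wf S ∩ N = Wf S0 ∩ N := fun S hS =>
    Subset.antisymm (q1 _ _ (e0 S hS)) (q1 _ _ (e0 S hS).symm)
  obtain ⟨B, b1, -, b3⟩ := hg G (Wf S0 ∩ N) _ Wf (fun S => Wf S ∩ nb G Y S) (fun S hS => by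
      have w := hW S (mem_filter.mp hS).1
      have p := (mem_filter.mp (mem_filter.mp hS).1).1
      refine ⟨e1 S hS ▸ inter_subset_left, inter_subset_left,
        (card_le_card inter_subset_right).trans (pl.low S p), fun C c1 c2 c3 => ?_⟩
      rw [← e1 S hS] at c3
      by_cases d : Disjoint C S
      · have f1 := w.up2 C c1 c3 d
        have f2 := inv C (c1.trans w.sub) (w.big.trans (card_le_card (subset_inter
          ((inter_subset_inter_left subset_union_left).trans c3) inter_subset_right)))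
        omega
      · exact w.up1 C c1 c2 c3 (not_disjoint_iff_nonempty_inter.mp d))
    (fun S hS S' hS' k => by
      by_contra c
      push Not at c
      obtain ⟨p1, p2⟩ := mem_filter.mp (mem_filter.mp hS).1
      obtain ⟨p3, p4⟩ := mem_filter.mp (mem_filter.mp hS').1
      have e := (e0 S hS).trans (e0 S' hS').symm
      exact pair_lemma na pl p1 p3 k p2 p4 inv (hW S (mem_filter.mp hS).1)
        (hW S' (mem_filter.mp hS').1) ((e1 S hS).trans (e1 S' hS').symm)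
        (fun a ha b hb => ⟨q2 _ _ e a ha b hb, q2 _ _ e.symm a ha b hb⟩) c.1 c.2) hy
  have f1 := F_le_card (G := G) (Wf S0 ∩ N)
  have f2 := card_le_card (inter_subset_right : Wf S0 ∩ N ⊆ N)
  have f3 := na.F0 (((ne _ (hW S0 (mem_filter.mp h0).1).big).mono
    (inter_subset_inter_left subset_union_left)).mono b1)
  push_cast at b3
  omega

theorem gptE (c : ℕ) : ∃ t : ℕ, t = gT c ∧ ∀ {V E : Type} [Fintype V] [Fintype E] (G : MG V E), NA G →
    ∀ (Z : Finset V) (QQ : Finset (Finset V)), Z.Nonempty → Fz G Z ≤ c →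
      (∀ P ∈ QQ, Pt G Z P ∧ 2 ≤ P.card) → (∀ P ∈ QQ, ∀ P' ∈ QQ, P ≠ P' → Disjoint P P') →
      QQ.card ≤ t := by
  induction c with
  | zero =>
    refine ⟨0, rfl, fun G na Z QQ ne hF pt _ => Nat.le_zero.mpr (card_eq_zero.mpr
      (eq_empty_of_forall_notMem fun P hP => ?_))⟩
    obtain ⟨p, p2⟩ := pt P hP
    have a1 := p.h0
    have a2 := (na.F_ge (P ∪ Z)).2.1 (p2.trans (card_le_card subset_union_left))
    omega
  | succ c ih =>
  obtain ⟨t, t0, ih⟩ := ih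
  refine ⟨c + c * t, t0 ▸ rfl, fun G na Z QQ ne hF pt dj => ?_⟩
  by_contra k
  obtain ⟨J, j1, j2, u, v, j3, j4⟩ := greedy (Z := Z) (QQ := QQ) (c := c) (t := t) na
    (fun P h => (pt P h).1) (fun W w1 w2 w3 => ih G na W _ w2 w3
      (fun P h => ⟨(pt P (mem_filter.mp h).1).1.base w1 fun x hx a ha j =>
        (mem_filter.mp h).2 (mem_filter.mpr ⟨ha, x, hx, j⟩), (pt P (mem_filter.mp h).1).2⟩)
      fun P h P' h' => dj P (mem_filter.mp h).1 P' (mem_filter.mp h').1) (not_le.mp k) (c + 1) le_rfl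
  exact na.na _ (acc_of_virtual na (card_pos.mp (by omega)) (fun P h => pt P (j1 h))
    (fun P h P' h' => dj P (j1 h) P' (j1 h')) j3 j4 (j2 ▸ hF))

theorem petalsE (c r : ℕ) : ∃ t : ℕ, t = pB c r ∧ ∀ {V E : Type} [Fintype V] [Fintype E] (G : MG V E), NA G →
    ∀ (Z R : Finset V) (QQ : Finset (Finset V)), Z.Nonempty → Fz G Z ≤ c → R.card ≤ r →
      (∀ P ∈ QQ, Pt G Z P) → (∀ v, {v} ∈ QQ → 2 ≤ dg G v R) →
      (∀ P ∈ QQ, ∀ P' ∈ QQ, P ≠ P' → Disjoint P P') → QQ.card ≤ t := by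
  obtain ⟨t, t0, h⟩ := gptE c
  refine ⟨t + r * r, t0 ▸ rfl, fun G na Z R QQ ne hF hR pt sg dj => ?_⟩
  have a1 := h G na Z (QQ.filter (fun P => 2 ≤ P.card)) ne hF
    (fun P k => ⟨pt P (mem_filter.mp k).1, (mem_filter.mp k).2⟩)
    fun P k P' k' => dj P (mem_filter.mp k).1 P' (mem_filter.mp k').1
  have a2 := card_filter_add_card_filter_not (s := QQ) (fun P => 2 ≤ P.card)
  have a3 := na.gi.two_nb (R := R) (Q := univ.filter (fun v => {v} ∈ QQ))
    fun v hv => sg v (mem_filter.mp hv).2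
  have a4 : (QQ.filter (fun P => ¬ 2 ≤ P.card)).card ≤ (univ.filter (fun v => {v} ∈ QQ)).card := by
    refine le_trans (card_le_card fun P hP => ?_) (card_image_le (f := fun v => {v}))
    obtain ⟨b1, b2⟩ := mem_filter.mp hP
    obtain ⟨v, rfl⟩ := card_eq_one.mp (show P.card = 1 by have := card_pos.mpr (pt P b1).ne; omega)
    exact mem_image_of_mem _ (mem_filter.mpr ⟨mem_univ _, b1⟩)
  have a5 := Nat.mul_le_mul hR hR
  omega

theorem seqJE (n m t : ℕ) : ∃ b : ℕ, b = sJ n m t ∧ ∀ {V E : Type} [Fintype V] [Fintype E] (G : MG V E), NA G →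
    ∀ (Y X τ Z : Finset V) (PP : Finset (Finset V)) (s : ℤ) (Wf : Finset V → Finset V),
      Pl G Y X PP → 1 ≤ m → 1 ≤ s → (nb G Y X).card ≤ n → (∀ C ⊆ Y, C.Nonempty → 0 ≤ sg G X C) →
      (∀ C ⊆ Y, m ≤ (C ∩ PP.biUnion (nb G Y)).card → s ≤ sg G X C) → τ.Nonempty →
      (∀ C ⊆ Y, τ ⊆ C → sg G X C ≤ 0 → C ⊆ Z) → ∀ (B : Finset V) (FF : Finset (Finset V)),
      FF ⊆ PP → τ ⊆ B → (∀ S ∈ FF, MinV G Y X S ∅ 0 (-1) (Wf S) ∧ Wf S ∩ (∅ ∪ nb G Y X) = τ ∧
        Disjoint S B) → b ≤ FF.card →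
      ∃ J ⊆ FF, (t : ℤ) ≤ J.card + Fz G B ∧ (∀ S ∈ J, Wf S ∩ B ⊆ Z) ∧
        ∀ S ∈ J, ∀ S' ∈ J, S ≠ S' → Wf S ∩ Wf S' ⊆ Z := by
  induction t with
  | zero =>
    exact ⟨0, rfl, fun G na Y X τ Z PP s Wf pl hm hs hn i0 i1 hτ hZ B FF h1 h2 h3 _ =>
      ⟨∅, empty_subset _, by simpa using na.F0 (hτ.mono h2), by simp, by simp⟩⟩
  | succ t ih =>
  obtain ⟨b, b0, ih⟩ := ih
  obtain ⟨Be, B0, eb⟩ := ebadE ((b + m) * 14 + n)
  refine ⟨b + m + Be + 1, by rw [B0, b0]; rfl, fun G na Y X τ Z PP s Wf pl hm hs hn i0 i1 hτ hZ B FF h1 h2 h3 h4 => ?_⟩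
  obtain ⟨QQ, q1, q2⟩ := exists_subset_card_eq (s := FF) (n := b + m) (by omega)
  set N0 := QQ.biUnion (nb G Y) with hN0
  have n1 : N0.card ≤ (b + m) * 14 :=
    q2 ▸ card_biUnion_le_card_mul _ _ _ fun S hS => pl.low S (h1 (q1 hS))
  obtain ⟨S, s1, s2⟩ : ∃ S ∈ FF \ QQ, ¬ ∃ C ⊆ Y, m ≤ (C ∩ N0).card ∧ sg G (X ∪ S) C ≤ s - 2 := by
    by_contra c
    push Not at c
    have a1 := eb G na Y X N0 (FF \ QQ) m s (pl.mono (sdiff_subset.trans h1)) hm
      ((card_union_le _ _).trans (by omega)) (fun C c1 c2 => i1 C c1 (c2.trans (card_le_card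
        (inter_subset_inter_left (biUnion_subset_biUnion_of_subset_left _ (q1.trans h1)))))) c
    have a2 := card_sdiff_add_card_eq_card q1
    omega
  obtain ⟨s3, s4⟩ := mem_sdiff.mp s1
  obtain ⟨w, w1, w2⟩ := h3 S s3
  have a1 : (Wf S ∩ N0).card < m := by
    by_contra c
    exact s2 ⟨Wf S, w.sub, not_lt.mp c, by have := w.vio; omega⟩
  have a2 := few_meet (PP := QQ) (R := Wf S ∩ N0) fun S a S' b c =>
    (pl.far S (h1 (q1 a)) S' (h1 (q1 b)) c).dj
  have a3 := card_filter_add_card_filter_not (s := QQ) (fun S' => Disjoint S' (Wf S ∩ N0))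
  obtain ⟨J, j1, j2, j3, j4⟩ := ih G na Y X τ Z PP s Wf pl hm hs hn i0 i1 hτ hZ (B ∪ Wf S)
    (QQ.filter (fun S' => Disjoint S' (Wf S ∩ N0))) ((filter_subset _ _).trans (q1.trans h1))
    (h2.trans subset_union_left) (fun S' hS' => by
      obtain ⟨b1, b2⟩ := mem_filter.mp hS'
      obtain ⟨b3, b4, b5⟩ := h3 S' (q1 b1)
      refine ⟨b3, b4, disjoint_union_right.mpr ⟨b5, disjoint_left.mpr fun v c d => ?_⟩⟩
      exact disjoint_left.mp b2 c (mem_inter.mpr ⟨d,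
        mem_biUnion.mpr ⟨S', b1, sub_nb (pl.sub S' (h1 (q1 b1))) c⟩⟩)) (by omega)
  have j5 : J ⊆ QQ := j1.trans (filter_subset _ _)
  have t1 : τ ⊆ Wf S ∩ B := subset_inter (w1 ▸ inter_subset_left) h2
  have c1 := w.up2 (Wf S ∩ B) inter_subset_left (w1 ▸ t1) (w2.symm.mono_left inter_subset_right)
  have c2 := Fz_sub (G := G) B (Wf S)
  rw [inter_comm] at c2
  have c3 := i0 (Wf S ∩ B) (inter_subset_left.trans w.sub) (hτ.mono t1)
  have j6 : ∀ S' ∈ J, Wf S' ∩ B ⊆ Z := fun S' h =>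
    (inter_subset_inter_left subset_union_left).trans (j3 S' h)
  by_cases c : sg G X (Wf S ∩ B) ≤ 0
  · have c4 := hZ _ (inter_subset_left.trans w.sub) t1 c
    have j7 : ∀ S' ∈ J, Wf S' ∩ Wf S ⊆ Z := fun S' h =>
      (inter_subset_inter_left subset_union_right).trans (j3 S' h)
    refine ⟨insert S J, insert_subset s3 (j5.trans q1), ?_, ?_, ?_⟩
    · rw [card_insert_of_notMem fun k => s4 (j5 k)]
      push_cast
      omega
    · intro S' h
      rcases mem_insert.mp h with rfl | h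
      · exact c4
      · exact j6 S' h
    · intro S1 h S2 h' k
      rcases mem_insert.mp h with a | a <;> rcases mem_insert.mp h' with a' | a'
      · exact absurd (a.trans a'.symm) k
      · rw [a, inter_comm]
        exact j7 S2 a'
      · rw [a']
        exact j7 S1 a
      · exact j4 S1 a S2 a' k
  · exact ⟨J, j5.trans q1, by push_cast; omega, j6, j4⟩

theorem sbadE (n m : ℕ) : ∃ B : ℕ, B = sB n m ∧ ∀ {V E : Type} [Fintype V] [Fintype E] (G : MG V E), NA G →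
    ∀ (Y X : Finset V) (PP : Finset (Finset V)) (s : ℤ), Pl G Y X PP → 1 ≤ m → 1 ≤ s →
      (nb G Y X).card ≤ n → (∀ C ⊆ Y, C.Nonempty → 0 ≤ sg G X C) →
      (∀ C ⊆ Y, m ≤ (C ∩ PP.biUnion (nb G Y)).card → s ≤ sg G X C) →
      (∀ S ∈ PP, ∃ C ⊆ Y, C.Nonempty ∧ sg G (X ∪ S) C ≤ -1) → PP.card ≤ B := by
  obtain ⟨t, t0, pb⟩ := petalsE (2 * n) m
  obtain ⟨b, b0, sq⟩ := seqJE n m (t + 6 * n + m + 1)
  refine ⟨n + 2 ^ n * (b + 1), by rw [b0, t0]; rfl, fun G na Y X PP s pl hm hs hn i0 i1 bad => ?_⟩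
  by_contra hc
  set N := ∅ ∪ nb G Y X with hN
  have hN' : N = nb G Y X := empty_union _
  have pd : ∀ S ∈ PP, ∀ S' ∈ PP, S ≠ S' → Disjoint S S' := fun S a S' b c => (pl.far S a S' b c).dj
  have a1 := few_meet (PP := PP) (R := N) pd
  have a2 := card_filter_add_card_filter_not (s := PP) (fun S => Disjoint S N)
  set P1 := PP.filter (fun S => Disjoint S N) with hP1
  have ex : ∀ S ∈ P1, ∃ W, MinV G Y X S ∅ 0 (-1) W := fun S hS => by
    obtain ⟨b1, b2⟩ := mem_filter.mp hS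
    obtain ⟨C, c1, c2, c3⟩ := bad S b1
    exact exists_minV na pl.hX (pl.sh S b1) (pl.farX S b1) b2
      (fun C a k _ => by have := i0 C a k; omega) ⟨C, c1, c2, Nat.zero_le _, c3⟩
  choose! Wf hW using ex
  have nc : N.card ≤ n := hN' ▸ hn
  obtain ⟨τ, t0, hy⟩ := exists_le_card_fiber_of_mul_le_card_of_maps_to (s := P1)
    (t := N.powerset) (f := fun S => Wf S ∩ N) (n := b + 1)
    (fun S _ => mem_powerset.mpr inter_subset_right) ⟨∅, by simp⟩ (by
      rw [card_powerset]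
      have := Nat.mul_le_mul_right (b + 1) (Nat.pow_le_pow_right (n := 2) (by omega) nc)
      omega)
  rw [mem_powerset] at t0
  set FF := P1.filter (fun S => Wf S ∩ N = τ) with hFF
  have ff : ∀ S ∈ FF, S ∈ PP ∧ MinV G Y X S ∅ 0 (-1) (Wf S) ∧ Wf S ∩ N = τ ∧ Disjoint S τ :=
    fun S hS => ⟨(mem_filter.mp (mem_filter.mp hS).1).1, hW S (mem_filter.mp hS).1,
      (mem_filter.mp hS).2, (mem_filter.mp (mem_filter.mp hS).1).2.mono_right t0⟩
  have hτ : τ.Nonempty := by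
    obtain ⟨S, hS⟩ : FF.Nonempty := card_pos.mp (by omega)
    obtain ⟨b1, w, b2, -⟩ := ff S hS
    by_contra k
    rw [not_nonempty_iff_eq_empty] at k
    have c1 : Wf S \ (X ∪ S) = ∅ := eq_empty_of_forall_notMem fun v hv => by
      obtain ⟨a, c1, c2, -⟩ := w.anch v hv
      have : a ∈ τ := b2 ▸ mem_inter.mpr ⟨(mem_sdiff.mp c2).1, c1⟩
      simp [k] at this
    have c2 : Wf S ∩ X = ∅ := eq_empty_of_forall_notMem fun v hv => by
      have : v ∈ τ := b2 ▸ mem_inter.mpr ⟨(mem_inter.mp hv).1,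
        mem_union_right _ (sub_nb pl.hX (mem_inter.mp hv).2)⟩
      simp [k] at this
    have c3 := w.vio
    rw [sg_item (pl.sh S b1) (pl.farX S b1) w.meet, c1, c2, cp_empty] at c3
    have := na.F0 (w.meet.mono inter_subset_left)
    omega
  have f1 := F_le_card (G := G) τ
  have f2 := (card_le_card t0).trans nc
  have run := fun Z hZ => sq G na Y X τ Z PP s Wf pl hm hs hn i0 i1 hτ hZ τ FF
    (fun S hS => (ff S hS).1) Subset.rfl (fun S hS => (ff S hS).2) (by omega)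
  obtain ⟨Z0, z0⟩ : ∃ C, C ⊆ Y ∧ τ ⊆ C ∧ sg G X C ≤ 0 := by
    by_contra k
    obtain ⟨J, j1, j2, j3, -⟩ := run ∅ fun C a b c => absurd ⟨C, a, b, c⟩ k
    obtain ⟨S, hS⟩ : J.Nonempty := card_pos.mp (by push_cast at j2; omega)
    obtain ⟨v, hv⟩ := hτ
    have := j3 S hS (mem_inter.mpr ⟨(mem_inter.mp ((ff S (j1 hS)).2.2.1 ▸ hv)).1, hv⟩)
    simp at this
  obtain ⟨Z, ⟨z1, z2, z3⟩, z4⟩ := exists_top (p := fun C => C ⊆ Y ∧ τ ⊆ C ∧ sg G X C ≤ 0)
    (fun A B ⟨x1, x2, x3⟩ ⟨y1, y2, y3⟩ => ⟨union_subset x1 y1, x2.trans subset_union_left, by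
      have := sg_sub (G := G) X A B
      have := i0 (A ∩ B) (inter_subset_left.trans x1) (hτ.mono (subset_inter x2 y2))
      omega⟩) z0
  have top : ∀ C ⊆ Y, τ ⊆ C → sg G X C ≤ 0 → C ⊆ Z := fun C a b c => z4 C ⟨a, b, c⟩
  obtain ⟨J, j1, j2, -, j4⟩ := run Z top
  have zF := tight_F na pl.hX i0 hτ (hN' ▸ t0) z1 z2 z3
  set R := Z ∩ PP.biUnion (nb G Y) with hR
  have rc : R.card < m := by
    by_contra k
    have := i1 Z z1 (not_lt.mp k)
    omega
  have jp : J ⊆ PP := fun S hS => (ff S (j1 hS)).1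
  have g1 := few_meet (PP := J) (R := R) fun S a S' b => pd S (jp a) S' (jp b)
  have g2 := card_filter_add_card_filter_not (s := J) (fun S => Disjoint S R)
  set J1 := J.filter (fun S => Disjoint S R) with hJ1
  have jj : J1 ⊆ J := filter_subset _ _
  have dZ : ∀ S ∈ J1, Disjoint S Z := fun S hS => disjoint_left.mpr fun v a c =>
    disjoint_left.mp (mem_filter.mp hS).2 a (mem_inter.mpr ⟨c,
      mem_biUnion.mpr ⟨S, jp (jj hS), sub_nb (pl.sub S (jp (jj hS))) a⟩⟩)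
  have dP : ∀ S ∈ J1, ∀ S' ∈ J1, S ≠ S' → Disjoint (Wf S \ Z) (Wf S' \ Z) :=
    fun S a S' c k => disjoint_left.mpr fun v x y => (mem_sdiff.mp x).2
      (j4 S (jj a) S' (jj c) k (mem_inter.mpr ⟨(mem_sdiff.mp x).1, (mem_sdiff.mp y).1⟩))
  have ex : ∀ S ∈ J1, ∃ Q ⊆ Wf S \ Z, Q.Nonempty ∧ Fz G (Q ∪ Z) ≤ Fz G Z ∧
      ∀ Q' ⊆ Q, Q'.Nonempty → Q' ≠ Q → Fz G Z + 1 ≤ Fz G (Q' ∪ Z) := fun S hS => by
    obtain ⟨-, w, b2, -⟩ := ff S (j1 (jj hS))
    have t1 : τ ⊆ Wf S ∩ Z := subset_inter (b2 ▸ inter_subset_left) z2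
    refine exists_pt sdiff_disjoint (w.meet.mono (subset_sdiff.mpr ⟨inter_subset_left,
      (dZ S hS).mono_left inter_subset_right⟩)) ?_
    have c1 := w.up2 (Wf S ∩ Z) inter_subset_left (b2 ▸ t1)
      ((dZ S hS).symm.mono_left inter_subset_right)
    have c2 := Fz_sub (G := G) (Wf S) Z
    have c3 := i0 (Wf S ∩ Z) (inter_subset_right.trans z1) (hτ.mono t1)
    rw [sdiff_union_self_eq_union]
    omega
  choose! Q q1 q2 q3 q4 using ex
  have dQ : ∀ S ∈ J1, ∀ S' ∈ J1, S ≠ S' → Disjoint (Q S) (Q S') :=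
    fun S a S' c k => (dP S a S' c k).mono (q1 S a) (q1 S' c)
  have zn := hτ.mono z2
  set J2 := J1.filter (fun S => Fz G (Wf S \ Z ∪ Z) + 1 ≤ Fz G Z) with hJ2
  set J3 := J1.filter (fun S => Fz G (Q S ∪ Z) + 1 ≤ Fz G Z) with hJ3
  have g3 := neg_count na zn (fun S => Wf S \ Z) J2
    (fun S a S' c => dP S (mem_filter.mp a).1 S' (mem_filter.mp c).1) fun S a => (mem_filter.mp a).2
  have g4 := neg_count na zn Q J3
    (fun S a S' c => dQ S (mem_filter.mp a).1 S' (mem_filter.mp c).1) fun S a => (mem_filter.mp a).2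
  have g5 := le_card_sdiff (J2 ∪ J3) J1
  have g6 := card_union_le J2 J3
  have j4' : ∀ S ∈ J1 \ (J2 ∪ J3), S ∈ J1 ∧ Fz G Z ≤ Fz G (Wf S \ Z ∪ Z) ∧ Pt G Z (Q S) := by
    intro S hS
    obtain ⟨a, c⟩ := mem_sdiff.mp hS
    have c1 : ¬ Fz G (Wf S \ Z ∪ Z) + 1 ≤ Fz G Z :=
      fun k => c (mem_union_left _ (mem_filter.mpr ⟨a, k⟩))
    have c2 : ¬ Fz G (Q S ∪ Z) + 1 ≤ Fz G Z :=
      fun k => c (mem_union_right _ (mem_filter.mpr ⟨a, k⟩))
    have c3 := q3 S a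
    exact ⟨a, by omega, sdiff_disjoint.mono_left (q1 S a), q2 S a, by omega, q4 S a⟩
  have g7 := pb G na Z R ((J1 \ (J2 ∪ J3)).image Q) zn (by push_cast; omega) rc.le
    (fun P hP => by
      obtain ⟨S, hS, rfl⟩ := mem_image.mp hP
      exact (j4' S hS).2.2)
    (fun v hv => by
      obtain ⟨S, hS, e⟩ := mem_image.mp hv
      obtain ⟨a, c, p⟩ := j4' S hS
      obtain ⟨b1, w, b2, -⟩ := ff S (j1 (jj a))
      have c1 := neutral_meets (pl.sh S b1) (pl.farX S b1) i0 w pl.hX b2 hτ z1 z2 z3 top (dZ S a) c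
        (q1 S a) p.ne p.h0.le
      rw [e] at c1 p
      have c2 : v ∈ S := by simpa using c1
      have c3 := p.h0
      rw [← insert_eq, F_insert na.gi.np (by simpa using p.dj)] at c3
      refine le_trans (show 2 ≤ dg G v Z by omega) (card_le_card fun x hx => ?_)
      obtain ⟨x1, x2⟩ := mem_filter.mp hx
      exact mem_filter.mpr ⟨mem_inter.mpr ⟨x1, mem_biUnion.mpr ⟨S, b1,
        mem_nb.mpr ⟨z1 x1, Or.inr ⟨v, c2, x2⟩⟩⟩⟩, x2⟩)
    (fun P hP P' hP' k => by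
      obtain ⟨S, hS, rfl⟩ := mem_image.mp hP
      obtain ⟨S', hS', rfl⟩ := mem_image.mp hP'
      exact dQ S (j4' S hS).1 S' (j4' S' hS').1 fun e => k (e ▸ rfl))
  rw [card_image_of_injOn fun S hS S' hS' e => by
    by_contra k
    have := dQ S (j4' S hS).1 S' (j4' S' hS').1 k
    rw [e, disjoint_self_iff_empty] at this
    exact (j4' S' hS').2.2.ne.ne_empty this] at g7
  push_cast at j2
  omega

theorem poolE (b M : ℕ) : ∃ k : ℕ, k = pL b M ∧ ∀ {V E : Type} [Fintype V] [Fintype E] (G : MG V E), NA G →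
    (∀ A : Finset V, Fz G A ≤ 3 → A.card ≤ 10) → ∀ (Y B : Finset V) (u : V → ZMod 2), B.card ≤ b →
      (∀ v ∈ Y, v ∉ B → 3 ≤ dg G v Y) → k ≤ Y.card →
      ∃ PP : Finset (Finset V), PP.card = M ∧ Pl G Y ∅ PP ∧ ∀ S ∈ PP, Ev G u S := by
  induction M with
  | zero =>
    exact ⟨0, rfl, fun G na f3 Y B u _ _ _ => ⟨∅, rfl, ⟨empty_subset _, by simp, by simp, by simp,
      by simp, by simp, by simp⟩, by simp⟩⟩
  | succ M ih =>
  obtain ⟨k, k0, ih⟩ := ih
  refine ⟨k + 33 * (b + M * 14 + M * 1960) + 1, k0 ▸ rfl, fun G na f3 Y B u hb h3 hk => ?_⟩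
  obtain ⟨PP, p1, pl, ev⟩ := ih G na f3 Y B u hb h3 (by omega)
  choose! T t1 t2 using fun S (hS : S ∈ PP) => blk na f3 (pl.sh S hS) (pl.low S hS)
  have c1 := card_biUnion_le_card_mul PP (nb G Y) 14 pl.low
  have c2 := card_biUnion_le_card_mul PP T 1960 t1
  have c3 := card_union_le (B ∪ PP.biUnion (nb G Y)) (PP.biUnion T)
  have c4 := card_union_le B (PP.biUnion (nb G Y))
  rw [p1] at c1 c2
  obtain ⟨x, x1, y, y1, j, x2, y2, x3, y3⟩ := low_edge na.gi.np (Y := Y)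
    (B := B ∪ PP.biUnion (nb G Y) ∪ PP.biUnion T)
    (by have := na.F0 (card_pos.mp (show 0 < Y.card by omega)); omega)
    (fun v hv k => h3 v hv fun c => k (mem_union_left _ (mem_union_left _ c))) (by omega)
  obtain ⟨S, s1, sh, s2⟩ := exists_item u j
  have s3 : ∀ v ∈ S, v ∈ Y ∧ v ∉ B ∪ PP.biUnion (nb G Y) ∪ PP.biUnion T := fun v hv => by
    rcases mem_insert.mp (s1 hv) with rfl | k
    · exact ⟨x1, x2⟩
    · rw [mem_singleton.mp k]
      exact ⟨y1, y2⟩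
  have s4 : ∀ S' ∈ PP, FarG G S' S := fun S' h => by
    have : ∀ v ∈ S, v ∉ nb G Y S' := fun v hv k => (s3 v hv).2
      (mem_union_left _ (mem_union_right _ (mem_biUnion.mpr ⟨S', h, k⟩)))
    exact ⟨disjoint_right.mpr fun v hv k => this v hv (mem_nb.mpr ⟨(s3 v hv).1, Or.inl k⟩),
      fun a ha v hv k => this v hv (mem_nb.mpr ⟨(s3 v hv).1, Or.inr ⟨a, ha, k⟩⟩)⟩
  have s5 : S ∉ PP := fun k => sh.ne.ne_empty ((disjoint_self_iff_empty S).mp (s4 S k).dj)
  have s6 : ∀ S' ∈ PP, S'.card = 2 → S.card = 2 → ∀ A ⊆ Y, S' ∪ S ⊆ A → 4 ≤ Fz G A := by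
    intro S' h e1 e2 A hA k
    by_contra c
    have a1 := (s4 S' h).F
    have a2 := (na.F_ge S').2.1 e1.ge
    have a3 := (na.F_ge S).2.1 e2.ge
    have a4 := card_union_of_disjoint (s4 S' h).dj
    have a5 : 5 ≤ A.card := by
      by_contra d
      rw [← eq_of_subset_of_card_le k (by omega)] at c
      omega
    obtain ⟨v, hv⟩ := sh.ne
    exact (s3 v hv).2 (mem_union_right _ (mem_biUnion.mpr ⟨S', h, t2 S' h A hA
      (subset_union_left.trans k) e1 (by omega) a5 (k (mem_union_right _ hv))⟩))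
  have s7 : (nb G Y S).card ≤ 14 := by
    have : nb G Y S ⊆ insert x (insert y (Y.filter (Adj G x) ∪ Y.filter (Adj G y))) := by
      intro v hv
      obtain ⟨a, c | ⟨z, c, d⟩⟩ := mem_nb.mp hv
      · have := s1 c
        simp only [mem_insert, mem_singleton] at this ⊢
        tauto
      · have := s1 c
        simp only [mem_insert, mem_singleton, mem_union, mem_filter] at this ⊢
        rcases this with rfl | rfl <;> tauto
    have a := (card_le_card this).trans ((card_insert_le _ _).trans (Nat.add_le_add_right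
      ((card_insert_le _ _).trans (Nat.add_le_add_right (card_union_le _ _) 1)) 1))
    unfold dg at x3 y3
    omega
  refine ⟨insert S PP, by rw [card_insert_of_notMem s5, p1], ⟨empty_subset _,
    (forall_mem_insert _ _ _).mpr ⟨sh, pl.sh⟩,
    (forall_mem_insert _ _ _).mpr ⟨fun v hv => (s3 v hv).1, pl.sub⟩,
    (forall_mem_insert _ _ _).mpr ⟨s7, pl.low⟩,
    fun S' _ => ⟨disjoint_empty_right _, fun a _ b hb => absurd hb (notMem_empty _)⟩, ?_, ?_⟩,
    (forall_mem_insert _ _ _).mpr ⟨s2, ev⟩⟩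
  · intro S1 h S2 h' n
    rcases mem_insert.mp h with a | a <;> rcases mem_insert.mp h' with a' | a'
    · exact absurd (a.trans a'.symm) n
    · exact a ▸ (s4 S2 a').symm
    · exact a' ▸ s4 S1 a
    · exact pl.far S1 a S2 a' n
  · intro S1 h S2 h' n e1 e2 A hA k
    rcases mem_insert.mp h with a | a <;> rcases mem_insert.mp h' with a' | a'
    · exact absurd (a.trans a'.symm) n
    · exact s6 S2 a' e2 (a ▸ e1) A hA (by rwa [union_comm, ← a])
    · exact s6 S1 a e1 (a' ▸ e2) A hA (by rwa [← a'])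
    · exact pl.pf S1 a S2 a' n e1 e2 A hA k

theorem caseBE (f k j z : ℕ) : ∃ N : ℕ, N = cB f k j z ∧ ∀ {V E : Type} [Fintype V] [Fintype E] (G : MG V E), NA G →
    ∀ (Z B A : Finset V), B.Nonempty → (∀ C, B ⊆ C → (f : ℤ) ≤ Fz G C) → B ⊆ A → A ⊆ Z →
      Fz G A ≤ f → A.card ≤ z →
      (∀ v ∈ Z, ∃ C ⊆ Z, B ⊆ C ∧ v ∈ C ∧ Fz G C ≤ f ∧ C.card ≤ k ∧ (C \ A).card ≤ j) →
      Z.card ≤ N := by
  induction j generalizing z with
  | zero =>
    refine ⟨z, rfl, fun G na Z B A _ _ _ _ _ hz h => le_trans (card_le_card fun v hv => ?_) hz⟩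
    obtain ⟨C, -, -, c1, -, -, c2⟩ := h v hv
    exact sdiff_eq_empty_iff_subset.mp (card_eq_zero.mp (by omega)) c1
  | succ j ih =>
  obtain ⟨t, t0, pb⟩ := petalsE f z
  obtain ⟨N, N0, ih⟩ := ih (z + t * k)
  refine ⟨N, by rw [N0, t0]; rfl, fun G na Z B A hB hf h1 h2 h3 hz h => ?_⟩
  set QQ := Z.powerset.filter (fun P => Pt G A P ∧ P.card ≤ k) with hQ
  have mq : ∀ P, P ∈ QQ ↔ P ⊆ Z ∧ Pt G A P ∧ P.card ≤ k := fun P => by simp [hQ]
  have up : ∀ C, (f : ℤ) ≤ Fz G (C ∪ A) := fun C => hf _ (h1.trans subset_union_right)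
  have fa := hf A h1
  have q1 := pb G na A A QQ (hB.mono h1) h3 hz (fun P hP => ((mq P).mp hP).2.1) (fun v hv => by
      have p := ((mq _).mp hv).2.1
      have c3 := p.h0
      rw [← insert_eq, F_insert na.gi.np (by simpa using p.dj)] at c3
      omega)
    (fun P hP P' hP' n => by
      have p := ((mq _).mp hP).2.1
      have p' := ((mq _).mp hP').2.1
      by_contra c
      have ne := not_disjoint_iff_nonempty_inter.mp c
      have a1 := Fz_sub (G := G) (P ∪ A) (P' ∪ A)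
      rw [← union_union_distrib_right, ← inter_union_distrib_right] at a1
      have a2 := up (P ∪ P')
      have a3 := p.h0
      have a4 := p'.h0
      have a5 : P ∩ P' = P := by
        by_contra d
        have := p.h1 _ inter_subset_left ne d
        omega
      have a6 : P ∩ P' = P' := by
        by_contra d
        have := p'.h1 _ inter_subset_right ne d
        omega
      exact n (a5.symm.trans a6))
  have q2 : ∀ J ⊆ QQ, Fz G (J.biUnion id ∪ A) ≤ f := by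
    intro J
    induction J using Finset.induction_on with
    | empty => simpa using h3
    | insert P J _ ih' =>
      intro hJ
      have a1 := ih' ((subset_insert _ _).trans hJ)
      have a2 := ((mq P).mp (hJ (mem_insert_self _ _))).2.1.h0
      have a3 := Fz_sub (G := G) (P ∪ A) (J.biUnion id ∪ A)
      rw [← union_union_distrib_right, ← inter_union_distrib_right] at a3
      have a4 := up (P ∩ J.biUnion id)
      rw [biUnion_insert, id]
      omega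
  have q3 := card_biUnion_le_card_mul QQ id k fun P hP => ((mq P).mp hP).2.2
  have q4 := card_union_le (QQ.biUnion id) A
  have q5 := Nat.mul_le_mul_right k q1
  refine ih G na Z B (QQ.biUnion id ∪ A) hB hf (h1.trans subset_union_right)
    (union_subset (biUnion_subset.mpr fun P hP => ((mq P).mp hP).1) h2) (q2 QQ Subset.rfl)
    (by omega) fun v hv => ?_
  obtain ⟨C, c1, c2, c3, c4, c5, c6⟩ := h v hv
  refine ⟨C, c1, c2, c3, c4, c5, ?_⟩
  have d1 : C \ (QQ.biUnion id ∪ A) ⊆ C \ A := sdiff_subset_sdiff Subset.rfl subset_union_right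
  rcases (C \ A).eq_empty_or_nonempty with e | e
  · rw [e] at d1
    simp [subset_empty.mp d1]
  obtain ⟨Q, r1, r2, r3, r4⟩ := exists_pt (G := G) (Z := A) sdiff_disjoint e (by
    have a1 := Fz_sub (G := G) C A
    have a2 := hf (C ∩ A) (subset_inter c2 h1)
    rw [sdiff_union_self_eq_union]
    omega)
  have r5 : Q ∈ QQ := (mq Q).mpr ⟨r1.trans (sdiff_subset.trans c1),
    ⟨sdiff_disjoint.mono_left r1, r2, by have := up Q; omega, r4⟩,
    (card_le_card (r1.trans sdiff_subset)).trans c5⟩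
  obtain ⟨w, hw⟩ := r2
  have := card_lt_card (ssubset_iff_of_subset d1 |>.mpr ⟨w, r1 hw, fun c => (mem_sdiff.mp c).2
    (mem_union_left _ (mem_biUnion.mpr ⟨Q, r5, hw⟩))⟩)
  omega

theorem iterE (m : ℕ) (hm : 1 ≤ m) (n s : ℕ) : ∃ M : ℕ, M = iT m n s ∧
    ∀ {V E : Type} [Fintype V] [Fintype E] (G : MG V E), NA G →
    ∀ (Y X : Finset V) (PP : Finset (Finset V)) (β : V → K), (∀ v, v ∉ Y → β v = 0) →
      ∑ v, β v = 0 → Pl G Y X PP → (nb G Y X).card + 14 * s ≤ n → M ≤ PP.card →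
      (∀ C ⊆ Y, C.Nonempty → 0 ≤ sg G X C) →
      (∀ C ⊆ Y, m ≤ (C ∩ PP.biUnion (nb G Y)).card → (s : ℤ) ≤ sg G X C) →
      Fz G Y + ein G X ≤ X.card + s → Ev G (UU (sub G Y) β .k1) X →
      (∀ S ∈ PP, Ev G (UU (sub G Y) β .k1) S) → Feas (sub G Y) β := by
  induction s with
  | zero =>
    refine ⟨1, rfl, fun G na Y X PP β b1 b2 pl _ hM i0 _ ht ev _ => ?_⟩
    obtain ⟨S, hS⟩ := card_pos.mp hM
    exact feas_items b1 b2 pl.hX ((pl.sh S hS).ne.mono
      (subset_sdiff.mpr ⟨pl.sub S hS, (pl.farX S hS).dj⟩)) i0 (by simpa using ht) ev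
  | succ s ih =>
  obtain ⟨M, M0, ih⟩ := ih
  obtain ⟨Be, B0, eb⟩ := ebadE (M * 14 + n)
  obtain ⟨Bs, B1, sb⟩ := sbadE n m
  refine ⟨M + Be + Bs + 1, by rw [B0, B1, M0]; rfl, fun G na Y X PP β b1 b2 pl hn hM i0 i1 ht ev ev' => ?_⟩
  obtain ⟨QQ, q1, q2⟩ := exists_subset_card_eq (s := PP) (n := M) (by omega)
  set N0 := QQ.biUnion (nb G Y) with hN0
  have n1 : N0.card ≤ M * 14 := q2 ▸ card_biUnion_le_card_mul _ _ _ fun S hS => pl.low S (q1 hS)
  have i2 : ∀ RR ⊆ PP, ∀ C ⊆ Y, m ≤ (C ∩ RR.biUnion (nb G Y)).card → ((s + 1 : ℕ) : ℤ) ≤ sg G X C :=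
    fun RR h C c1 c2 => i1 C c1 (c2.trans (card_le_card
      (inter_subset_inter_left (biUnion_subset_biUnion_of_subset_left _ h))))
  set P1 := PP.filter (fun S => ∃ C ⊆ Y, m ≤ (C ∩ N0).card ∧
    sg G (X ∪ S) C ≤ ((s + 1 : ℕ) : ℤ) - 2) with hP1
  set P2 := PP.filter (fun S => ∃ C ⊆ Y, C.Nonempty ∧ sg G (X ∪ S) C ≤ -1) with hP2
  have a1 := eb G na Y X N0 P1 m _ (pl.mono (filter_subset _ _)) hm
    ((card_union_le _ _).trans (by omega)) (i2 QQ q1) fun S hS => (mem_filter.mp hS).2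
  have a2 := sb G na Y X P2 _ (pl.mono (filter_subset _ _)) hm (by push_cast; omega) (by omega) i0
    (i2 P2 (filter_subset _ _)) fun S hS => (mem_filter.mp hS).2
  obtain ⟨S, s1, s2⟩ := exists_mem_notMem_of_card_lt_card (s := QQ ∪ (P1 ∪ P2)) (t := PP) (by
    have := card_union_le QQ (P1 ∪ P2)
    have := card_union_le P1 P2
    omega)
  simp only [mem_union, not_or] at s2
  obtain ⟨s2, s3, s4⟩ := s2
  have far := pl.farX S s1
  refine ih G na Y (X ∪ S) QQ β b1 b2 ⟨union_subset pl.hX (pl.sub S s1), (pl.mono q1).sh,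
    (pl.mono q1).sub, (pl.mono q1).low, fun S' h => (pl.farX S' (q1 h)).union
      (pl.far S' (q1 h) S s1 fun e => s2 (e ▸ h)), (pl.mono q1).far, (pl.mono q1).pf⟩
    (by
      have a := (card_le_card (nb_union (G := G) (Y := Y) (A := X) (B := S))).trans (card_union_le _ _)
      have b := pl.low S s1
      omega)
    q2.ge (fun C c1 c2 => ?_) (fun C c1 c2 => ?_) ?_ (ev.union far.dj.symm (ev' S s1))
    fun S' h => ev' S' (q1 h)
  · by_contra k
    exact s4 (mem_filter.mpr ⟨s1, C, c1, c2, by omega⟩)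
  · by_contra k
    exact s3 (mem_filter.mpr ⟨s1, C, c1, c2, by push_cast; omega⟩)
  · have e1 := far.symm.F
    have e2 := card_union_of_disjoint far.dj.symm
    have e3 := na.F_ge S
    have e4 := (pl.sh S s1).card_le
    have e5 := card_pos.mpr (pl.sh S s1).ne
    unfold Fz at *
    push_cast at ht
    omega

theorem caseAE (f D b : ℕ) : ∃ k : ℕ, k = cA f D b ∧ ∀ {V E : Type} [Fintype V] [Fintype E] (G : MG V E), NA G →
    (∀ A : Finset V, Fz G A + 1 ≤ f → A.card ≤ D) → ∀ (Y B : Finset V), B.card ≤ b → Fz G Y ≤ f →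
      (∀ v ∈ Y, v ∉ B → 3 ≤ dg G v Y) → Y.card ≤ k := by
  obtain ⟨M, M0, it⟩ := iterE (D * f + 1) (by omega) (14 * f) f
  obtain ⟨k, k0, pl⟩ := poolE b M
  refine ⟨k + 1, by rw [k0, M0]; rfl, fun G na hD Y B hb hf h3 => ?_⟩
  by_contra c
  refine na.na Y ⟨by omega, fun β b1 b2 => ?_⟩
  obtain ⟨PP, p1, p2, p3⟩ := pl G na na.fin3 Y B (UU (sub G Y) β .k1) hb h3 (by omega)
  exact it G na Y ∅ PP β b1 b2 p2 (by simp [nb]) p1.ge (sg_empty fun A _ => na.F0)
    (fun C _ h => sg_init (fun A => na.F0) hD (h.trans (card_le_card inter_subset_left)))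
    (by simpa [ein_empty] using hf) (Ev.empty _) p3

theorem fin_coreE (f : ℕ) : ∃ N : ℕ, N = fN f ∧ ∀ {V E : Type} [Fintype V] [Fintype E] (G : MG V E), NA G →
    ∀ Z : Finset V, Fz G Z ≤ f → Z.card ≤ N := by
  induction f with
  | zero => exact ⟨10, rfl, fun G na Z h => na.fin3 Z (by push_cast at h; omega)⟩
  | succ f ih =>
  obtain ⟨D, D0, ih⟩ := ih
  obtain ⟨k, k0, ca⟩ := caseAE (f + 1) D (D + 2)
  obtain ⟨N, N0, cb⟩ := caseBE (f + 1) k k k
  refine ⟨D + N, by rw [N0, k0, D0]; rfl, fun G na Z h => ?_⟩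
  by_contra c
  obtain ⟨B, b1, b2⟩ := exists_subset_card_eq (s := Z) (n := D + 1) (by omega)
  have hD : ∀ A, Fz G A + 1 ≤ ((f + 1 : ℕ) : ℤ) → A.card ≤ D := fun A k =>
    ih G na A (by push_cast at k; omega)
  have key : ∀ v ∈ Z, ∃ C ⊆ Z, B ⊆ C ∧ v ∈ C ∧ Fz G C ≤ ((f + 1 : ℕ) : ℤ) ∧ C.card ≤ k := by
    intro v hv
    obtain ⟨C, c1, c2⟩ := exists_min_image (Z.powerset.filter
      (fun C => B ⊆ C ∧ v ∈ C ∧ Fz G C ≤ ((f + 1 : ℕ) : ℤ))) card
      ⟨Z, mem_filter.mpr ⟨mem_powerset_self _, b1, hv, h⟩⟩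
    simp only [mem_filter, mem_powerset] at c1 c2
    obtain ⟨c1, c3, c4, c5⟩ := c1
    refine ⟨C, c1, c3, c4, c5, ca G na hD C (insert v B) ((card_insert_le _ _).trans (by omega)) c5
      fun w hw k => ?_⟩
    rw [mem_insert, not_or] at k
    by_contra d
    have e1 := Fz_erase na.gi.np hw
    have e2 := c2 (C.erase w) ⟨(erase_subset _ _).trans c1, subset_erase.mpr ⟨c3, k.2⟩,
      mem_erase.mpr ⟨Ne.symm k.1, c4⟩, by omega⟩
    have e3 := card_erase_lt_of_mem hw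
    omega
  have ne : B.Nonempty := card_pos.mp (by omega)
  obtain ⟨v, hv⟩ := ne
  obtain ⟨A, a1, a2, -, a3, a4⟩ := key v (b1 hv)
  have := cb G na Z B A ⟨v, hv⟩ (fun C k => by
      by_contra d
      have := hD C (by omega)
      have := card_le_card k
      omega) a2 a1 a3 a4 fun w hw => by
    obtain ⟨C, c1, c2, c3, c4, c5⟩ := key w hw
    exact ⟨C, c1, c2, c3, c4, c5, (card_le_card sdiff_subset).trans c5⟩
  omega

open Pool.Agent.Lib.MP_aa6b05_co.D

theorem fin_eff : ∃ N : ℕ → ℕ, Primrec N ∧ ∀ (k : ℕ) (V E : Type) [Fintype V] [Fintype E] [DecidableEq V]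
    (s t : E → V), ¬ HasNZ4Flow s t →
    (∀ e, HasNZ4Flow (fun x => if s x = t e then s e else s x)
      (fun x => if t x = t e then s e else t x)) →
    2 * Fintype.card V ≤ Fintype.card E + k → Fintype.card V + Fintype.card E ≤ N k := by
  refine ⟨fun k => 3 * fN k, p_mul (Primrec.const 3) p_fN, fun k V E _ _ _ s t hf h3 h2 => ?_⟩
  obtain ⟨N, N0, hN⟩ := fin_coreE k
  show _ ≤ 3 * fN k
  rw [← N0]
  let G : MG V E := ⟨s, t⟩
  have hc : ¬ G.Col := fun h => hf h.flow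
  have h1 : ∀ e, s e ≠ t e := fun e c => hf (by
    have a : ∀ v, (if v = t e then s e else v) = v := fun v => by
      split_ifs with b
      · exact c.trans b.symm
      · rfl
    simpa only [a] using h3 e)
  have na : NA G := na_of_crit hc fun e _ => by
    obtain ⟨φ, p1, p2⟩ := col_of_flow (G := G.map fun v => if v = t e then s e else v) (h3 e)
    refine ⟨φ, p1, fun v hv => ?_⟩
    simp only [Set.mem_compl_iff, Set.mem_insert_iff, Set.mem_singleton_iff, not_or] at hv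
    rw [← df_map (fun v => if v = t e then s e else v) φ v fun u hu => ?_]
    · exact p2 _ trivial
    · rw [if_neg hv.2] at hu
      split_ifs at hu
      · exact absurd hu.symm hv.1
      · exact hu
  have a : eset G univ = univ := eq_univ_of_forall fun e => mem_eset.mpr ⟨h1 e, by simp⟩
  have b : Fz G univ = 2 * (Fintype.card V : ℤ) - 2 - Fintype.card E := by
    unfold Fz ein
    rw [a, card_univ, card_univ]
  have c := hN G na univ (by omega)
  have d := (na.F_ge univ).1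
  rw [card_univ] at c d
  rcases Nat.eq_zero_or_pos (Fintype.card V) with z | z
  · have : IsEmpty V := Fintype.card_eq_zero_iff.mp z
    have : IsEmpty E := ⟨fun e => IsEmpty.false (s e)⟩
    simp
  · have := d z
    omega

end

end Pool.Agent.Lib.CF64
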