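import Pool.Agent.Lib.CF53.FinPet

set_option linter.unusedSectionVars false
set_option linter.unusedVariables false
set_option linter.unusedSimpArgs false

namespace Pool.Agent.Lib.CF64

open Finset Pool.Agent.Lib.MP_aa6b05_co Pool.Agent.Lib.MP_aa6b05_co.MG

open scoped Classical

noncomputable section

variable {V E : Type} [Fintype V] [Fintype E] {G : MG V E}

def att (G : MG V E) (Z P : Finset V) : Finset V := Z.filter (fun z => ∃ x ∈ P, Adj G z x)

def nu (J : Finset (Finset V)) (u v : Finset V → V) (A : Finset V) : ℕ :=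
  (J.filter (fun P => u P ∈ A ∧ v P ∈ A)).card

variable {Z W P S X : Finset V} {J I QQ : Finset (Finset V)} {u v : Finset V → V}

theorem nu_super (A B : Finset V) :
    nu J u v A + nu J u v B ≤ nu J u v (A ∪ B) + nu J u v (A ∩ B) := by
  unfold nu
  rw [← card_union_add_card_inter]
  refine Nat.add_le_add (card_le_card fun P => ?_) (card_le_card fun P => ?_) <;>
    simp only [mem_union, mem_inter, mem_filter] <;> tauto

theorem greedy (na : NA G) {c t : ℕ} (pt : ∀ P ∈ QQ, Pt G Z P)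
    (ih : ∀ W ⊆ Z, W.Nonempty → Fz G W ≤ c → (QQ.filter (fun P => att G Z P ⊆ W)).card ≤ t)
    (big : c + c * t < QQ.card) (k : ℕ) (hk : k ≤ c + 1) : ∃ J ⊆ QQ, J.card = k ∧
      ∃ u v : Finset V → V, (∀ P ∈ J, u P ∈ att G Z P ∧ v P ∈ att G Z P ∧ u P ≠ v P) ∧
        ∀ A ⊆ Z, A.Nonempty → (nu J u v A : ℤ) ≤ Fz G A := by
  induction k with
  | zero =>
    obtain ⟨P, hP⟩ : QQ.Nonempty := card_pos.mp (by omega)
    obtain ⟨x, -⟩ := (pt P hP).ne
    exact ⟨∅, empty_subset _, rfl, fun _ => x, fun _ => x, by simp,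
      fun A _ h => by simpa [nu] using na.F0 h⟩
  | succ k ih' =>
  obtain ⟨J, j1, j2, u, v, j3, j4⟩ := ih' (by omega)
  have ex : ∀ z ∈ Z, ∃ T, (T ⊆ Z ∧ z ∈ T ∧ Fz G T ≤ nu J u v T) ∧
      ∀ B, (B ⊆ Z ∧ z ∈ B ∧ Fz G B ≤ nu J u v B) → B ⊆ T := fun z hz =>
    exists_top (A := {z}) (fun A B ⟨a1, a2, a3⟩ ⟨b1, b2, b3⟩ => ⟨union_subset a1 b1,
      mem_union_left _ a2, by
        have := Fz_sub (G := G) A B
        have := nu_super (J := J) (u := u) (v := v) A B
        have := j4 (A ∩ B) (inter_subset_left.trans a1) ⟨z, mem_inter.mpr ⟨a2, b2⟩⟩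
        omega⟩) ⟨singleton_subset_iff.mpr hz, mem_singleton_self _, by simp [Fz_single]⟩
  choose! T t1 t2 using ex
  have uz : ∀ P ∈ J, u P ∈ Z := fun P h => (mem_filter.mp (j3 P h).1).1
  have c1 := card_biUnion_le_card_mul J (fun P0 => QQ.filter (fun P => att G Z P ⊆ T (u P0))) t
    fun P0 h => by
      obtain ⟨a1, a2, a3⟩ := t1 _ (uz P0 h)
      have : nu J u v (T (u P0)) ≤ J.card := card_filter_le _ _
      exact ih _ a1 ⟨_, a2⟩ (by omega)
  obtain ⟨P, p1, p2⟩ := exists_mem_notMem_of_card_lt_card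
    (s := J ∪ J.biUnion (fun P0 => QQ.filter (fun P => att G Z P ⊆ T (u P0)))) (t := QQ) (by
      have := card_union_le J (J.biUnion (fun P0 => QQ.filter (fun P => att G Z P ⊆ T (u P0))))
      have := Nat.mul_le_mul_right t (show J.card ≤ c by omega)
      omega)
  rw [mem_union, not_or] at p2
  obtain ⟨a, a1, b, b1, n, a2, b2⟩ := (pt P p1).two na
  obtain ⟨w, w1, w2⟩ : ∃ w ∈ att G Z P, w ∉ T a := by
    by_contra c0
    push Not at c0
    obtain ⟨d1, d2, d3⟩ := t1 a a1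
    have d4 := (na.F_ge (T a)).2.1 (one_lt_card.mpr ⟨a, d2, b, c0 b (mem_filter.mpr ⟨b1, b2⟩), n⟩)
    obtain ⟨P0, h0⟩ : (J.filter (fun P => u P ∈ T a ∧ v P ∈ T a)).Nonempty :=
      card_pos.mp (by unfold nu at d3; omega)
    obtain ⟨h1, h2, -⟩ := mem_filter.mp h0
    exact p2.2 (mem_biUnion.mpr ⟨P0, h1, mem_filter.mpr ⟨p1,
      Subset.trans c0 (t2 _ (uz P0 h1) _ ⟨d1, h2, d3⟩)⟩⟩)
  have ne : ∀ Q ∈ J, Q ≠ P := fun Q h e => p2.1 (e ▸ h)
  refine ⟨insert P J, insert_subset p1 j1, by rw [card_insert_of_notMem p2.1, j2],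
    Function.update u P a, Function.update v P w, fun Q hQ => ?_, fun A hA hne => ?_⟩
  · rcases mem_insert.mp hQ with rfl | h
    · simp only [Function.update_self]
      exact ⟨mem_filter.mpr ⟨a1, a2⟩, w1, fun e => w2 (e ▸ (t1 a a1).2.1)⟩
    · simp only [Function.update_of_ne (ne Q h)]
      exact j3 Q h
  · have e1 : J.filter (fun Q => Function.update u P a Q ∈ A ∧ Function.update v P w Q ∈ A) =
        J.filter (fun Q => u Q ∈ A ∧ v Q ∈ A) :=
      filter_congr fun Q h => by simp only [Function.update_of_ne (ne Q h)]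
    have e2 := j4 A hA hne
    unfold nu at *
    rw [filter_insert, e1]
    split_ifs with h
    · simp only [Function.update_self] at h
      have e3 : ¬ Fz G A ≤ (J.filter (fun Q => u Q ∈ A ∧ v Q ∈ A)).card :=
        fun k => w2 (t2 a a1 A ⟨hA, h.1, k⟩ h.2)
      have := card_insert_le P (J.filter (fun Q => u Q ∈ A ∧ v Q ∈ A))
      omega
    · exact e2

/-- `G` with one virtual edge for every member of `J` -/
def vg (G : MG V E) (J : Finset (Finset V)) (u v : Finset V → V) : MG V (E ⊕ Finset V) where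
  s := Sum.elim G.s (fun P => if P ∈ J then u P else v P)
  t := Sum.elim G.t v

theorem vg_eset (h : ∀ P ∈ J, u P ≠ v P) (A : Finset V) : eset (vg G J u v) A =
    (eset G A).disjSum (J.filter (fun P => u P ∈ A ∧ v P ∈ A)) := by
  ext e
  rcases e with e | P
  · simp [mem_eset, vg]
  · by_cases k : P ∈ J
    · simp [mem_eset, vg, k, h P k]
    · simp [mem_eset, vg, k]

theorem vg_F (h : ∀ P ∈ J, u P ≠ v P) (A : Finset V) :
    Fz (vg G J u v) A = Fz G A - nu J u v A := by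
  unfold Fz ein nu
  rw [vg_eset h, card_disjSum]
  push_cast
  ring

/-- one of the two growing connected edge sets -/
structure Fs (G : MG V E) (Z : Finset V) (u v : Finset V → V) (par : V → ZMod 2) (W : Finset V)
    (I : Finset (Finset V)) (X : Finset V) (T M : Finset E) : Prop where
  hX : X ⊆ W
  hZ : Z ⊆ W \ X
  hT : T ⊆ eset G (W \ X)
  hM : M ⊆ eset G X
  ev : ∀ x ∈ X, G.df (ind M) x = par x
  con : ∀ g : V → ZMod 2, (∀ e ∈ T, g (G.s e) = g (G.t e)) → (∀ P ∈ I, g (u P) = g (v P)) →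
    ∀ a ∈ W \ X, ∀ b ∈ W \ X, g a = g b

variable {par par' : V → ZMod 2} {T M T' M' : Finset E} {X' : Finset V} {I' : Finset (Finset V)}

theorem Fs.sub (h : Fs G Z u v par W I X T M) : T ∪ M ⊆ eset G W :=
  union_subset (h.hT.trans (eset_mono sdiff_subset)) (h.hM.trans (eset_mono h.hX))

theorem Fs.root (h : Fs G Z u v par W I X T M) (ne : Z.Nonempty) (dj : Disjoint P W) (hS : S ⊆ P)
    {M1 E1 : Finset E} (m1 : M1 ⊆ eset G S) (ev : ∀ x ∈ S, G.df (ind M1) x = par x)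
    (e1 : E1 ⊆ eset G ((P \ S) ∪ Z))
    (r : ∀ (g : V → ZMod 2) (c : ZMod 2), (∀ e ∈ E1, g (G.s e) = g (G.t e)) → (∀ z ∈ Z, g z = c) →
      ∀ x ∈ P \ S, g x = c) : Fs G Z u v par (W ∪ P) I (X ∪ S) (T ∪ E1) (M ∪ M1) := by
  have e : (W ∪ P) \ (X ∪ S) = (W \ X) ∪ (P \ S) := by
    ext x
    have := @disjoint_left.mp dj x
    have := @hS x
    have := @h.hX x
    simp only [mem_sdiff, mem_union]
    tauto
  refine ⟨union_subset_union h.hX hS, e ▸ h.hZ.trans subset_union_left,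
    e ▸ union_subset (h.hT.trans (eset_mono subset_union_left)) (e1.trans (eset_mono
      (union_subset subset_union_right (h.hZ.trans subset_union_left)))),
    union_subset (h.hM.trans (eset_mono subset_union_left))
      (m1.trans (eset_mono subset_union_right)),
    df_ind_union (dj.symm.mono h.hX hS) h.hM m1 h.ev ev, fun g g1 g2 => ?_⟩
  obtain ⟨z, hz⟩ := ne
  have a1 := h.con g (fun e he => g1 e (mem_union_left _ he)) g2
  have a2 := r g (g z) (fun e he => g1 e (mem_union_right _ he))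
    fun y hy => a1 y (h.hZ hy) z (h.hZ hz)
  have a3 : ∀ a ∈ (W \ X) ∪ (P \ S), g a = g z := fun a ha =>
    (mem_union.mp ha).elim (fun k => a1 a k z (h.hZ hz)) (a2 a)
  rw [e]
  exact fun a ha b hb => (a3 a ha).trans (a3 b hb).symm

theorem Fs.link (h : Fs G Z u v par W I X T M) (dj : Disjoint P W) (hu : u P ∈ Z) (hv : v P ∈ Z)
    (n : u P ≠ v P) : ∃ A ⊆ Z, u P ∈ A ∧ v P ∉ A ∧ ∀ E2 ⊆ eset G (P ∪ Z),
      (∀ (g : V → ZMod 2) (c c' : ZMod 2), (∀ e ∈ E2, g (G.s e) = g (G.t e)) → (∀ z ∈ A, g z = c) →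
        (∀ z ∈ Z, z ∉ A → g z = c') → c = c' ∧ ∀ x ∈ P, g x = c) →
      Fs G Z u v par (W ∪ P) (I.erase P) X (T ∪ E2) M := by
  have e : (W ∪ P) \ X = (W \ X) ∪ P := by
    ext x
    have := @disjoint_left.mp dj x
    have := @h.hX x
    simp only [mem_sdiff, mem_union]
    tauto
  have ful : ∀ g : V → ZMod 2, (∀ e ∈ T, g (G.s e) = g (G.t e)) →
      (∀ Q ∈ I.erase P, g (u Q) = g (v Q)) → g (u P) = g (v P) → ∀ a ∈ W \ X, g a = g (u P) :=
    fun g g1 g2 g3 a ha => h.con g g1 (fun Q hQ => by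
      by_cases k : Q = P
      · exact k ▸ g3
      · exact g2 Q (mem_erase.mpr ⟨k, hQ⟩)) a ha _ (h.hZ hu)
  obtain ⟨A, a1, a2, a3, a4⟩ : ∃ A ⊆ Z, u P ∈ A ∧ v P ∉ A ∧ ∀ g : V → ZMod 2,
      (∀ e ∈ T, g (G.s e) = g (G.t e)) → (∀ Q ∈ I.erase P, g (u Q) = g (v Q)) → g (u P) ≠ g (v P) →
      (∀ z ∈ A, g z = g (u P)) ∧ ∀ z ∈ Z, z ∉ A → g z = g (v P) := by
    by_cases k : ∃ g0 : V → ZMod 2, (∀ e ∈ T, g0 (G.s e) = g0 (G.t e)) ∧
        (∀ Q ∈ I.erase P, g0 (u Q) = g0 (v Q)) ∧ g0 (u P) ≠ g0 (v P)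
    · obtain ⟨g0, k1, k2, k3⟩ := k
      refine ⟨Z.filter (fun z => g0 z = g0 (u P)), filter_subset _ _, mem_filter.mpr ⟨hu, rfl⟩,
        fun c => k3 (mem_filter.mp c).2.symm, fun g g1 g2 g3 => ?_⟩
      have z1 : ∀ a b c d : ZMod 2, a ≠ b → c ≠ d → a + c = b + d := by decide
      have z2 : ∀ a b c d e : ZMod 2, a ≠ b → c + d = a + e → d ≠ e → c = b := by decide
      have b1 := ful (fun x => g x + g0 x) (fun e he => by simp only [g1 e he, k1 e he])
        (fun Q hQ => by simp only [g2 Q hQ, k2 Q hQ]) (z1 _ _ _ _ g3 k3)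
      refine ⟨fun z hz => ?_, fun z hz c => z2 _ _ _ _ _ g3 (b1 z (h.hZ hz))
        fun d => c (mem_filter.mpr ⟨hz, d⟩)⟩
      obtain ⟨c1, c2⟩ := mem_filter.mp hz
      have := b1 z (h.hZ c1)
      simpa [c2] using this
    · exact ⟨{u P}, singleton_subset_iff.mpr hu, mem_singleton_self _,
        fun c => n (mem_singleton.mp c).symm, fun g g1 g2 g3 => absurd ⟨g, g1, g2, g3⟩ k⟩
  refine ⟨A, a1, a2, a3, fun E2 e2 lk => ⟨h.hX.trans subset_union_left,
    e ▸ h.hZ.trans subset_union_left, e ▸ union_subset (h.hT.trans (eset_mono subset_union_left))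
      (e2.trans (eset_mono (union_subset subset_union_right (h.hZ.trans subset_union_left)))),
    h.hM, h.ev, fun g g1 g2 => ?_⟩⟩
  have b1 := fun e he => g1 e (mem_union_left _ he)
  have b2 := fun e he => g1 e (mem_union_right _ he)
  have b3 : g (u P) = g (v P) := by
    by_contra k
    obtain ⟨c1, c2⟩ := a4 g b1 g2 k
    exact k (lk g _ _ b2 c1 c2).1
  have b4 := ful g b1 g2 b3
  have b5 := (lk g _ _ b2 (fun z hz => b4 z (h.hZ (a1 hz))) fun z hz _ => b4 z (h.hZ hz)).2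
  have b6 : ∀ a ∈ (W \ X) ∪ P, g a = g (u P) := fun a ha => (mem_union.mp ha).elim (b4 a) (b5 a)
  rw [e]
  exact fun a ha b hb => (b6 a ha).trans (b6 b hb).symm

theorem Fs.step (na : NA G) (h : Fs G Z u v par W I X T M) (h' : Fs G Z u v par' W I' X' T' M')
    (d : Disjoint (T ∪ M) (T' ∪ M')) (pt : Pt G Z P) (p2 : 2 ≤ P.card) (dj : Disjoint P W)
    (hu : u P ∈ att G Z P) (hv : v P ∈ att G Z P) (n : u P ≠ v P) (hI : P ∉ I') :
    ∃ X1 T1 M1 X2 T2 M2, Fs G Z u v par (W ∪ P) (I.erase P) X1 T1 M1 ∧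
      Fs G Z u v par' (W ∪ P) (I'.erase P) X2 T2 M2 ∧ Disjoint (T1 ∪ M1) (T2 ∪ M2) := by
  obtain ⟨u1, u2⟩ := mem_filter.mp hu
  obtain ⟨v1, v2⟩ := mem_filter.mp hv
  obtain ⟨A, a1, a2, a3, a4⟩ := h.link dj u1 v1 n
  obtain ⟨x, hx, y, hy, j⟩ := pt.edge na p2
  obtain ⟨S, s1, sh, M1, m1, ev⟩ := exists_item par' j
  have s2 : S ⊆ P := s1.trans (insert_subset hx (singleton_subset_iff.mpr hy))
  obtain ⟨E1, e1, E2, e2, e3, r, lk⟩ := petal na pt s2 sh a1 a2 v1 a3 u2 v2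
  refine ⟨_, _, _, _, _, _, a4 E2 (e2.trans (sdiff_subset.trans sdiff_subset)) lk,
    (erase_eq_of_notMem hI).symm ▸ h'.root ⟨_, u1⟩ dj s2 m1 ev (e1.trans sdiff_subset) r, ?_⟩
  have o1 : ∀ e ∈ eset G (P ∪ Z) \ eset G Z, e ∉ eset G W := fun e he k => by
    obtain ⟨b1, b2⟩ := mem_sdiff.mp he
    obtain ⟨b3, b4, b5⟩ := mem_eset.mp b1
    obtain ⟨-, b6, b7⟩ := mem_eset.mp k
    exact b2 (mem_eset.mpr ⟨b3, (mem_union.mp b4).resolve_left (disjoint_right.mp dj b6),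
      (mem_union.mp b5).resolve_left (disjoint_right.mp dj b7)⟩)
  have o2 : ∀ e ∈ E1, e ∉ eset G W := fun e he => o1 e (sdiff_subset_sdiff
    (eset_mono (union_subset_union_left sdiff_subset)) Subset.rfl (e1 he))
  have o3 : ∀ e ∈ E2, e ∉ eset G W := fun e he => o1 e (mem_sdiff.mp (e2 he)).1
  have o4 : ∀ e ∈ M1, e ∉ eset G W := fun e he k =>
    disjoint_left.mp dj (s2 (mem_eset.mp (m1 he)).2.1) (mem_eset.mp k).2.1
  rw [union_right_comm, union_union_union_comm T', disjoint_union_left, disjoint_union_right,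
    disjoint_union_right (t := T' ∪ M')]
  refine ⟨⟨d, disjoint_left.mpr fun e a b => (mem_union.mp b).elim (fun c => o2 e c (h.sub a))
    fun c => o4 e c (h.sub a)⟩, disjoint_left.mpr fun e a b => o3 e a (h'.sub b),
    disjoint_left.mpr fun e a b => (mem_union.mp b).elim (disjoint_right.mp e3 a)
      fun c => (mem_sdiff.mp (e2 a)).2 (m1 c)⟩

theorem acc_of_virtual (na : NA G) (ne : J.Nonempty) (pt : ∀ P ∈ J, Pt G Z P ∧ 2 ≤ P.card)
    (dj : ∀ P ∈ J, ∀ P' ∈ J, P ≠ P' → Disjoint P P')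
    (uv : ∀ P ∈ J, u P ∈ att G Z P ∧ v P ∈ att G Z P ∧ u P ≠ v P)
    (h0 : ∀ A ⊆ Z, A.Nonempty → (nu J u v A : ℤ) ≤ Fz G A) (h1 : Fz G Z ≤ J.card) :
    Acc G (Z ∪ J.biUnion id) := by
  have n : ∀ P ∈ J, u P ≠ v P := fun P h => (uv P h).2.2
  obtain ⟨P0, p0⟩ := ne
  have zn : Z.Nonempty := ⟨_, (mem_filter.mp (uv P0 p0).1).1⟩
  obtain ⟨T1, t1, T2, t2, t3, t4, t5⟩ := pk_trees (G := vg G J u v) (X := ∅) (Y := Z)
    (empty_subset _) (by simpa using zn)
    (sg_empty fun A a b => by rw [vg_F n]; have := h0 A a b; omega) (by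
      have : nu J u v Z = J.card := congrArg card (filter_true_of_mem fun P h =>
        ⟨(mem_filter.mp (uv P h).1).1, (mem_filter.mp (uv P h).2.1).1⟩)
      rw [vg_F n, ein_empty, this]
      simpa using h1)
  rw [sdiff_empty] at t1 t4
  replace t2 : T2 ⊆ eset (vg G J u v) Z := fun e he => by
    have := t2 he
    simp only [mem_sdiff] at this
    exact this.1
  rw [vg_eset n] at t1 t2
  have ini : ∀ par T, T ⊆ (eset G Z).disjSum (J.filter (fun P => u P ∈ Z ∧ v P ∈ Z)) →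
      Con (vg G J u v) Z T → T.toRight ⊆ J ∧ Fs G Z u v par Z T.toRight ∅ T.toLeft ∅ := by
    intro par T a b
    have c : T.toRight ⊆ J := fun P h =>
      (mem_filter.mp (inr_mem_disjSum.mp (a (mem_toRight.mp h)))).1
    refine ⟨c, empty_subset _, by simp, fun e h => ?_, empty_subset _, by simp, fun g g1 g2 => ?_⟩
    · rw [sdiff_empty]
      exact inl_mem_disjSum.mp (a (mem_toLeft.mp h))
    · rw [sdiff_empty]
      refine b g fun e he => ?_
      rcases e with e | P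
      · exact g1 e (mem_toLeft.mpr he)
      · simpa [vg, c (mem_toRight.mpr he)] using g2 P (mem_toRight.mpr he)
  refine ⟨(pt P0 p0).2.trans (card_le_card ((subset_biUnion_of_mem id p0).trans subset_union_right)),
    fun β b1 b2 => ?_⟩
  set p1 := UU (sub G (Z ∪ J.biUnion id)) β .k1 with hp1
  set p2 := UU (sub G (Z ∪ J.biUnion id)) β .k2 with hp2
  have key : ∀ J' ⊆ J, ∃ X1 S1 M1 X2 S2 M2,
      Fs G Z u v p1 (Z ∪ J'.biUnion id) (T1.toRight \ J') X1 S1 M1 ∧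
      Fs G Z u v p2 (Z ∪ J'.biUnion id) (T2.toRight \ J') X2 S2 M2 ∧
      Disjoint (S1 ∪ M1) (S2 ∪ M2) := by
    intro J'
    induction J' using Finset.induction_on with
    | empty =>
      refine fun _ => ⟨∅, T1.toLeft, ∅, ∅, T2.toLeft, ∅, by simpa using (ini p1 T1 t1 t4).2,
        by simpa using (ini p2 T2 t2 t5).2, ?_⟩
      rw [union_empty, union_empty, disjoint_left]
      exact fun e a b => disjoint_left.mp t3 (mem_toLeft.mp a) (mem_toLeft.mp b)
    | insert P J' hP ih =>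
      intro hJ
      have j1 := (subset_insert _ _).trans hJ
      have j2 := hJ (mem_insert_self _ _)
      obtain ⟨X1, S1, M1, X2, S2, M2, f1, f2, f3⟩ := ih j1
      have d : Disjoint P (Z ∪ J'.biUnion id) := disjoint_union_right.mpr ⟨(pt P j2).1.dj,
        (disjoint_biUnion_right _ _ _).mpr fun Q h => dj P j2 Q (j1 h) fun e => hP (e ▸ h)⟩
      have e : Z ∪ (insert P J').biUnion id = Z ∪ J'.biUnion id ∪ P := by
        rw [biUnion_insert, id, union_comm P, union_assoc]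
      rw [e, sdiff_insert, sdiff_insert]
      by_cases k : P ∈ T2.toRight
      · obtain ⟨Y1, R1, N1, Y2, R2, N2, g1, g2, g3⟩ := f2.step na f1 f3.symm (pt P j2).1 (pt P j2).2 d
          (uv P j2).1 (uv P j2).2.1 (n P j2) fun c =>
            disjoint_left.mp t3 (mem_toRight.mp (mem_sdiff.mp c).1) (mem_toRight.mp k)
        exact ⟨Y2, R2, N2, Y1, R1, N1, g2, g1, g3.symm⟩
      · exact f1.step na f2 f3 (pt P j2).1 (pt P j2).2 d (uv P j2).1 (uv P j2).2.1 (n P j2)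
          fun c => k (mem_sdiff.mp c).1
  obtain ⟨X1, S1, M1, X2, S2, M2, f1, f2, f3⟩ := key J Subset.rfl
  rw [sdiff_eq_empty_iff_subset.mpr (ini p1 T1 t1 t4).1] at f1
  rw [sdiff_eq_empty_iff_subset.mpr (ini p2 T2 t2 t5).1] at f2
  exact feas_final b1 b2 f1.hX f2.hX f1.hT f2.hT f1.hM f2.hM f3
    (fun g k => f1.con g k (by simp)) (fun g k => f2.con g k (by simp)) f1.ev f2.ev

/-- many disjoint petals over a base of bounded `F` are impossible -/
theorem gpt (c : ℕ) : ∃ t : ℕ, ∀ {V E : Type} [Fintype V] [Fintype E] (G : MG V E), NA G →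
    ∀ (Z : Finset V) (QQ : Finset (Finset V)), Z.Nonempty → Fz G Z ≤ c →
      (∀ P ∈ QQ, Pt G Z P ∧ 2 ≤ P.card) → (∀ P ∈ QQ, ∀ P' ∈ QQ, P ≠ P' → Disjoint P P') →
      QQ.card ≤ t := by
  induction c with
  | zero =>
    refine ⟨0, fun G na Z QQ ne hF pt _ => Nat.le_zero.mpr (card_eq_zero.mpr
      (eq_empty_of_forall_notMem fun P hP => ?_))⟩
    obtain ⟨p, p2⟩ := pt P hP
    have a1 := p.h0
    have a2 := (na.F_ge (P ∪ Z)).2.1 (p2.trans (card_le_card subset_union_left))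
    omega
  | succ c ih =>
  obtain ⟨t, ih⟩ := ih
  refine ⟨c + c * t, fun G na Z QQ ne hF pt dj => ?_⟩
  by_contra k
  obtain ⟨J, j1, j2, u, v, j3, j4⟩ := greedy (Z := Z) (QQ := QQ) (c := c) (t := t) na
    (fun P h => (pt P h).1) (fun W w1 w2 w3 => ih G na W _ w2 w3
      (fun P h => ⟨(pt P (mem_filter.mp h).1).1.base w1 fun x hx a ha j =>
        (mem_filter.mp h).2 (mem_filter.mpr ⟨ha, x, hx, j⟩), (pt P (mem_filter.mp h).1).2⟩)
      fun P h P' h' => dj P (mem_filter.mp h).1 P' (mem_filter.mp h').1) (not_le.mp k) (c + 1) le_rfl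
  exact na.na _ (acc_of_virtual na (card_pos.mp (by omega)) (fun P h => pt P (j1 h))
    (fun P h P' h' => dj P (j1 h) P' (j1 h')) j3 j4 (j2 ▸ hF))

theorem petals_bound (c r : ℕ) : ∃ t : ℕ, ∀ {V E : Type} [Fintype V] [Fintype E] (G : MG V E), NA G →
    ∀ (Z R : Finset V) (QQ : Finset (Finset V)), Z.Nonempty → Fz G Z ≤ c → R.card ≤ r →
      (∀ P ∈ QQ, Pt G Z P) → (∀ v, {v} ∈ QQ → 2 ≤ dg G v R) →
      (∀ P ∈ QQ, ∀ P' ∈ QQ, P ≠ P' → Disjoint P P') → QQ.card ≤ t := by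
  obtain ⟨t, h⟩ := gpt c
  refine ⟨t + r * r, fun G na Z R QQ ne hF hR pt sg dj => ?_⟩
  have a1 := h G na Z (QQ.filter (fun P => 2 ≤ P.card)) ne hF
    (fun P k => ⟨pt P (mem_filter.mp k).1, (mem_filter.mp k).2⟩)
    fun P k P' k' => dj P (mem_filter.mp k).1 P' (mem_filter.mp k').1
  have a2 := card_filter_add_card_filter_not (s := QQ) (fun P => 2 ≤ P.card)
  have a3 := na.gi.two_nb (R := R) (Q := univ.filter (fun v => {v} ∈ QQ))
    fun v hv => sg v (mem_filter.mp hv).2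
  have a4 : (QQ.filter (fun P => ¬ 2 ≤ P.card)).card ≤ (univ.filter (fun v => {v} ∈ QQ)).card := by
    refine le_trans (card_le_card fun P hP => ?_) (card_image_le (f := fun v => {v}))
    obtain ⟨b1, b2⟩ := mem_filter.mp hP
    obtain ⟨v, rfl⟩ := card_eq_one.mp (show P.card = 1 by have := card_pos.mpr (pt P b1).ne; omega)
    exact mem_image_of_mem _ (mem_filter.mpr ⟨mem_univ _, b1⟩)
  have a5 := Nat.mul_le_mul hR hR
  omega

end

end Pool.Agent.Lib.CF64
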