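import Pool.Agent.Lib.CF53.FinGpt
import Pool.Agent.Lib.CF53.FinEb

set_option linter.unusedSectionVars false
set_option linter.unusedVariables false
set_option linter.unusedSimpArgs false

namespace Pool.Agent.Lib.CF64

open Finset Pool.Agent.Lib.MP_aa6b05_co Pool.Agent.Lib.MP_aa6b05_co.MG

open scoped Classical

noncomputable section

variable {V E : Type} [Fintype V] [Fintype E] {G : MG V E}

theorem low_edge (np : G.NoPar) {Y B : Finset V} (hF : -2 ≤ Fz G Y)
    (h3 : ∀ v ∈ Y, v ∉ B → 3 ≤ dg G v Y) (hc : 33 * B.card < Y.card) :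
    ∃ x ∈ Y, ∃ y ∈ Y, Adj G x y ∧ x ∉ B ∧ y ∉ B ∧ dg G x Y ≤ 6 ∧ dg G y Y ≤ 6 := by
  by_contra c
  push Not at c
  set H := Y.filter (fun v => ¬ dg G v Y ≤ 6) with hH
  set L := Y.filter (fun v => dg G v Y ≤ 6) with hL
  set Lo := L.filter (fun v => v ∉ B) with hLo
  set Bl := L.filter (fun v => v ∈ B) with hBl
  have a1 := card_filter_add_card_filter_not (s := Y) (fun v => dg G v Y ≤ 6)
  have a2 := card_filter_add_card_filter_not (s := L) (fun v => v ∈ B)
  have a3 := sum_filter_add_sum_filter_not Y (fun v => dg G v Y ≤ 6) (fun v => dg G v Y)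
  have a4 := sum_filter_add_sum_filter_not L (fun v => v ∈ B) (fun v => dg G v Y)
  rw [← hH, ← hL] at a1 a3
  rw [← hLo, ← hBl] at a2 a4
  have a5 := sum_dg np Y
  have a6 : Bl.card ≤ B.card := card_le_card fun v hv => (mem_filter.mp hv).2
  have b1 : Lo.card • 3 ≤ ∑ v ∈ Lo, dg G v Y := card_nsmul_le_sum _ _ _ fun v hv =>
    h3 v (mem_filter.mp (mem_filter.mp hv).1).1 (mem_filter.mp hv).2
  have b2 : H.card • 7 ≤ ∑ v ∈ H, dg G v Y := card_nsmul_le_sum _ _ _ fun v hv => by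
    have := (mem_filter.mp hv).2
    omega
  have b3 : ∑ v ∈ Lo, dg G v Y ≤ ∑ v ∈ Lo, (dg G v H + dg G v Bl) := sum_le_sum fun v hv => by
    refine le_trans (card_le_card fun w hw => ?_) (dg_union_le v H Bl)
    obtain ⟨w1, w2⟩ := mem_filter.mp hw
    obtain ⟨v1, v2⟩ := mem_filter.mp hv
    obtain ⟨v3, v4⟩ := mem_filter.mp v1
    refine mem_filter.mpr ⟨?_, w2⟩
    by_cases k : dg G w Y ≤ 6
    · refine mem_union_right _ (mem_filter.mpr ⟨mem_filter.mpr ⟨w1, k⟩, by_contra fun k' => ?_⟩)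
      have := c v v3 w w1 w2 v2 k' v4
      omega
    · exact mem_union_left _ (mem_filter.mpr ⟨w1, k⟩)
  have lo : Lo ⊆ Y := (filter_subset _ _).trans (filter_subset _ _)
  rw [sum_add_distrib, dg_double Lo H, dg_double Lo Bl] at b3
  have b4 : ∑ v ∈ H, dg G v Lo ≤ ∑ v ∈ H, dg G v Y := sum_le_sum fun v _ => dg_mono v lo
  have b5 : ∑ v ∈ Bl, dg G v Lo ≤ Bl.card • 6 := sum_le_card_nsmul _ _ _ fun v hv =>
    (dg_mono v lo).trans (mem_filter.mp (mem_filter.mp hv).1).2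
  simp only [smul_eq_mul] at b1 b2 b5
  unfold Fz at hF
  omega

theorem top4 (na : NA G) (f3 : ∀ A : Finset V, Fz G A ≤ 3 → A.card ≤ 10) (Q : Finset V) :
    ∃ T : Finset V, T.card ≤ 10 ∧ (4 ≤ Q.card → ∀ A, Q ⊆ A → Fz G A ≤ 3 → A ⊆ T) := by
  by_cases h : 4 ≤ Q.card ∧ ∃ A, Q ⊆ A ∧ Fz G A ≤ 3
  · obtain ⟨h4, A, hA⟩ := h
    obtain ⟨T, t1, t2⟩ := exists_top (p := fun A => Q ⊆ A ∧ Fz G A ≤ 3)
      (fun A B ⟨a1, a2⟩ ⟨b1, b2⟩ => ⟨a1.trans subset_union_left, by
        have := Fz_sub (G := G) A B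
        have := (na.F_ge (A ∩ B)).2.2.2 (h4.trans (card_le_card (subset_inter a1 b1)))
        omega⟩) hA
    exact ⟨T, f3 T t1.2, fun _ A a b => t2 A ⟨a, b⟩⟩
  · exact ⟨∅, by simp, fun a A b c => absurd ⟨a, A, b, c⟩ h⟩

theorem blk (na : NA G) (f3 : ∀ A : Finset V, Fz G A ≤ 3 → A.card ≤ 10) {Y S : Finset V}
    (sh : Sh G S) (low : (nb G Y S).card ≤ 14) : ∃ T : Finset V, T.card ≤ 1960 ∧
      ∀ A ⊆ Y, S ⊆ A → S.card = 2 → Fz G A ≤ 3 → 5 ≤ A.card → A ⊆ T := by
  choose T t1 t2 using top4 na f3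
  refine ⟨(nb G Y S ×ˢ nb G Y S).biUnion (fun p => T (insert p.1 (insert p.2 S))), ?_, ?_⟩
  · refine (card_biUnion_le_card_mul _ _ 10 fun p _ => t1 _).trans ?_
    rw [card_product]
    have := Nat.mul_le_mul low low
    omega
  intro A hA h1 h2 h3 h5
  rcases sh with ⟨x, rfl⟩ | ⟨x, y, j, rfl⟩
  · simp at h2
  have key : ∀ x ∈ A, ∀ y, ∃ w ∈ A, Adj G x w ∧ w ≠ y := fun x hx y => by
    have a := Fz_erase na.gi.np hx
    have b := (na.F_ge (A.erase x)).2.2.2 (by rw [card_erase_of_mem hx]; omega)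
    exact exists_adj_ne (by omega) y
  obtain ⟨a, a1, a2, a3⟩ := key x (h1 (by simp)) y
  obtain ⟨b, b1, b2, b3⟩ := key y (h1 (by simp)) x
  have n1 : a ≠ b := fun e => na.gi.tri j b2 (e ▸ a2.symm)
  refine (t2 (insert a (insert b {x, y})) ?_ A (insert_subset a1 (insert_subset b1 h1)) h3).trans
    (subset_biUnion_of_mem (fun p : V × V => T (insert p.1 (insert p.2 {x, y}))) (x := (a, b)) ?_)
  · rw [card_insert_of_notMem (by simp [n1, a3, a2.ne.symm]),
      card_insert_of_notMem (by simp [b3, b2.ne.symm]), h2]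
  · exact mem_product.mpr ⟨mem_nb.mpr ⟨hA a1, Or.inr ⟨x, by simp, a2⟩⟩,
      mem_nb.mpr ⟨hA b1, Or.inr ⟨y, by simp, b2⟩⟩⟩

theorem pool (b M : ℕ) : ∃ k : ℕ, ∀ {V E : Type} [Fintype V] [Fintype E] (G : MG V E), NA G →
    (∀ A : Finset V, Fz G A ≤ 3 → A.card ≤ 10) → ∀ (Y B : Finset V) (u : V → ZMod 2), B.card ≤ b →
      (∀ v ∈ Y, v ∉ B → 3 ≤ dg G v Y) → k ≤ Y.card →
      ∃ PP : Finset (Finset V), PP.card = M ∧ Pl G Y ∅ PP ∧ ∀ S ∈ PP, Ev G u S := by
  induction M with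
  | zero =>
    exact ⟨0, fun G na f3 Y B u _ _ _ => ⟨∅, rfl, ⟨empty_subset _, by simp, by simp, by simp,
      by simp, by simp, by simp⟩, by simp⟩⟩
  | succ M ih =>
  obtain ⟨k, ih⟩ := ih
  refine ⟨k + 33 * (b + M * 14 + M * 1960) + 1, fun G na f3 Y B u hb h3 hk => ?_⟩
  obtain ⟨PP, p1, pl, ev⟩ := ih G na f3 Y B u hb h3 (by omega)
  choose! T t1 t2 using fun S (hS : S ∈ PP) => blk na f3 (pl.sh S hS) (pl.low S hS)
  have c1 := card_biUnion_le_card_mul PP (nb G Y) 14 pl.low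
  have c2 := card_biUnion_le_card_mul PP T 1960 t1
  have c3 := card_union_le (B ∪ PP.biUnion (nb G Y)) (PP.biUnion T)
  have c4 := card_union_le B (PP.biUnion (nb G Y))
  rw [p1] at c1 c2
  obtain ⟨x, x1, y, y1, j, x2, y2, x3, y3⟩ := low_edge na.gi.np (Y := Y)
    (B := B ∪ PP.biUnion (nb G Y) ∪ PP.biUnion T)
    (by have := na.F0 (card_pos.mp (show 0 < Y.card by omega)); omega)
    (fun v hv k => h3 v hv fun c => k (mem_union_left _ (mem_union_left _ c))) (by omega)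
  obtain ⟨S, s1, sh, s2⟩ := exists_item u j
  have s3 : ∀ v ∈ S, v ∈ Y ∧ v ∉ B ∪ PP.biUnion (nb G Y) ∪ PP.biUnion T := fun v hv => by
    rcases mem_insert.mp (s1 hv) with rfl | k
    · exact ⟨x1, x2⟩
    · rw [mem_singleton.mp k]
      exact ⟨y1, y2⟩
  have s4 : ∀ S' ∈ PP, FarG G S' S := fun S' h => by
    have : ∀ v ∈ S, v ∉ nb G Y S' := fun v hv k => (s3 v hv).2
      (mem_union_left _ (mem_union_right _ (mem_biUnion.mpr ⟨S', h, k⟩)))
    exact ⟨disjoint_right.mpr fun v hv k => this v hv (mem_nb.mpr ⟨(s3 v hv).1, Or.inl k⟩),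
      fun a ha v hv k => this v hv (mem_nb.mpr ⟨(s3 v hv).1, Or.inr ⟨a, ha, k⟩⟩)⟩
  have s5 : S ∉ PP := fun k => sh.ne.ne_empty ((disjoint_self_iff_empty S).mp (s4 S k).dj)
  have s6 : ∀ S' ∈ PP, S'.card = 2 → S.card = 2 → ∀ A ⊆ Y, S' ∪ S ⊆ A → 4 ≤ Fz G A := by
    intro S' h e1 e2 A hA k
    by_contra c
    have a1 := (s4 S' h).F
    have a2 := (na.F_ge S').2.1 e1.ge
    have a3 := (na.F_ge S).2.1 e2.ge
    have a4 := card_union_of_disjoint (s4 S' h).dj
    have a5 : 5 ≤ A.card := by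
      by_contra d
      rw [← eq_of_subset_of_card_le k (by omega)] at c
      omega
    obtain ⟨v, hv⟩ := sh.ne
    exact (s3 v hv).2 (mem_union_right _ (mem_biUnion.mpr ⟨S', h, t2 S' h A hA
      (subset_union_left.trans k) e1 (by omega) a5 (k (mem_union_right _ hv))⟩))
  have s7 : (nb G Y S).card ≤ 14 := by
    have : nb G Y S ⊆ insert x (insert y (Y.filter (Adj G x) ∪ Y.filter (Adj G y))) := by
      intro v hv
      obtain ⟨a, c | ⟨z, c, d⟩⟩ := mem_nb.mp hv
      · have := s1 c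
        simp only [mem_insert, mem_singleton] at this ⊢
        tauto
      · have := s1 c
        simp only [mem_insert, mem_singleton, mem_union, mem_filter] at this ⊢
        rcases this with rfl | rfl <;> tauto
    have a := (card_le_card this).trans ((card_insert_le _ _).trans (Nat.add_le_add_right
      ((card_insert_le _ _).trans (Nat.add_le_add_right (card_union_le _ _) 1)) 1))
    unfold dg at x3 y3
    omega
  refine ⟨insert S PP, by rw [card_insert_of_notMem s5, p1], ⟨empty_subset _,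
    (forall_mem_insert _ _ _).mpr ⟨sh, pl.sh⟩,
    (forall_mem_insert _ _ _).mpr ⟨fun v hv => (s3 v hv).1, pl.sub⟩,
    (forall_mem_insert _ _ _).mpr ⟨s7, pl.low⟩,
    fun S' _ => ⟨disjoint_empty_right _, fun a _ b hb => absurd hb (notMem_empty _)⟩, ?_, ?_⟩,
    (forall_mem_insert _ _ _).mpr ⟨s2, ev⟩⟩
  · intro S1 h S2 h' n
    rcases mem_insert.mp h with a | a <;> rcases mem_insert.mp h' with a' | a'
    · exact absurd (a.trans a'.symm) n
    · exact a ▸ (s4 S2 a').symm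
    · exact a' ▸ s4 S1 a
    · exact pl.far S1 a S2 a' n
  · intro S1 h S2 h' n e1 e2 A hA k
    rcases mem_insert.mp h with a | a <;> rcases mem_insert.mp h' with a' | a'
    · exact absurd (a.trans a'.symm) n
    · exact s6 S2 a' e2 (a ▸ e1) A hA (by rwa [union_comm, ← a])
    · exact s6 S1 a e1 (a' ▸ e2) A hA (by rwa [← a'])
    · exact pl.pf S1 a S2 a' n e1 e2 A hA k

theorem caseB (f k j z : ℕ) : ∃ N : ℕ, ∀ {V E : Type} [Fintype V] [Fintype E] (G : MG V E), NA G →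
    ∀ (Z B A : Finset V), B.Nonempty → (∀ C, B ⊆ C → (f : ℤ) ≤ Fz G C) → B ⊆ A → A ⊆ Z →
      Fz G A ≤ f → A.card ≤ z →
      (∀ v ∈ Z, ∃ C ⊆ Z, B ⊆ C ∧ v ∈ C ∧ Fz G C ≤ f ∧ C.card ≤ k ∧ (C \ A).card ≤ j) →
      Z.card ≤ N := by
  induction j generalizing z with
  | zero =>
    refine ⟨z, fun G na Z B A _ _ _ _ _ hz h => le_trans (card_le_card fun v hv => ?_) hz⟩
    obtain ⟨C, -, -, c1, -, -, c2⟩ := h v hv
    exact sdiff_eq_empty_iff_subset.mp (card_eq_zero.mp (by omega)) c1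
  | succ j ih =>
  obtain ⟨t, pb⟩ := petals_bound f z
  obtain ⟨N, ih⟩ := ih (z + t * k)
  refine ⟨N, fun G na Z B A hB hf h1 h2 h3 hz h => ?_⟩
  set QQ := Z.powerset.filter (fun P => Pt G A P ∧ P.card ≤ k) with hQ
  have mq : ∀ P, P ∈ QQ ↔ P ⊆ Z ∧ Pt G A P ∧ P.card ≤ k := fun P => by simp [hQ]
  have up : ∀ C, (f : ℤ) ≤ Fz G (C ∪ A) := fun C => hf _ (h1.trans subset_union_right)
  have fa := hf A h1
  have q1 := pb G na A A QQ (hB.mono h1) h3 hz (fun P hP => ((mq P).mp hP).2.1) (fun v hv => by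
      have p := ((mq _).mp hv).2.1
      have c3 := p.h0
      rw [← insert_eq, F_insert na.gi.np (by simpa using p.dj)] at c3
      omega)
    (fun P hP P' hP' n => by
      have p := ((mq _).mp hP).2.1
      have p' := ((mq _).mp hP').2.1
      by_contra c
      have ne := not_disjoint_iff_nonempty_inter.mp c
      have a1 := Fz_sub (G := G) (P ∪ A) (P' ∪ A)
      rw [← union_union_distrib_right, ← inter_union_distrib_right] at a1
      have a2 := up (P ∪ P')
      have a3 := p.h0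
      have a4 := p'.h0
      have a5 : P ∩ P' = P := by
        by_contra d
        have := p.h1 _ inter_subset_left ne d
        omega
      have a6 : P ∩ P' = P' := by
        by_contra d
        have := p'.h1 _ inter_subset_right ne d
        omega
      exact n (a5.symm.trans a6))
  have q2 : ∀ J ⊆ QQ, Fz G (J.biUnion id ∪ A) ≤ f := by
    intro J
    induction J using Finset.induction_on with
    | empty => simpa using h3
    | insert P J _ ih' =>
      intro hJ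
      have a1 := ih' ((subset_insert _ _).trans hJ)
      have a2 := ((mq P).mp (hJ (mem_insert_self _ _))).2.1.h0
      have a3 := Fz_sub (G := G) (P ∪ A) (J.biUnion id ∪ A)
      rw [← union_union_distrib_right, ← inter_union_distrib_right] at a3
      have a4 := up (P ∩ J.biUnion id)
      rw [biUnion_insert, id]
      omega
  have q3 := card_biUnion_le_card_mul QQ id k fun P hP => ((mq P).mp hP).2.2
  have q4 := card_union_le (QQ.biUnion id) A
  have q5 := Nat.mul_le_mul_right k q1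
  refine ih G na Z B (QQ.biUnion id ∪ A) hB hf (h1.trans subset_union_right)
    (union_subset (biUnion_subset.mpr fun P hP => ((mq P).mp hP).1) h2) (q2 QQ Subset.rfl)
    (by omega) fun v hv => ?_
  obtain ⟨C, c1, c2, c3, c4, c5, c6⟩ := h v hv
  refine ⟨C, c1, c2, c3, c4, c5, ?_⟩
  have d1 : C \ (QQ.biUnion id ∪ A) ⊆ C \ A := sdiff_subset_sdiff Subset.rfl subset_union_right
  rcases (C \ A).eq_empty_or_nonempty with e | e
  · rw [e] at d1
    simp [subset_empty.mp d1]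
  obtain ⟨Q, r1, r2, r3, r4⟩ := exists_pt (G := G) (Z := A) sdiff_disjoint e (by
    have a1 := Fz_sub (G := G) C A
    have a2 := hf (C ∩ A) (subset_inter c2 h1)
    rw [sdiff_union_self_eq_union]
    omega)
  have r5 : Q ∈ QQ := (mq Q).mpr ⟨r1.trans (sdiff_subset.trans c1),
    ⟨sdiff_disjoint.mono_left r1, r2, by have := up Q; omega, r4⟩,
    (card_le_card (r1.trans sdiff_subset)).trans c5⟩
  obtain ⟨w, hw⟩ := r2
  have := card_lt_card (ssubset_iff_of_subset d1 |>.mpr ⟨w, r1 hw, fun c => (mem_sdiff.mp c).2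
    (mem_union_left _ (mem_biUnion.mpr ⟨Q, r5, hw⟩))⟩)
  omega

end

end Pool.Agent.Lib.CF64
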