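import Pool.Agent.Lib.CF53.FinPet

set_option linter.unusedSectionVars false
set_option linter.unusedVariables false
set_option linter.unusedSimpArgs false

namespace Pool.Agent.Lib.CF64

open Finset Pool.Agent.Lib.MP_aa6b05_co Pool.Agent.Lib.MP_aa6b05_co.MG

open scoped Classical

noncomputable section

variable {V E : Type} [Fintype V] [Fintype E] {G : MG V E}

theorem Sp.bl {N : Finset V} (sp : Sp G N 3) : G.Bl := by
  intro X
  by_cases a : ∀ v ∈ N, v ∉ X
  · rw [d_zero sp.hN a]
    omega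
  by_cases b : ∀ v ∈ N, v ∉ Xᶜ
  · rw [← d_compl, d_zero sp.hN b]
    omega
  push Not at a b
  obtain ⟨u, hu, a⟩ := a
  obtain ⟨v, hv, b⟩ := b
  have c1 := d_ge (G := G) N X
  have c2 := sp.F_ge (filter_subset (fun v => v ∈ X) N)
  have c3 := sp.F_ge (filter_subset (fun v => v ∉ X) N)
  have c4 := card_filter_add_card_filter_not (s := N) (fun v => v ∈ X)
  have c5 : 0 < (N.filter (fun v => v ∈ X)).card := card_pos.mpr ⟨u, mem_filter.mpr ⟨hu, a⟩⟩
  have c6 : 0 < (N.filter (fun v => v ∉ X)).card := card_pos.mpr ⟨v, mem_filter.mpr ⟨hv, b⟩⟩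
  have c7 := sp.ten
  have c8 := sp.tot
  omega

theorem Sp.quo_ten {N : Finset V} (sp : Sp G N 3) (h : G.Quo Pet) : N.card ≤ 10 := by
  obtain ⟨π, ι, q⟩ := h
  have h1 := part_sum (G := G) π N
  have h2 : (G.map π).m ≤ 15 := quo_m_le q id
  have h3 : N.image π = univ := by
    rw [eq_univ_iff_forall]
    intro w
    by_contra hn
    have a := q.d_eq {w}
    have b : G.d (π ⁻¹' {w}) = 0 := d_zero sp.hN (fun v hv hv' =>
      hn (mem_image.mpr ⟨v, hv, hv'⟩))
    rw [pet_d, b] at a
    omega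
  have h4 : ∀ i ∈ N.image π, 0 ≤ Fz G (N.filter (fun v => π v = i)) := by
    intro i hi
    obtain ⟨v, hv, rfl⟩ := mem_image.mp hi
    exact (sp.F_ge (filter_subset _ _)).1 (card_pos.mpr ⟨v, by simp [hv]⟩)
  have h5 : (N.image π).card = 10 := by rw [h3]; simp
  have h6 := sp.tot
  have h7 := sum_nonneg h4
  have h8 := (sum_eq_zero_iff_of_nonneg h4).mp (by omega)
  have h9 := card_le_mul_card_image (f := π) N 1 (fun i hi => by
    have := (sp.F_ge (filter_subset (fun v => π v = i) N)).2.1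
    have := h8 i hi
    omega)
  omega

theorem NA.sp_ten (na : NA G) {Y : Finset V} (sp : Sp (sub G Y) Y 3) : Y.card ≤ 10 := by
  by_contra hn
  refine na.na Y ⟨by omega, fun β h1 h2 => ?_⟩
  by_cases h : ∃ p, β p ≠ 0
  · obtain ⟨p, hp⟩ := h
    exact feas3 sp h1 h2 hp
  push Not at h
  have hc : (sub G Y).Col := by
    by_contra hc
    exact hn (sp.quo_ten (induct3 _ _ le_rfl sp.bl (hyp_of_sparse sp.hN
      (fun K hK hne => (sp.F_ge hK).1 (card_pos.mpr hne)) sp.tot.le) hc))
  obtain ⟨φ, a, b⟩ := hc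
  exact ⟨φ, a, fun v => by rw [h v, b v trivial]⟩

/-- a join with prescribed parity off a root set -/
theorem rjoin {W R : Finset V} {T : Finset E} {r : V} (hr : r ∈ R) (dj : Disjoint W R)
    (hT : T ⊆ eset G (W ∪ R))
    (h : ∀ (g : V → ZMod 2) (c : ZMod 2), (∀ e ∈ T, g (G.s e) = g (G.t e)) → (∀ z ∈ R, g z = c) →
      ∀ x ∈ W, g x = c) (τ : V → ZMod 2) :
    ∃ J : E → ZMod 2, (∀ e, e ∉ T → J e = 0) ∧ ∀ x ∈ W, G.df J x = τ x := by
  let ρ : V → V := fun w => if w ∈ R then r else w
  have rW : r ∉ W := disjoint_right.mp dj hr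
  have ρW : ∀ x ∈ W, ρ x = x := fun x hx => if_neg (disjoint_left.mp dj hx)
  have ρR : ∀ x ∈ R, ρ x = r := fun x hx => if_pos hx
  have key : ∀ w ∈ W ∪ R, ρ w ∈ insert r W := by
    intro w hw
    rcases mem_union.mp hw with a | a
    · rw [ρW w a]
      exact mem_insert_of_mem a
    · rw [ρR w a]
      exact mem_insert_self _ _
  have con : Con (G.map ρ) (insert r W) T := by
    intro g hg
    have a : ∀ x ∈ insert r W, g x = g r := by
      intro x hx
      rcases mem_insert.mp hx with rfl | hx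
      · rfl
      · have := h (fun w => g (ρ w)) (g r) hg (fun z hz => by simp only [ρR z hz]) x hx
        simpa only [ρW x hx] using this
    intro x hx y hy
    rw [a x hx, a y hy]
  obtain ⟨J, j1, j2⟩ := exists_join (G := G.map ρ) (W := insert r W) (S := T)
    (fun e he => iff_of_true (key _ (mem_eset.mp (hT he)).2.1) (key _ (mem_eset.mp (hT he)).2.2))
    con.cc_le (fun v => (if v ∈ W then τ v else 0) + if v = r then ∑ x ∈ W, τ x else 0)
    (fun v hv => by
      rw [mem_insert, not_or] at hv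
      simp [hv.1, hv.2])
    (by
      rw [sum_add_distrib, sum_ite_mem, univ_inter, sum_ite_eq']
      simp [zmod2_add_self])
  refine ⟨J, j1, fun x hx => ?_⟩
  have a := j2 x
  have b : x ≠ r := fun k => rW (k ▸ hx)
  simp only [hx, b, if_true, if_false, add_zero] at a
  rw [← a]
  unfold df
  rw [cut_map]
  congr 2
  ext w
  simp only [Set.mem_preimage, Set.mem_singleton_iff, ρ]
  split_ifs with k
  · exact iff_of_false (fun p => disjoint_left.mp dj hx (p ▸ k)) b.symm
  · rfl

theorem sub_sub {Y Z : Finset V} (h : Z ⊆ Y) : sub (sub G Y) Z = sub G Z := by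
  have : ∀ e, (sub (sub G Y) Z).s e = (sub G Z).s e := by
    intro e
    show (if e ∈ eset (sub G Y) Z then (sub G Y).s e else G.t e) = if e ∈ eset G Z then G.s e else G.t e
    rw [sub_eset h]
    split_ifs with k
    · exact if_pos (eset_mono h k)
    · rfl
  have a : (sub (sub G Y) Z).s = (sub G Z).s := funext this
  show MG.mk (sub (sub G Y) Z).s G.t = MG.mk (sub G Z).s G.t
  rw [a]

theorem feas_glue {Y : Finset V} {φ : E → K} {β : V → K} (h1 : ∀ e, e ∉ eset G Y → φ e ≠ 0)
    (h2 : ∀ e ∈ eset G Y, φ e = 0) (hF : Feas (sub G Y) (fun v => β v + G.df φ v)) : Feas G β := by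
  obtain ⟨ψ, a1, a2⟩ := hF
  refine ⟨fun e => φ e + if e ∈ eset G Y then ψ e else 0, fun e => ?_, fun v => ?_⟩
  · by_cases k : e ∈ eset G Y
    · simpa [k, h2 e k] using a1 e
    · simpa [k] using h1 e k
  · have b : G.df (fun e => if e ∈ eset G Y then ψ e else 0) v = (sub G Y).df ψ v := by
      unfold df
      rw [sum_ite_mem]
      congr 1
      ext e
      rw [mem_inter, mem_cut_single, mem_cut_single, sub_ne]
      constructor
      · rintro ⟨a, b⟩
        simp only [sub, b, if_true, true_and]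
        exact a.2
      · rintro ⟨a, b⟩
        simp only [sub, a, if_true] at b
        exact ⟨⟨(mem_eset.mp a).1, b⟩, a⟩
    rw [df_add, b, a2]
    show G.df φ v + (β v + G.df φ v) = β v
    rw [add_comm (β v), ← add_assoc, K.add_self, zero_add]

theorem df_zero_off {M : Type} [AddCommMonoid M] {J : E → M} {W : Finset V} {v : V}
    (h : ∀ e, e ∉ eset G W → J e = 0) (hv : v ∉ W) : G.df J v = 0 := by
  apply sum_eq_zero
  intro e he
  apply h
  intro k
  rw [mem_cut_single] at he
  have := mem_eset.mp k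
  rcases he.2 with a | a
  · exact hv (a ▸ this.2.1)
  · exact hv (a ▸ this.2.2)

theorem NA.no_pt (na : NA G) {Y Q : Finset V} (sp : Sp (sub G Y) Y 3) (pt : Pt G Y Q)
    (h2 : 2 ≤ Q.card) : False := by
  refine na.na (Q ∪ Y) ⟨h2.trans (card_le_card subset_union_left), fun β hβ hs => ?_⟩
  obtain ⟨x, hx, y, hy, hxy⟩ := pt.edge na h2
  obtain ⟨u, hu, v, hv, huv, tu, tv⟩ := pt.two na
  obtain ⟨S, hS, sh, M, hM, ev⟩ := exists_item (UU (sub G (Q ∪ Y)) β .k1) hxy
  have SQ : S ⊆ Q := hS.trans (by simp [insert_subset_iff, hx, hy])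
  obtain ⟨E1, e1, E2, e2, dj, p1, p2⟩ := petal na pt SQ sh (A := {u}) (by simpa using hu)
    (mem_singleton_self u) hv (by simpa using huv.symm) tu tv
  obtain ⟨J, j1, j2⟩ := rjoin (G := G) (W := Q \ S) (R := Y) hu (pt.dj.mono_left sdiff_subset)
    (e1.trans sdiff_subset) p1 (UU (sub G (Q ∪ Y)) β .k1)
  have uQ : u ∉ Q := disjoint_right.mp pt.dj hu
  have eU : insert u Q ∪ Y.erase u = Q ∪ Y := by
    ext w
    by_cases k : w = u
    · simp [k, hu]
    · simp [k]
  let j0 : E → ZMod 2 := fun e => if e ∈ eset G Y then 0 else 1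
  obtain ⟨p, hp⟩ := (by decide : ∀ x y : K, ∀ i : ZMod 2, ∃ p : ZMod 2,
    x + (y + (sm i K.k2 + sm p K.k1)) ≠ 0) (β u) (sm ((sub G (Q ∪ Y)).df j0 u) (K.k1 + K.k2))
    (G.df (fun e => J e + ind M e) u)
  obtain ⟨J2, j3, j4⟩ := rjoin (G := G) (W := insert u Q) (R := Y.erase u) (T := E2) (r := v)
    (mem_erase.mpr ⟨huv.symm, hv⟩)
    (by
      rw [disjoint_insert_left]
      exact ⟨notMem_erase _ _, pt.dj.mono_right (erase_subset _ _)⟩)
    (by rw [eU]; exact e2.trans (sdiff_subset.trans sdiff_subset))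
    (fun g c g1 g2 w hw => by
      obtain ⟨a, b⟩ := p2 g (g u) c g1 (by simp)
        (fun z hz hz' => g2 z (mem_erase.mpr ⟨by simpa using hz', hz⟩))
      rcases mem_insert.mp hw with rfl | hw
      · exact a
      · rw [b w hw, a])
    (fun w => if w = u then p else UU (sub G (Q ∪ Y)) β .k2 w)
  have s1 : ∀ e, J e + ind M e ≠ 0 → e ∈ E1 ∨ e ∈ M := by
    intro e he
    by_contra hn
    push Not at hn
    simp [j1 e hn.1, ind, hn.2] at he
  have s2 : ∀ e, J2 e ≠ 0 → e ∈ E2 := fun e he => by_contra fun k => he (j3 e k)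
  have s3 : ∀ e, J e + ind M e ≠ 0 → e ∈ eset G (Q ∪ Y) ∧ e ∉ eset G Y := by
    intro e he
    rcases s1 e he with k | k
    · have := mem_sdiff.mp (e1 k)
      exact ⟨eset_mono (union_subset_union_left sdiff_subset) this.1, this.2⟩
    · refine ⟨eset_mono (SQ.trans subset_union_left) (hM k), fun a => ?_⟩
      exact disjoint_left.mp pt.dj (SQ (mem_eset.mp (hM k)).2.1) (mem_eset.mp a).2.1
  have s4 : ∀ e, J2 e ≠ 0 → e ∈ eset G (Q ∪ Y) ∧ e ∉ eset G Y := fun e he =>
    mem_sdiff.mp (mem_sdiff.mp (e2 (s2 e he))).1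
  have same : ∀ e ∈ eset G (Q ∪ Y),
      (sub G (Q ∪ Y)).s e = G.s e ∧ (sub G (Q ∪ Y)).t e = G.t e := fun e he => ⟨if_pos he, rfl⟩
  have d1 := df_same (G := G) (G' := sub G (Q ∪ Y)) (J := fun e => J e + ind M e)
    (fun e he => same e (s3 e he).1)
  have d2 := df_same (G := G) (G' := sub G (Q ∪ Y)) (J := J2) (fun e he => same e (s4 e he).1)
  have key : ∀ w, (sub G (Q ∪ Y)).df
      (fun e => sm (j0 e) (K.k1 + K.k2) + (sm (J e + ind M e) K.k2 + sm (J2 e) K.k1)) w =
      sm ((sub G (Q ∪ Y)).df j0 w) (K.k1 + K.k2) +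
        (sm (G.df (fun e => J e + ind M e) w) K.k2 + sm (G.df J2 w) K.k1) := by
    intro w
    rw [df_add, df_add, df_hom (fun j => sm j K.k2) (fun i j => sm_add _ i j),
      df_hom (fun j => sm j K.k1) (fun i j => sm_add _ i j),
      df_hom (fun j => sm j (K.k1 + K.k2)) (fun i j => sm_add _ i j) j0, d1, d2]
  refine feas_glue (Y := Y)
    (φ := fun e => sm (j0 e) (K.k1 + K.k2) + (sm (J e + ind M e) K.k2 + sm (J2 e) K.k1))
    (fun e he => ?_) (fun e he => ?_) ?_
  · rw [sub_eset subset_union_right] at he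
    have a : j0 e = 1 := if_neg he
    have b : J e + ind M e = 0 ∨ J2 e = 0 := by
      by_contra hn
      push Not at hn
      rcases s1 e hn.1 with k | k
      · exact disjoint_left.mp dj k (s2 e hn.2)
      · exact (mem_sdiff.mp (e2 (s2 e hn.2))).2 (hM k)
    rw [a]
    exact (by decide : ∀ i j : ZMod 2, (i = 0 ∨ j = 0) →
      sm 1 (K.k1 + K.k2) + (sm i K.k2 + sm j K.k1) ≠ 0) _ _ b
  · rw [sub_eset subset_union_right] at he
    have a : j0 e = 0 := if_pos he
    have b : J e + ind M e = 0 := by_contra fun k => (s3 e k).2 he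
    have c : J2 e = 0 := by_contra fun k => (s4 e k).2 he
    simp only [a, b, c]
    decide
  rw [sub_sub subset_union_right]
  refine feas3 sp (fun w hw => ?_) ?_ (p := u) ?_
  · by_cases k : w ∈ Q
    · have a : (sub G (Q ∪ Y)).df j0 w = ((sub G (Q ∪ Y)).d {w} : ZMod 2) := by
        rw [← df_one]
        apply df_congr
        intro e he
        refine if_neg fun a => ?_
        rw [mem_cut_single, (same e (eset_mono subset_union_right a)).1,
          (same e (eset_mono subset_union_right a)).2] at he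
        rcases he.2 with b | b
        · exact hw (b ▸ (mem_eset.mp a).2.1)
        · exact hw (b ▸ (mem_eset.mp a).2.2)
      have b : G.df (fun e => J e + ind M e) w = UU (sub G (Q ∪ Y)) β .k1 w := by
        rw [df_add]
        by_cases c : w ∈ S
        · rw [ev w c, df_zero_off (W := Q \ S ∪ Y)
            (fun e he => j1 e fun q => he (mem_sdiff.mp (e1 q)).1) (by simp [c, hw]), zero_add]
        · rw [df_ind_off hM c, j2 w (mem_sdiff.mpr ⟨k, c⟩), add_zero]
      have c := j4 w (mem_insert_of_mem k)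
      rw [if_neg (fun q : w = u => uQ (q ▸ k))] at c
      simp only [key, a, b, c, UU]
      exact (by decide : ∀ (x : K) (j : ZMod 2), x + (sm j (K.k1 + K.k2) +
        (sm (lam K.k1 x + j) K.k2 + sm (lam K.k2 x + j) K.k1)) = 0) _ _
    · have a : w ∉ Q ∪ Y := by simp [k, hw]
      rw [hβ w a, zero_add]
      apply sum_eq_zero
      intro e he
      rw [mem_cut_single, sub_ne] at he
      rw [(same e he.1).1, (same e he.1).2] at he
      rcases he.2 with b | b
      · exact absurd (b ▸ (mem_eset.mp he.1).2.1) a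
      · exact absurd (b ▸ (mem_eset.mp he.1).2.2) a
  · rw [sum_add_distrib, hs, sum_df_zero K.add_self, add_zero]
  · have c := j4 u (mem_insert_self _ _)
    rw [if_pos rfl] at c
    simp only [key, c]
    exact hp

theorem NA.fin3 (na : NA G) (Z : Finset V) (h : Fz G Z ≤ 3) : Z.card ≤ 10 := by
  by_contra hn
  obtain ⟨Y, hY, sp⟩ := exists_sp (f := 3) na.gi (by omega) le_rfl (Z := Z) (by omega) h
  have h1 := na.sp_ten sp
  have h2 := sp.ten
  have h3 := sp.tot
  rw [sub_F Subset.rfl] at h3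
  have h4 := card_sdiff_add_card_eq_card hY
  obtain ⟨Q, hQ, hne, q1, q2⟩ := exists_pt (G := G) (P := Z \ Y) (Z := Y) sdiff_disjoint
    (card_pos.mp (by omega)) (by rw [sdiff_union_of_subset hY]; omega)
  have q3 := (na.F_ge (Q ∪ Y)).2.2.2 (le_trans (by omega) (card_le_card subset_union_right))
  have pt : Pt G Y Q := ⟨sdiff_disjoint.mono_left hQ, hne, by omega, q2⟩
  by_cases h5 : 2 ≤ Q.card
  · exact na.no_pt sp pt h5
  obtain ⟨v, rfl⟩ := card_eq_one.mp (show Q.card = 1 by have := card_pos.mpr hne; omega)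
  have vY : v ∉ Y := by simpa using pt.dj
  have a1 := ein_insert na.gi.np vY
  have a2 := card_insert_of_notMem vY
  have a3 := pt.h0
  rw [← insert_eq] at a3
  have a4 : dg G v Y = 2 := by
    unfold Fz at a3
    omega
  obtain ⟨w, hw, hvw⟩ := dg_pos.mp (show 0 < dg G v Y by omega)
  have deg : ∀ a ∈ Y, 3 ≤ dg G a Y := by
    intro a ha
    have b : dg (sub G Y) a Y = dg G a Y := by
      unfold dg
      congr 1
      exact filter_congr fun z hz => by simp [sub_adj, ha, hz]
    rw [← b]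
    exact sp.deg a ha
  have b1 := na.gi.moore (mem_insert_of_mem hw : w ∈ insert v Y)
  rw [filter_insert, if_pos hvw.symm, sum_insert (by simp [vY])] at b1
  have b2 := dg_mono (G := G) v (subset_insert v Y)
  have b3 := card_nsmul_le_sum (Y.filter (Adj G w)) (fun a => dg G a (insert v Y)) 3
    (fun a ha => (deg a (mem_filter.mp ha).1).trans (dg_mono a (subset_insert v Y)))
  have b4 := deg w hw
  simp only [smul_eq_mul] at b3
  unfold dg at b4
  omega

end

end Pool.Agent.Lib.CF64
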