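import Pool.Agent.Lib.CF53.FinSb
import Pool.Agent.Lib.CF53.FinPool
import Pool.Agent.Lib.CF53.FinThree

set_option linter.unusedSectionVars false
set_option linter.unusedVariables false
set_option linter.unusedSimpArgs false

namespace Pool.Agent.Lib.CF64

open Finset Pool.Agent.Lib.MP_aa6b05_co Pool.Agent.Lib.MP_aa6b05_co.MG

open scoped Classical

noncomputable section

variable {V E : Type} [Fintype V] [Fintype E] {G : MG V E}

theorem FarG.union {S A B : Finset V} (h : FarG G S A) (h' : FarG G S B) : FarG G S (A ∪ B) :=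
  ⟨disjoint_union_right.mpr ⟨h.dj, h'.dj⟩,
    fun a ha b hb => (mem_union.mp hb).elim (h.na a ha b) (h'.na a ha b)⟩

theorem nb_union {Y A B : Finset V} : nb G Y (A ∪ B) ⊆ nb G Y A ∪ nb G Y B := by
  intro v hv
  obtain ⟨a, b | ⟨x, b, c⟩⟩ := mem_nb.mp hv <;> rcases mem_union.mp b with b | b
  · exact mem_union_left _ (mem_nb.mpr ⟨a, Or.inl b⟩)
  · exact mem_union_right _ (mem_nb.mpr ⟨a, Or.inl b⟩)
  · exact mem_union_left _ (mem_nb.mpr ⟨a, Or.inr ⟨x, b, c⟩⟩)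
  · exact mem_union_right _ (mem_nb.mpr ⟨a, Or.inr ⟨x, b, c⟩⟩)

theorem iter (m : ℕ) (hm : 1 ≤ m) (s : ℕ) : ∀ n : ℕ, ∃ M : ℕ,
    ∀ {V E : Type} [Fintype V] [Fintype E] (G : MG V E), NA G →
    ∀ (Y X : Finset V) (PP : Finset (Finset V)) (β : V → K), (∀ v, v ∉ Y → β v = 0) →
      ∑ v, β v = 0 → Pl G Y X PP → (nb G Y X).card ≤ n → M ≤ PP.card →
      (∀ C ⊆ Y, C.Nonempty → 0 ≤ sg G X C) →
      (∀ C ⊆ Y, m ≤ (C ∩ PP.biUnion (nb G Y)).card → (s : ℤ) ≤ sg G X C) →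
      Fz G Y + ein G X ≤ X.card + s → Ev G (UU (sub G Y) β .k1) X →
      (∀ S ∈ PP, Ev G (UU (sub G Y) β .k1) S) → Feas (sub G Y) β := by
  induction s with
  | zero =>
    refine fun n => ⟨1, fun G na Y X PP β b1 b2 pl _ hM i0 _ ht ev _ => ?_⟩
    obtain ⟨S, hS⟩ := card_pos.mp hM
    exact feas_items b1 b2 pl.hX ((pl.sh S hS).ne.mono
      (subset_sdiff.mpr ⟨pl.sub S hS, (pl.farX S hS).dj⟩)) i0 (by simpa using ht) ev
  | succ s ih =>
  intro n
  obtain ⟨M, ih⟩ := ih (n + 14)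
  obtain ⟨Be, eb⟩ := ebad (M * 14 + n)
  obtain ⟨Bs, sb⟩ := sbad n m
  refine ⟨M + Be + Bs + 1, fun G na Y X PP β b1 b2 pl hn hM i0 i1 ht ev ev' => ?_⟩
  obtain ⟨QQ, q1, q2⟩ := exists_subset_card_eq (s := PP) (n := M) (by omega)
  set N0 := QQ.biUnion (nb G Y) with hN0
  have n1 : N0.card ≤ M * 14 := q2 ▸ card_biUnion_le_card_mul _ _ _ fun S hS => pl.low S (q1 hS)
  have i2 : ∀ RR ⊆ PP, ∀ C ⊆ Y, m ≤ (C ∩ RR.biUnion (nb G Y)).card → ((s + 1 : ℕ) : ℤ) ≤ sg G X C :=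
    fun RR h C c1 c2 => i1 C c1 (c2.trans (card_le_card
      (inter_subset_inter_left (biUnion_subset_biUnion_of_subset_left _ h))))
  set P1 := PP.filter (fun S => ∃ C ⊆ Y, m ≤ (C ∩ N0).card ∧
    sg G (X ∪ S) C ≤ ((s + 1 : ℕ) : ℤ) - 2) with hP1
  set P2 := PP.filter (fun S => ∃ C ⊆ Y, C.Nonempty ∧ sg G (X ∪ S) C ≤ -1) with hP2
  have a1 := eb G na Y X N0 P1 m _ (pl.mono (filter_subset _ _)) hm
    ((card_union_le _ _).trans (by omega)) (i2 QQ q1) fun S hS => (mem_filter.mp hS).2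
  have a2 := sb G na Y X P2 _ (pl.mono (filter_subset _ _)) hm (by push_cast; omega) hn i0
    (i2 P2 (filter_subset _ _)) fun S hS => (mem_filter.mp hS).2
  obtain ⟨S, s1, s2⟩ := exists_mem_notMem_of_card_lt_card (s := QQ ∪ (P1 ∪ P2)) (t := PP) (by
    have := card_union_le QQ (P1 ∪ P2)
    have := card_union_le P1 P2
    omega)
  simp only [mem_union, not_or] at s2
  obtain ⟨s2, s3, s4⟩ := s2
  have far := pl.farX S s1
  refine ih G na Y (X ∪ S) QQ β b1 b2 ⟨union_subset pl.hX (pl.sub S s1), (pl.mono q1).sh,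
    (pl.mono q1).sub, (pl.mono q1).low, fun S' h => (pl.farX S' (q1 h)).union
      (pl.far S' (q1 h) S s1 fun e => s2 (e ▸ h)), (pl.mono q1).far, (pl.mono q1).pf⟩
    ((card_le_card nb_union).trans ((card_union_le _ _).trans (Nat.add_le_add hn (pl.low S s1))))
    q2.ge (fun C c1 c2 => ?_) (fun C c1 c2 => ?_) ?_ (ev.union far.dj.symm (ev' S s1))
    fun S' h => ev' S' (q1 h)
  · by_contra k
    exact s4 (mem_filter.mpr ⟨s1, C, c1, c2, by omega⟩)
  · by_contra k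
    exact s3 (mem_filter.mpr ⟨s1, C, c1, c2, by push_cast; omega⟩)
  · have e1 := far.symm.F
    have e2 := card_union_of_disjoint far.dj.symm
    have e3 := na.F_ge S
    have e4 := (pl.sh S s1).card_le
    have e5 := card_pos.mpr (pl.sh S s1).ne
    unfold Fz at *
    push_cast at ht
    omega

theorem caseA (f D b : ℕ) : ∃ k : ℕ, ∀ {V E : Type} [Fintype V] [Fintype E] (G : MG V E), NA G →
    (∀ A : Finset V, Fz G A + 1 ≤ f → A.card ≤ D) → ∀ (Y B : Finset V), B.card ≤ b → Fz G Y ≤ f →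
      (∀ v ∈ Y, v ∉ B → 3 ≤ dg G v Y) → Y.card ≤ k := by
  obtain ⟨M, it⟩ := iter (D * f + 1) (by omega) f 0
  obtain ⟨k, pl⟩ := pool b M
  refine ⟨k + 1, fun G na hD Y B hb hf h3 => ?_⟩
  by_contra c
  refine na.na Y ⟨by omega, fun β b1 b2 => ?_⟩
  obtain ⟨PP, p1, p2, p3⟩ := pl G na na.fin3 Y B (UU (sub G Y) β .k1) hb h3 (by omega)
  exact it G na Y ∅ PP β b1 b2 p2 (by simp [nb]) p1.ge (sg_empty fun A _ => na.F0)
    (fun C _ h => sg_init (fun A => na.F0) hD (h.trans (card_le_card inter_subset_left)))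
    (by simpa [ein_empty] using hf) (Ev.empty _) p3

theorem fin_core (f : ℕ) : ∃ N : ℕ, ∀ {V E : Type} [Fintype V] [Fintype E] (G : MG V E), NA G →
    ∀ Z : Finset V, Fz G Z ≤ f → Z.card ≤ N := by
  induction f with
  | zero => exact ⟨10, fun G na Z h => na.fin3 Z (by push_cast at h; omega)⟩
  | succ f ih =>
  obtain ⟨D, ih⟩ := ih
  obtain ⟨k, ca⟩ := caseA (f + 1) D (D + 2)
  obtain ⟨N, cb⟩ := caseB (f + 1) k k k
  refine ⟨D + N, fun G na Z h => ?_⟩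
  by_contra c
  obtain ⟨B, b1, b2⟩ := exists_subset_card_eq (s := Z) (n := D + 1) (by omega)
  have hD : ∀ A, Fz G A + 1 ≤ ((f + 1 : ℕ) : ℤ) → A.card ≤ D := fun A k =>
    ih G na A (by push_cast at k; omega)
  have key : ∀ v ∈ Z, ∃ C ⊆ Z, B ⊆ C ∧ v ∈ C ∧ Fz G C ≤ ((f + 1 : ℕ) : ℤ) ∧ C.card ≤ k := by
    intro v hv
    obtain ⟨C, c1, c2⟩ := exists_min_image (Z.powerset.filter
      (fun C => B ⊆ C ∧ v ∈ C ∧ Fz G C ≤ ((f + 1 : ℕ) : ℤ))) card
      ⟨Z, mem_filter.mpr ⟨mem_powerset_self _, b1, hv, h⟩⟩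
    simp only [mem_filter, mem_powerset] at c1 c2
    obtain ⟨c1, c3, c4, c5⟩ := c1
    refine ⟨C, c1, c3, c4, c5, ca G na hD C (insert v B) ((card_insert_le _ _).trans (by omega)) c5
      fun w hw k => ?_⟩
    rw [mem_insert, not_or] at k
    by_contra d
    have e1 := Fz_erase na.gi.np hw
    have e2 := c2 (C.erase w) ⟨(erase_subset _ _).trans c1, subset_erase.mpr ⟨c3, k.2⟩,
      mem_erase.mpr ⟨Ne.symm k.1, c4⟩, by omega⟩
    have e3 := card_erase_lt_of_mem hw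
    omega
  have ne : B.Nonempty := card_pos.mp (by omega)
  obtain ⟨v, hv⟩ := ne
  obtain ⟨A, a1, a2, -, a3, a4⟩ := key v (b1 hv)
  have := cb G na Z B A ⟨v, hv⟩ (fun C k => by
      by_contra d
      have := hD C (by omega)
      have := card_le_card k
      omega) a2 a1 a3 a4 fun w hw => by
    obtain ⟨C, c1, c2, c3, c4, c5⟩ := key w hw
    exact ⟨C, c1, c2, c3, c4, c5, (card_le_card sdiff_subset).trans c5⟩
  omega

end

end Pool.Agent.Lib.CF64
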