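import Pool.Agent.Lib.CF53.FinPk

set_option linter.unusedSectionVars false
set_option linter.unusedVariables false
set_option linter.unusedSimpArgs false

namespace Pool.Agent.Lib.CF64

open Finset Pool.Agent.Lib.MP_aa6b05_co Pool.Agent.Lib.MP_aa6b05_co.MG

open scoped Classical

noncomputable section

variable {V E : Type} [Fintype V] [Fintype E] {G : MG V E}

variable {Z P S A : Finset V}

theorem Pt.base (h : Pt G Z P) {W : Finset V} (hW : W ⊆ Z)
    (hN : ∀ x ∈ P, ∀ a ∈ Z, Adj G a x → a ∈ W) : Pt G W P := by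
  refine ⟨h.dj.mono_right hW, h.ne, ?_, fun Q hQ hne hQP => ?_⟩
  · have := F_peel (G := G) hW h.dj hN
    have := h.h0
    omega
  · have := F_peel (G := G) hW (h.dj.mono_left hQ) (fun x hx => hN x (hQ hx))
    have := h.h1 Q hQ hne hQP
    omega

theorem Pt.two (na : NA G) (h : Pt G Z P) :
    ∃ u ∈ Z, ∃ v ∈ Z, u ≠ v ∧ (∃ x ∈ P, Adj G u x) ∧ ∃ y ∈ P, Adj G v y := by
  by_contra hn
  push Not at hn
  set W := Z.filter (fun a => ∃ x ∈ P, Adj G a x) with hW
  have h1 : W.card ≤ 1 := by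
    rw [card_le_one]
    intro a ha b hb
    by_contra hab
    obtain ⟨y, hy, c⟩ := (mem_filter.mp hb).2
    exact hn a (mem_filter.mp ha).1 b (mem_filter.mp hb).1 hab (mem_filter.mp ha).2 y hy c
  have p := h.base (W := W) (filter_subset _ _) (fun x hx a ha c => mem_filter.mpr ⟨ha, x, hx, c⟩)
  have h2 := card_union_of_disjoint p.dj
  have h3 := card_pos.mpr p.ne
  have h4 := na.F_ge (P ∪ W)
  have h5 := p.h0
  have h6 : Fz G W = 2 * (W.card : ℤ) - 2 - ein G W := rfl
  omega

theorem Pt.edge (na : NA G) (h : Pt G Z P) (h2 : 2 ≤ P.card) : ∃ x ∈ P, ∃ y ∈ P, Adj G x y := by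
  by_contra hn
  push Not at hn
  obtain ⟨x, hx⟩ := h.ne
  have xZ : x ∉ Z := disjoint_left.mp h.dj hx
  have c1 : (P.erase x).card + 1 = P.card := card_erase_add_one hx
  have a1 := h.h1 {x} (by simpa using hx) (singleton_nonempty _)
    (fun e => by rw [← e] at h2; simp at h2)
  have a2 := h.h1 (P.erase x) (erase_subset _ _) (card_pos.mp (by omega))
    (fun e => by rw [e] at c1; omega)
  have a3 := F_peel (G := G) (W := P.erase x ∪ Z) (K := {x}) (T := Z) subset_union_right
    (by simp [xZ]) (fun y hy a ha c => by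
      rw [mem_singleton.mp hy] at c
      rcases mem_union.mp ha with ha | ha
      · exact absurd c (hn a (mem_of_mem_erase ha) x hx)
      · exact ha)
  have e : {x} ∪ (P.erase x ∪ Z) = P ∪ Z := by
    ext w
    by_cases c : w = x
    · simp [c, hx]
    · simp [c]
  rw [e] at a3
  have := h.h0
  omega

theorem exists_pt (dj : Disjoint P Z) (hne : P.Nonempty) (h : Fz G (P ∪ Z) ≤ Fz G Z) :
    ∃ Q ⊆ P, Q.Nonempty ∧ Fz G (Q ∪ Z) ≤ Fz G Z ∧
      ∀ Q' ⊆ Q, Q'.Nonempty → Q' ≠ Q → Fz G Z + 1 ≤ Fz G (Q' ∪ Z) := by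
  obtain ⟨Q, hQ, hmin⟩ := exists_min_image
    (P.powerset.filter (fun Q => Q.Nonempty ∧ Fz G (Q ∪ Z) ≤ Fz G Z)) card ⟨P, by simp [hne, h]⟩
  simp only [mem_filter, mem_powerset] at hQ hmin
  refine ⟨Q, hQ.1, hQ.2.1, hQ.2.2, fun Q' a b c => ?_⟩
  by_contra hn
  exact c (eq_of_subset_of_card_le a (hmin Q' ⟨a.trans hQ.1, b, by omega⟩))

/-- the base is squeezed to the two points `u` and `v` -/
def pr (A Z : Finset V) (u v w : V) : V := if w ∈ A then u else if w ∈ Z then v else w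

/-- the edges of `L` with squeezed ends, and one new edge from `u` to `v` -/
def pH (G : MG V E) (L : Finset E) (ρ : V → V) (u v : V) : MG V (Option E) where
  s := fun o => o.elim u (fun e => if e ∈ L then ρ (G.s e) else u)
  t := fun o => o.elim v (fun e => if e ∈ L then ρ (G.t e) else u)

structure PC (G : MG V E) (Z P A : Finset V) (u v : V) : Prop where
  dj : Disjoint P Z
  hA : A ⊆ Z
  hu : u ∈ A
  hv : v ∈ Z
  hv' : v ∉ A

variable {u v : V}

theorem PC.ne (c : PC G Z P A u v) : u ≠ v := fun h => c.hv' (h ▸ c.hu)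

theorem PC.uP (c : PC G Z P A u v) : u ∉ P := disjoint_right.mp c.dj (c.hA c.hu)

theorem PC.vP (c : PC G Z P A u v) : v ∉ P := disjoint_right.mp c.dj c.hv

theorem PC.pr_P (c : PC G Z P A u v) {w : V} (hw : w ∈ P) : pr A Z u v w = w := by
  have h1 : w ∉ Z := disjoint_left.mp c.dj hw
  have h2 : w ∉ A := fun h => h1 (c.hA h)
  simp [pr, h1, h2]

theorem PC.pr_Z (c : PC G Z P A u v) {w : V} (hw : w ∈ Z) : pr A Z u v w = u ∨ pr A Z u v w = v := by
  by_cases h : w ∈ A <;> simp [pr, h, hw]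

theorem PC.pr_u (c : PC G Z P A u v) : pr A Z u v u = u := by simp [pr, c.hu]

theorem PC.pr_v (c : PC G Z P A u v) : pr A Z u v v = v := by simp [pr, c.hv, c.hv']

theorem PC.pr_Z' (c : PC G Z P A u v) {w : V} (hw : w ∈ Z) : pr A Z u v w ∉ P := by
  rcases c.pr_Z hw with h | h <;> rw [h]
  · exact c.uP
  · exact c.vP

theorem PC.mem_none (c : PC G Z P A u v) (L : Finset E) (W : Finset V) :
    none ∈ eset (pH G L (pr A Z u v) u v) W ↔ u ∈ W ∧ v ∈ W := by
  simp [mem_eset, pH, c.ne]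

theorem PC.mem_some (c : PC G Z P A u v) (W : Finset V) (e : E) :
    some e ∈ eset (pH G (eset G (P ∪ Z) \ eset G Z) (pr A Z u v) u v) W ↔
      e ∈ eset G (P ∪ Z) \ eset G Z ∧ pr A Z u v (G.s e) ∈ W ∧ pr A Z u v (G.t e) ∈ W := by
  by_cases h : e ∈ eset G (P ∪ Z) \ eset G Z
  · have h1 : pr A Z u v (G.s e) ≠ pr A Z u v (G.t e) := by
      simp only [mem_sdiff, mem_eset, mem_union] at h
      obtain ⟨⟨a, b | b, d | d⟩, f⟩ := h
      · rwa [c.pr_P b, c.pr_P d]
      · rw [c.pr_P b]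
        exact fun k => c.pr_Z' d (k ▸ b)
      · rw [c.pr_P d]
        exact fun k => c.pr_Z' b (k ▸ d)
      · exact absurd ⟨a, b, d⟩ f
    rw [mem_eset]
    simp only [pH, Option.elim, h, if_true, true_and]
    exact ⟨fun k => k.2, fun k => ⟨h1, k⟩⟩
  · rw [mem_eset]
    simp only [pH, Option.elim, h, if_false, false_and]
    simp

theorem PC.ein_eq (c : PC G Z P A u v) (W : Finset V) :
    ein (pH G (eset G (P ∪ Z) \ eset G Z) (pr A Z u v) u v) W =
      (if u ∈ W ∧ v ∈ W then 1 else 0) + ((eset G (P ∪ Z) \ eset G Z).filter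
        (fun e => pr A Z u v (G.s e) ∈ W ∧ pr A Z u v (G.t e) ∈ W)).card := by
  have h1 : ∀ T : Finset (Option E), T.card = ∑ o, if o ∈ T then 1 else 0 := fun T => by simp
  have h2 : ∀ T : Finset E, T.card = ∑ o, if o ∈ T then 1 else 0 := fun T => by simp
  unfold ein
  rw [h1, h2, Fintype.sum_option]
  simp only [c.mem_none, c.mem_some, mem_filter]

theorem PC.F_P (c : PC G Z P A u v) {W : Finset V} (hW : W ⊆ P) :
    ein (pH G (eset G (P ∪ Z) \ eset G Z) (pr A Z u v) u v) W = ein G W := by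
  rw [c.ein_eq, if_neg (fun h => c.uP (hW h.1)), zero_add]
  unfold ein
  congr 1
  ext e
  simp only [mem_filter, mem_sdiff, mem_eset, mem_union]
  constructor
  · rintro ⟨⟨⟨a, b, d⟩, -⟩, f, g⟩
    refine ⟨a, ?_, ?_⟩
    · rcases b with b | b
      · rwa [c.pr_P b] at f
      · exact absurd (hW f) (c.pr_Z' b)
    · rcases d with d | d
      · rwa [c.pr_P d] at g
      · exact absurd (hW g) (c.pr_Z' d)
  · rintro ⟨a, b, d⟩
    rw [c.pr_P (hW b), c.pr_P (hW d)]
    exact ⟨⟨⟨a, Or.inl (hW b), Or.inl (hW d)⟩, fun k => disjoint_left.mp c.dj (hW b) k.2.1⟩, b, d⟩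

theorem PC.adj_P (c : PC G Z P A u v) {x y : V} (hx : x ∈ P) (hy : y ∈ P) (h : Adj G x y) :
    Adj (pH G (eset G (P ∪ Z) \ eset G Z) (pr A Z u v) u v) x y := by
  obtain ⟨hne, e, hj⟩ := h
  have he : e ∈ eset G (P ∪ Z) \ eset G Z := by
    rw [mem_sdiff, mem_eset_j hj hne, mem_eset_j hj hne]
    exact ⟨⟨mem_union_left _ hx, mem_union_left _ hy⟩, fun k => disjoint_left.mp c.dj hx k.1⟩
  refine ⟨hne, some e, ?_⟩
  unfold Joins pH
  simp only [Option.elim, he, if_true]
  rcases hj with ⟨a, b⟩ | ⟨a, b⟩ <;> rw [a, b]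
  · exact Or.inl ⟨c.pr_P hx, c.pr_P hy⟩
  · exact Or.inr ⟨c.pr_P hy, c.pr_P hx⟩

theorem PC.F_one (c : PC G Z P A u v) (na : NA G) (h : Pt G Z P) (tu : ∃ x ∈ P, Adj G u x)
    (tv : ∃ y ∈ P, Adj G v y) {W : Finset V} (hW : W ⊆ P ∪ {u, v}) :
    (1 ≤ W.card → 0 ≤ Fz (pH G (eset G (P ∪ Z) \ eset G Z) (pr A Z u v) u v) W) ∧
    (2 ≤ W.card → 1 ≤ Fz (pH G (eset G (P ∪ Z) \ eset G Z) (pr A Z u v) u v) W) := by
  by_cases h0 : u ∉ W ∧ v ∉ W
  · have h1 : W ⊆ P := fun w hw => by
      have := hW hw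
      simp only [mem_union, mem_insert, mem_singleton] at this
      rcases this with a | rfl | rfl
      · exact a
      · exact absurd hw h0.1
      · exact absurd hw h0.2
    have := na.F_ge W
    unfold Fz at this ⊢
    rw [c.F_P h1]
    omega
  set L := eset G (P ∪ Z) \ eset G Z with hL
  set C := L.filter (fun e => pr A Z u v (G.s e) ∈ W ∧ pr A Z u v (G.t e) ∈ W) with hC
  have h1 : C ⊆ eset G (W ∩ P ∪ Z) \ eset G Z := by
    intro e he
    simp only [hC, hL, mem_filter, mem_sdiff, mem_eset, mem_union, mem_inter] at he ⊢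
    obtain ⟨⟨⟨a, b, d⟩, k⟩, f, g⟩ := he
    refine ⟨⟨a, b.imp_left fun b => ⟨?_, b⟩, d.imp_left fun d => ⟨?_, d⟩⟩, k⟩
    · rwa [c.pr_P b] at f
    · rwa [c.pr_P d] at g
  have h2 := card_le_card h1
  have h3 := card_sdiff_add_card_eq_card (eset_mono (G := G) (subset_union_right : Z ⊆ W ∩ P ∪ Z))
  have h4 := card_union_of_disjoint (c.dj.mono_left (inter_subset_right : W ∩ P ⊆ P))
  have h5 : W.card = (W ∩ P).card + ((if u ∈ W then 1 else 0) + (if v ∈ W then 1 else 0)) := by
    have a : W = W ∩ P ∪ ({u, v} : Finset V).filter (fun w => w ∈ W) := by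
      ext w
      have := @hW w
      simp only [mem_union, mem_inter, mem_filter] at this ⊢
      tauto
    have b : Disjoint (W ∩ P) (({u, v} : Finset V).filter (fun w => w ∈ W)) := by
      rw [disjoint_left]
      intro w p b
      simp only [mem_filter, mem_insert, mem_singleton] at b
      rcases b.1 with q | q
      · exact c.uP (q ▸ (mem_inter.mp p).2)
      · exact c.vP (q ▸ (mem_inter.mp p).2)
    conv_lhs => rw [a]
    rw [card_union_of_disjoint b, card_filter, sum_pair c.ne]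
  have h6 : (W ∩ P).card ≠ 0 → W ∩ P ≠ P → Fz G Z + 1 ≤ Fz G (W ∩ P ∪ Z) := fun a b =>
    h.h1 _ inter_subset_right (card_pos.mp (by omega)) b
  have h7 : W ∩ P = P → Fz G (W ∩ P ∪ Z) = Fz G Z := fun a => by rw [a, h.h0]
  have h8 : (W ∩ P).card = 0 → Fz G (W ∩ P ∪ Z) = Fz G Z := fun a => by
    rw [card_eq_zero.mp a, empty_union]
  have h9 : W ∩ P = P → ¬ (u ∈ W ∧ v ∈ W) →
      C.card < (eset G (W ∩ P ∪ Z) \ eset G Z).card := by
    intro a b
    apply card_lt_card
    rw [ssubset_iff_of_subset h1, a]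
    have key : ∀ z ∈ Z, pr A Z u v z ∉ W → (∃ x ∈ P, Adj G z x) → ∃ e ∈ L, e ∉ C := by
      rintro z hz hz' ⟨x, hx, hne, e, hj⟩
      refine ⟨e, ?_, fun k => ?_⟩
      · rw [hL, mem_sdiff, mem_eset_j hj hne, mem_eset_j hj hne]
        exact ⟨⟨mem_union_right _ hz, mem_union_left _ hx⟩, fun k => disjoint_left.mp c.dj hx k.2⟩
      · have := (mem_filter.mp k).2
        rcases hj with ⟨p, -⟩ | ⟨-, p⟩ <;> rw [p] at this
        · exact hz' this.1
        · exact hz' this.2
    by_cases k : u ∈ W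
    · exact key v c.hv (by rw [c.pr_v]; tauto) tv
    · exact key u (c.hA c.hu) (by rw [c.pr_u]; exact k) tu
  have h10 := c.ein_eq W
  rw [← hL, ← hC] at h10
  unfold Fz ein at *
  by_cases a : W ∩ P = P
  · have a1 := h7 a
    have a2 := h9 a
    by_cases k1 : u ∈ W <;> by_cases k2 : v ∈ W <;> simp only [k1, k2, if_true, if_false, and_self,
      and_true, true_and, and_false, false_and, not_true, not_false_iff, forall_true_left] at * <;>
      omega
  · have a1 := fun k => h6 k a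
    by_cases k1 : u ∈ W <;> by_cases k2 : v ∈ W <;> simp only [k1, k2, if_true, if_false, and_self,
      and_true, true_and, and_false, false_and, not_true, not_false_iff, forall_true_left] at * <;>
      omega

theorem petal (na : NA G) (h : Pt G Z P) (hS : S ⊆ P) (sh : Sh G S) (hA : A ⊆ Z) {u v : V}
    (hu : u ∈ A) (hv : v ∈ Z) (hv' : v ∉ A) (tu : ∃ x ∈ P, Adj G u x) (tv : ∃ y ∈ P, Adj G v y) :
    ∃ E1 ⊆ eset G ((P \ S) ∪ Z) \ eset G Z, ∃ E2 ⊆ (eset G (P ∪ Z) \ eset G Z) \ eset G S,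
      Disjoint E1 E2 ∧
      (∀ (g : V → ZMod 2) (c : ZMod 2), (∀ e ∈ E1, g (G.s e) = g (G.t e)) → (∀ z ∈ Z, g z = c) →
        ∀ x ∈ P \ S, g x = c) ∧
      ∀ (g : V → ZMod 2) (c c' : ZMod 2), (∀ e ∈ E2, g (G.s e) = g (G.t e)) → (∀ z ∈ A, g z = c) →
        (∀ z ∈ Z, z ∉ A → g z = c') → c = c' ∧ ∀ x ∈ P, g x = c := by
  have c : PC G Z P A u v := ⟨h.dj, hA, hu, hv, hv'⟩
  have F1 := fun W hW => c.F_one na h tu tv (W := W) hW
  have FP := fun W hW => c.F_P (W := W) hW
  have mS := c.mem_some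
  have mN := c.mem_none (eset G (P ∪ Z) \ eset G Z)
  have eY := c.ein_eq (P ∪ {u, v})
  have shH : Sh (pH G (eset G (P ∪ Z) \ eset G Z) (pr A Z u v) u v) S := by
    rcases sh with a | ⟨x, y, a, rfl⟩
    · exact Or.inl a
    · exact Or.inr ⟨x, y, c.adj_P (hS (by simp)) (hS (by simp)) a, rfl⟩
  have auv : Adj (pH G (eset G (P ∪ Z) \ eset G Z) (pr A Z u v) u v) u v :=
    ⟨c.ne, none, Or.inl ⟨rfl, rfl⟩⟩
  have ends : ∀ e ∈ eset G (P ∪ Z) \ eset G Z,
      (pH G (eset G (P ∪ Z) \ eset G Z) (pr A Z u v) u v).s (some e) = pr A Z u v (G.s e) ∧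
      (pH G (eset G (P ∪ Z) \ eset G Z) (pr A Z u v) u v).t (some e) = pr A Z u v (G.t e) := by
    intro e he
    simp only [pH, Option.elim, he, if_true, and_self]
  have e0 : (pH G (eset G (P ∪ Z) \ eset G Z) (pr A Z u v) u v).s none = u ∧
      (pH G (eset G (P ∪ Z) \ eset G Z) (pr A Z u v) u v).t none = v := ⟨rfl, rfl⟩
  generalize pH G (eset G (P ∪ Z) \ eset G Z) (pr A Z u v) u v = H at *
  have uS : u ∉ S := fun k => c.uP (hS k)
  have vS : v ∉ S := fun k => c.vP (hS k)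
  have h0 : ∀ n, ∀ W ⊆ P ∪ {u, v}, W.card = n → W.Nonempty → 0 ≤ sg H S W := by
    intro n
    induction n using Nat.strong_induction_on with
    | _ n ih =>
    intro W hW hn hne
    rcases (W ∩ S).eq_empty_or_nonempty with hU | hU
    · have := sg_congr (G := H) (X := ∅) (disjoint_iff_inter_eq_empty.mpr hU)
      rw [empty_union] at this
      rw [this]
      exact sg_empty (fun B hB k => (F1 B hB).1 (card_pos.mpr k)) W hW hne
    by_cases k : ∃ w ∈ W \ S, u ∉ cmp H (W \ S) w ∧ v ∉ cmp H (W \ S) w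
    · obtain ⟨w, hw, k1, k2⟩ := k
      have a1 := peel (G := H) (T := W ∩ S) hw Subset.rfl (fun _ _ a ha _ => ha)
      have a2 : cmp H (W \ S) w ⊆ W \ S := cmp_sub
      have a3 : cmp H (W \ S) w ⊆ P := fun z hz => by
        have := hW (mem_sdiff.mp (a2 hz)).1
        simp only [mem_union, mem_insert, mem_singleton] at this
        rcases this with a | rfl | rfl
        · exact a
        · exact absurd hz k1
        · exact absurd hz k2
      have a4 : W ∩ S ⊆ P := inter_subset_right.trans hS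
      have a5 := na.hang1 sh (U := W ∩ S) (K := cmp H (W \ S) w) inter_subset_right hU
        ⟨w, self_cmp hw⟩ (disjoint_left.mpr fun z p q => (mem_sdiff.mp (a2 p)).2 (mem_inter.mp q).2)
      have a6 : 0 ≤ sg H S (W \ cmp H (W \ S) w) := by
        refine ih _ ?_ _ (sdiff_subset.trans hW) rfl ?_
        · rw [← hn]
          apply card_lt_card
          rw [ssubset_iff_of_subset sdiff_subset]
          exact ⟨w, (mem_sdiff.mp hw).1, fun q => (mem_sdiff.mp q).2 (self_cmp hw)⟩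
        · obtain ⟨z, hz⟩ := hU
          exact ⟨z, mem_sdiff.mpr ⟨(mem_inter.mp hz).1,
            fun q => (mem_sdiff.mp (a2 q)).2 (mem_inter.mp hz).2⟩⟩
      have a7 := FP _ (union_subset a3 a4)
      have a8 := FP _ a4
      unfold Fz at a1 a5
      omega
    push Not at k
    have b1 : cp H (W ∩ S) = 1 := shH.cp_eq inter_subset_right hU
    have b2 := F1 W hW
    have b3 := card_sdiff_add_card_inter W S
    have b4 := card_pos.mpr hU
    have b5 : cp H (W \ S) ≤ (W \ S).card := cp_le_card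
    have b6 : cp H (W \ S) ≤ 1 := by
      by_cases p : u ∈ W \ S
      · refine le_trans (cp_le_anch (R := {u}) fun w hw => ⟨u, mem_singleton_self _, ?_⟩) (by simp)
        by_cases q : u ∈ cmp H (W \ S) w
        · exact (mem_cmp.mp q).2
        · have := mem_cmp.mp (k w hw q)
          exact this.2.trans (Cn.adj this.1 p auv.symm)
      · refine le_trans (cp_le_anch (R := {v}) fun w hw => ⟨v, mem_singleton_self _, ?_⟩) (by simp)
        exact (mem_cmp.mp (k w hw fun q => p (cmp_sub q))).2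
    unfold sg
    omega
  have ht : Fz H (P ∪ {u, v}) + ein H S ≤ S.card := by
    have a1 : (eset G (P ∪ Z) \ eset G Z).filter (fun e => pr A Z u v (G.s e) ∈ P ∪ {u, v} ∧
        pr A Z u v (G.t e) ∈ P ∪ {u, v}) = eset G (P ∪ Z) \ eset G Z := by
      apply filter_true_of_mem
      intro e he
      have key : ∀ w ∈ P ∪ Z, pr A Z u v w ∈ P ∪ {u, v} := by
        intro w hw
        rcases mem_union.mp hw with a | a
        · rw [c.pr_P a]
          exact mem_union_left _ a
        · rcases c.pr_Z a with b | b <;> simp [b]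
      have := mem_eset.mp (mem_sdiff.mp he).1
      exact ⟨key _ this.2.1, key _ this.2.2⟩
    rw [a1, if_pos (by simp)] at eY
    have a2 := card_sdiff_add_card_eq_card (eset_mono (G := G) (subset_union_right : Z ⊆ P ∪ Z))
    have a3 := card_union_of_disjoint h.dj
    have a4 : (P ∪ {u, v}).card = P.card + 2 := by
      rw [card_union_of_disjoint (by simp [c.uP, c.vP]), card_pair c.ne]
    have a5 := h.h0
    have a6 := FP S hS
    have a7 := na.F_ge S
    have a8 := card_pos.mpr sh.ne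
    have a9 := sh.card_le
    unfold Fz ein at *
    omega
  obtain ⟨T1, t1, T2, t2, t3, t4, t5, t6⟩ := pk_trees' (G := H) (X := S) (Y := P ∪ {u, v})
    (hS.trans subset_union_left) (fun W hW => h0 _ W hW rfl) ht (g := none)
    ((mN _).mpr (by simp [uS, vS]))
  have t2' : ∀ o ∈ T2, o ∈ eset H (P ∪ {u, v}) ∧ o ∉ eset H S := fun o ho =>
    (@mem_sdiff _ (fun a b => Classical.propDecidable (a = b)) _ _ _).mp (t2 ho)
  have step : ∀ (T : Finset (Option E)) (W : Finset V), T ⊆ eset H W → ∀ g : V → ZMod 2,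
      (∀ w, g (pr A Z u v w) = g w) → (none ∈ T → g u = g v) →
      (∀ e ∈ univ.filter (fun e => some e ∈ T), g (G.s e) = g (G.t e)) →
      ∀ o ∈ T, g (H.s o) = g (H.t o) := by
    intro T W hT g g1 g2 g3 o ho
    cases o with
    | none => rw [e0.1, e0.2, g2 ho]
    | some e =>
      have := ends e ((mS _ _).mp (hT ho)).1
      rw [this.1, this.2, g1, g1]
      exact g3 e (by simpa using ho)
  refine ⟨univ.filter (fun e => some e ∈ T1), fun e he => ?_, univ.filter (fun e => some e ∈ T2),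
    fun e he => ?_, ?_, fun g k g1 g2 x hx => ?_, fun g k k' g1 g2 g3 => ?_⟩
  · obtain ⟨a, b, d⟩ := (mS _ _).mp (t1 (mem_filter.mp he).2)
    have key : ∀ w ∈ P ∪ Z, pr A Z u v w ∉ S → w ∈ P \ S ∪ Z := by
      intro w hw p
      rcases mem_union.mp hw with q | q
      · rw [c.pr_P q] at p
        exact mem_union_left _ (mem_sdiff.mpr ⟨q, p⟩)
      · exact mem_union_right _ q
    have a1 := mem_eset.mp (mem_sdiff.mp a).1
    exact mem_sdiff.mpr ⟨mem_eset.mpr ⟨a1.1, key _ a1.2.1 (mem_sdiff.mp b).2,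
      key _ a1.2.2 (mem_sdiff.mp d).2⟩, (mem_sdiff.mp a).2⟩
  · have a := t2' _ (mem_filter.mp he).2
    have b := ((mS _ _).mp a.1).1
    refine mem_sdiff.mpr ⟨b, fun q => a.2 ((mS _ _).mpr ⟨b, ?_⟩)⟩
    have := mem_eset.mp q
    rw [c.pr_P (hS this.2.1), c.pr_P (hS this.2.2)]
    exact this.2
  · exact disjoint_left.mpr fun e a b =>
      disjoint_left.mp t4 (mem_filter.mp a).2 (mem_filter.mp b).2
  · have gu := g2 u (hA hu)
    have gv := g2 v hv
    have := t5 g (step T1 _ t1 g (fun w => by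
      unfold pr
      split_ifs with p q
      · rw [gu, g2 w (hA p)]
      · rw [gv, g2 w q]
      · rfl) (fun _ => by rw [gu, gv]) g1) x
      (mem_sdiff.mpr ⟨mem_union_left _ (mem_sdiff.mp hx).1, (mem_sdiff.mp hx).2⟩) u (by simp [uS])
    rw [this, gu]
  · have gu := g2 u hu
    have gv := g3 v hv hv'
    have := t6 g (step T2 _ (fun o ho => (t2' o ho).1) g (fun w => by
      unfold pr
      split_ifs with p q
      · rw [gu, g2 w p]
      · rw [gv, g3 w q p]
      · rfl) (fun p => absurd p t3) g1)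
    refine ⟨?_, fun x hx => ?_⟩
    · rw [← gu, ← gv]
      exact this u (by simp) v (by simp)
    · rw [← gu]
      exact this x (mem_union_left _ hx) u (by simp)

end

end Pool.Agent.Lib.CF64
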