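import Pool.Agent.Lib.CF53.FinCp

set_option linter.unusedSectionVars false
set_option linter.unusedVariables false
set_option linter.unusedSimpArgs false

namespace Pool.Agent.Lib.CF64

open Finset Pool.Agent.Lib.MP_aa6b05_co Pool.Agent.Lib.MP_aa6b05_co.MG

open scoped Classical

noncomputable section

variable {V E : Type} [Fintype V] [Fintype E] {G : MG V E}

variable {W X Y S : Finset V} {T : Finset E}

theorem Con.cc_le (h : Con G W T) : cc G W T ≤ 1 := by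
  rcases W.eq_empty_or_nonempty with rfl | ⟨a, ha⟩
  · exact (CF64.cc_le (G := G) ∅ (by simp)).trans (by simp)
  · refine (CF64.cc_le (G := G) {a} fun g hg h0 v hv => ?_).trans (by simp)
    rw [h g hg.2 v hv a ha, h0 a (by simp)]

theorem con_of_cc (hT : ∀ e ∈ T, (G.s e ∈ W ↔ G.t e ∈ W)) (h : cc G W T ≤ 1) : Con G W T := by
  intro g hg a ha b hb
  have := const_of_cc hT h (g := fun v => if v ∈ W then g v else 0)
    ⟨fun v hv => if_neg hv, fun e he => by simp only [hT e he, hg e he]⟩ ha hb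
  simpa [ha, hb] using this

theorem eset_iff {e : E} (h : e ∈ eset G W) : (G.s e ∈ W ↔ G.t e ∈ W) := by
  have := mem_eset.mp h
  simp only [this.2.1, this.2.2]

theorem ein_part {α : Type} [DecidableEq α] (κ : V → α) (A : Finset V) (I : Finset α)
    (hI : ∀ v ∈ A, κ v ∈ I) : ein G A = ∑ r ∈ I, ein G (A.filter (fun v => κ v = r)) +
      ((eset G A).filter (fun e => κ (G.s e) ≠ κ (G.t e))).card := by
  have h1 := card_filter_add_card_filter_not (s := eset G A) (fun e => κ (G.s e) = κ (G.t e))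
  have h2 := card_eq_sum_card_fiberwise (f := fun e => κ (G.s e))
    (s := (eset G A).filter (fun e => κ (G.s e) = κ (G.t e))) (t := I)
    (fun e he => hI _ (mem_eset.mp (mem_filter.mp he).1).2.1)
  have h3 : ∀ r ∈ I, (((eset G A).filter (fun e => κ (G.s e) = κ (G.t e))).filter
      (fun e => κ (G.s e) = r)).card = ein G (A.filter (fun v => κ v = r)) := by
    intro r _
    unfold ein
    congr 1
    ext e
    simp only [mem_filter, mem_eset]
    constructor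
    · rintro ⟨⟨⟨a, b, c⟩, d⟩, f⟩
      exact ⟨a, ⟨b, f⟩, c, d ▸ f⟩
    · rintro ⟨a, ⟨b, f⟩, c, d⟩
      exact ⟨⟨⟨a, b, c⟩, f.trans d.symm⟩, f⟩
  rw [sum_congr rfl h3] at h2
  unfold ein at *
  simp only [ne_eq]
  omega

theorem pk_cond (hX : X ⊆ Y) (h0 : ∀ W ⊆ Y, W.Nonempty → 0 ≤ sg G X W)
    (ht : Fz G Y + ein G X ≤ X.card) (D : Finset E) (hD : D ⊆ eset G (Y \ X)) :
    cc G (Y \ X) (eset G (Y \ X) \ D) + cc G Y ((eset G Y \ eset G X) \ D) ≤ D.card + 2 := by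
  obtain ⟨κ, k1, k2⟩ := exists_rep (G := G) ((eset G Y \ eset G X) \ D)
  set I := Y.image κ with hI
  let P : V → Finset V := fun r => Y.filter (fun v => κ v = r)
  have c2 : cc G Y ((eset G Y \ eset G X) \ D) ≤ I.card :=
    cc_le_image fun h hh x _ y _ e => by rw [← k2 _ h hh.2 x, e, k2 _ h hh.2 y]
  set S0 := (eset G (Y \ X)).filter (fun e => κ (G.s e) = κ (G.t e)) with hS0
  have c1 := cc_drop (G := G) (W := Y \ X) (eset G (Y \ X) \ D) (D ∩ S0)
  have c3 : cc G (Y \ X) (eset G (Y \ X) \ D ∪ D ∩ S0) ≤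
      ((Y \ X).image (fun v => cmp G (P (κ v) \ X) v)).card := by
    refine cc_le_image fun h hh x hx y hy e => ?_
    have m : y ∈ P (κ y) \ X :=
      mem_sdiff.mpr ⟨mem_filter.mpr ⟨(mem_sdiff.mp hy).1, rfl⟩, (mem_sdiff.mp hy).2⟩
    have m' : y ∈ cmp G (P (κ x) \ X) x := by
      rw [e]
      exact self_cmp m
    refine zsp_cn (fun g hg => ?_) hh (mem_cmp.mp m').2
    obtain ⟨a1, a2, a3⟩ := mem_eset.mp hg
    simp only [P, mem_sdiff, mem_filter] at a2 a3
    have a4 : g ∈ eset G (Y \ X) :=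
      mem_eset.mpr ⟨a1, mem_sdiff.mpr ⟨a2.1.1, a2.2⟩, mem_sdiff.mpr ⟨a3.1.1, a3.2⟩⟩
    by_cases c : g ∈ D
    · exact mem_union_right _ (mem_inter.mpr ⟨c, mem_filter.mpr ⟨a4, a2.1.2.trans a3.1.2.symm⟩⟩)
    · exact mem_union_left _ (mem_sdiff.mpr ⟨a4, c⟩)
  have c4 : ((Y \ X).image (fun v => cmp G (P (κ v) \ X) v)).card ≤ ∑ r ∈ I, cp G (P r \ X) := by
    refine le_trans (card_le_card ?_)
      (card_biUnion_le (s := I) (t := fun r => (P r \ X).image (cmp G (P r \ X))))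
    intro z hz
    obtain ⟨v, hv, rfl⟩ := mem_image.mp hz
    obtain ⟨a, b⟩ := mem_sdiff.mp hv
    exact mem_biUnion.mpr ⟨κ v, mem_image_of_mem _ a,
      mem_image_of_mem _ (mem_sdiff.mpr ⟨mem_filter.mpr ⟨a, rfl⟩, b⟩)⟩
  have e1 := ein_part (G := G) κ Y I fun v hv => mem_image_of_mem _ hv
  have e2 := ein_part (G := G) κ X I fun v hv => mem_image_of_mem _ (hX hv)
  have e3 := card_eq_sum_card_fiberwise (f := κ) (s := Y) (t := I) fun v hv => mem_image_of_mem _ hv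
  have e4 := card_eq_sum_card_fiberwise (f := κ) (s := X) (t := I)
    fun v hv => mem_image_of_mem _ (hX hv)
  have e5 : ((eset G Y).filter (fun e => κ (G.s e) ≠ κ (G.t e))).card ≤
      (D \ S0).card + ((eset G X).filter (fun e => κ (G.s e) ≠ κ (G.t e))).card := by
    refine le_trans (card_le_card ?_) (card_union_le _ _)
    intro e he
    obtain ⟨a, b⟩ := mem_filter.mp he
    by_cases c : e ∈ eset G X
    · exact mem_union_right _ (mem_filter.mpr ⟨c, b⟩)
    by_cases d : e ∈ D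
    · exact mem_union_left _ (mem_sdiff.mpr ⟨d, fun k => b (mem_filter.mp k).2⟩)
    · exact absurd (k1 e (mem_sdiff.mpr ⟨mem_sdiff.mpr ⟨a, c⟩, d⟩)) b
  have e6 := card_inter_add_card_sdiff D S0
  have s1 : ∑ r ∈ I, (cp G (P r \ X) + (X.filter (fun v => κ v = r)).card + 1 + ein G (P r)) ≤
      ∑ r ∈ I, (2 * (P r).card + ein G (X.filter (fun v => κ v = r))) := by
    refine sum_le_sum fun r hr => ?_
    obtain ⟨v, hv, rfl⟩ := mem_image.mp hr
    have a := h0 (P (κ v)) (filter_subset _ _) ⟨v, mem_filter.mpr ⟨hv, rfl⟩⟩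
    have b : P (κ v) ∩ X = X.filter (fun w => κ w = κ v) := by
      ext w
      have := @hX w
      simp only [P, mem_inter, mem_filter]
      tauto
    have c := cp_ge (G := G) (P (κ v) ∩ X)
    unfold sg Fz at a
    rw [b] at a c
    omega
  simp only [sum_add_distrib, ← mul_sum, sum_const, smul_eq_mul, mul_one] at s1
  simp only [P] at s1 c4 c3
  unfold Fz at ht
  omega

theorem pk_fin {L1 L2 : Finset E} (hne : (Y \ X).Nonempty) (l1 : L1 ⊆ eset G (Y \ X))
    (l2 : L2 ⊆ eset G Y)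
    (h : ∀ D ⊆ L1 ∩ L2, cc G (Y \ X) (L1 \ D) + cc G Y (L2 \ D) ≤ D.card + 2) :
    ∃ T1 ⊆ L1, ∃ T2 ⊆ L2, Disjoint T1 T2 ∧ Con G (Y \ X) T1 ∧ Con G Y T2 := by
  obtain ⟨T1, t1, T2, t2, t3, t4⟩ := pack _ _ (cc_super (G := G) (Y \ X)) (cc_super (G := G) Y)
    2 _ _ _ rfl h
  have a1 : ∀ e ∈ T1, (G.s e ∈ Y \ X ↔ G.t e ∈ Y \ X) := fun e he => eset_iff (l1 (t1 he))
  have a2 : ∀ e ∈ T2, (G.s e ∈ Y ↔ G.t e ∈ Y) := fun e he => eset_iff (l2 (t2 he))
  have n1 := one_le_cc hne a1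
  have n2 := one_le_cc (hne.mono sdiff_subset) a2
  exact ⟨T1, t1, T2, t2, t3, con_of_cc a1 (by omega), con_of_cc a2 (by omega)⟩

theorem pk_trees (hX : X ⊆ Y) (hne : (Y \ X).Nonempty) (h0 : ∀ W ⊆ Y, W.Nonempty → 0 ≤ sg G X W)
    (ht : Fz G Y + ein G X ≤ X.card) : ∃ T1 ⊆ eset G (Y \ X), ∃ T2 ⊆ eset G Y \ eset G X,
      Disjoint T1 T2 ∧ Con G (Y \ X) T1 ∧ Con G Y T2 :=
  pk_fin hne Subset.rfl sdiff_subset fun D hD => pk_cond hX h0 ht D (hD.trans inter_subset_left)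

theorem cc_anti {T' : Finset E} (h : T ⊆ T') : cc G W T' ≤ cc G W T :=
  Submodule.finrank_mono fun g hg => ⟨hg.1, fun e he => hg.2 e (h he)⟩

/-- the same with one edge `g` of `Y \ X` kept out of the second set -/
theorem pk_trees' (hX : X ⊆ Y) (h0 : ∀ W ⊆ Y, W.Nonempty → 0 ≤ sg G X W)
    (ht : Fz G Y + ein G X ≤ X.card) {g : E} (hg : g ∈ eset G (Y \ X)) :
    ∃ T1 ⊆ eset G (Y \ X), ∃ T2 ⊆ eset G Y \ eset G X, g ∉ T2 ∧
      Disjoint T1 T2 ∧ Con G (Y \ X) T1 ∧ Con G Y T2 := by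
  obtain ⟨g1, g2, g3⟩ := mem_eset.mp hg
  obtain ⟨T1, t1, T2, t2, t3⟩ := pk_fin (G := G) (L1 := eset G (Y \ X))
    (L2 := (eset G Y \ eset G X).erase g) ⟨_, g2⟩ Subset.rfl
    ((erase_subset _ _).trans sdiff_subset) (by
    intro D hD
    have d1 : D ⊆ eset G (Y \ X) := hD.trans inter_subset_left
    have d2 : g ∉ D := fun c => (mem_erase.mp (mem_inter.mp (hD c)).2).1 rfl
    by_cases c : ∀ h ∈ zsp G Y ((eset G Y \ eset G X).erase g \ D), h (G.s g) = h (G.t g)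
    · have a := pk_cond hX h0 ht D d1
      have b : cc G Y ((eset G Y \ eset G X).erase g \ D) ≤ cc G Y ((eset G Y \ eset G X) \ D) := by
        refine Submodule.finrank_mono fun h hh => ⟨hh.1, fun e he => ?_⟩
        by_cases k : e = g
        · exact k ▸ c h hh
        · exact hh.2 e (mem_sdiff.mpr ⟨mem_erase.mpr ⟨k, (mem_sdiff.mp he).1⟩, (mem_sdiff.mp he).2⟩)
      omega
    · push Not at c
      obtain ⟨h, hh, c⟩ := c
      have a := pk_cond hX h0 ht (insert g D) (insert_subset hg d1)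
      rw [card_insert_of_notMem d2] at a
      have e1 : (eset G Y \ eset G X) \ insert g D = (eset G Y \ eset G X).erase g \ D := by
        ext e
        simp only [mem_sdiff, mem_insert, mem_erase]
        tauto
      rw [e1] at a
      have b : cc G (Y \ X) (eset G (Y \ X) \ D) < cc G (Y \ X) (eset G (Y \ X) \ insert g D) := by
        refine Submodule.finrank_lt_finrank_of_lt (lt_of_le_of_ne (fun p hp => ⟨hp.1, fun e he =>
          hp.2 e (sdiff_subset_sdiff Subset.rfl (subset_insert _ _) he)⟩) fun k => c ?_)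
        have m : (fun v => if v ∈ Y \ X then h v else 0) ∈
            zsp G (Y \ X) (eset G (Y \ X) \ insert g D) := by
          refine ⟨fun v hv => if_neg hv, fun e he => ?_⟩
          obtain ⟨b1, b2⟩ := mem_sdiff.mp he
          obtain ⟨b3, b4, b5⟩ := mem_eset.mp b1
          simp only [b4, b5, if_true]
          refine hh.2 e (e1 ▸ mem_sdiff.mpr ⟨mem_sdiff.mpr ⟨eset_mono sdiff_subset b1, fun q =>
            (mem_sdiff.mp b4).2 (mem_eset.mp q).2.1⟩, b2⟩)
        rw [← k] at m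
        simpa only [g2, g3, if_true] using m.2 g (mem_sdiff.mpr ⟨hg, d2⟩)
      omega)
  exact ⟨T1, t1, T2, t2.trans (erase_subset _ _), fun c => (mem_erase.mp (t2 c)).1 rfl, t3⟩

theorem df_same {M : Type} [AddCommMonoid M] {G' : MG V E} {J : E → M}
    (h : ∀ e, J e ≠ 0 → G'.s e = G.s e ∧ G'.t e = G.t e) (v : V) : G'.df J v = G.df J v := by
  unfold df cut
  rw [sum_filter, sum_filter]
  refine sum_congr rfl fun e _ => ?_
  by_cases c : J e = 0
  · simp [c]
  · rw [(h e c).1, (h e c).2]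

theorem Ev.empty (u : V → ZMod 2) : Ev G u ∅ := ⟨∅, empty_subset _, by simp⟩

theorem ind_union {M M' : Finset E} (h : Disjoint M M') :
    ind (M ∪ M') = fun e => ind M e + ind M' e := by
  ext e
  have := @disjoint_left.mp h e
  unfold ind
  by_cases a : e ∈ M <;> by_cases b : e ∈ M' <;> simp_all

theorem df_ind_union {M M' : Finset E} (dj : Disjoint X S) (m : M ⊆ eset G X) (m' : M' ⊆ eset G S)
    {u : V → ZMod 2} (h : ∀ v ∈ X, G.df (ind M) v = u v) (h' : ∀ v ∈ S, G.df (ind M') v = u v) :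
    ∀ v ∈ X ∪ S, G.df (ind (M ∪ M')) v = u v := by
  intro v hv
  rw [ind_union (disjoint_left.mpr fun e a b =>
    disjoint_left.mp dj (mem_eset.mp (m a)).2.1 (mem_eset.mp (m' b)).2.1), df_add]
  rcases mem_union.mp hv with a | a
  · rw [h v a, df_ind_off m' (disjoint_left.mp dj a), add_zero]
  · rw [h' v a, df_ind_off m (disjoint_right.mp dj a), zero_add]

theorem Ev.union {u : V → ZMod 2} (dj : Disjoint X S) (h : Ev G u X) (h' : Ev G u S) :
    Ev G u (X ∪ S) := by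
  obtain ⟨M, m, h⟩ := h
  obtain ⟨M', m', h'⟩ := h'
  exact ⟨M ∪ M', union_subset (m.trans (eset_mono subset_union_left))
    (m'.trans (eset_mono subset_union_right)), df_ind_union dj m m' h h'⟩

theorem exists_item (u : V → ZMod 2) {x y : V} (h : Adj G x y) :
    ∃ S ⊆ ({x, y} : Finset V), Sh G S ∧ Ev G u S := by
  have z : ∀ i : ZMod 2, i ≠ 0 → i = 1 := by decide
  by_cases a : u x = 0
  · exact ⟨{x}, by simp, Or.inl ⟨x, rfl⟩, ∅, empty_subset _, by simp [df_ind_empty, a]⟩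
  by_cases b : u y = 0
  · exact ⟨{y}, by simp, Or.inl ⟨y, rfl⟩, ∅, empty_subset _, by simp [df_ind_empty, b]⟩
  obtain ⟨n, e, j⟩ := h
  refine ⟨{x, y}, Subset.rfl, Or.inr ⟨x, y, ⟨n, e, j⟩, rfl⟩, {e},
    singleton_subset_iff.mpr ((mem_eset_j j n).mpr (by simp)), fun v hv => ?_⟩
  rw [df_ind_single j]
  simp only [mem_insert, mem_singleton] at hv
  rcases hv with rfl | rfl
  · simp [n, z _ a]
  · simp [n.symm, z _ b]

theorem sub_hN (e : E) (h : (sub G Y).s e ≠ (sub G Y).t e) : (sub G Y).s e ∈ Y ∧ (sub G Y).t e ∈ Y := by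
  have := sub_ne.mp h
  simp only [sub, this, if_true]
  exact (mem_eset.mp this).2

theorem sub_st {e : E} (h : e ∈ eset G Y) : (sub G Y).s e = G.s e ∧ (sub G Y).t e = G.t e := by
  simp [sub, h]

theorem UU_sub_off {β : V → K} (hβ : ∀ v, v ∉ Y → β v = 0) (x : K) (v : V) (hv : v ∉ Y) :
    UU (sub G Y) β x v = 0 := by
  have : (sub G Y).d {v} = 0 := d_zero sub_hN fun u hu hu' => hv ((show u = v from hu') ▸ hu)
  simp [UU, hβ v hv, this, lam]

theorem feas_final {X1 X2 : Finset V} {T1 T2 M1 M2 : Finset E} {β : V → K}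
    (hβ : ∀ v, v ∉ Y → β v = 0) (hs : ∑ v, β v = 0) (h1 : X1 ⊆ Y) (h2 : X2 ⊆ Y)
    (t1 : T1 ⊆ eset G (Y \ X1)) (t2 : T2 ⊆ eset G (Y \ X2)) (m1 : M1 ⊆ eset G X1)
    (m2 : M2 ⊆ eset G X2) (dj : Disjoint (T1 ∪ M1) (T2 ∪ M2)) (c1 : Con G (Y \ X1) T1)
    (c2 : Con G (Y \ X2) T2) (e1 : ∀ v ∈ X1, G.df (ind M1) v = UU (sub G Y) β .k1 v)
    (e2 : ∀ v ∈ X2, G.df (ind M2) v = UU (sub G Y) β .k2 v) : Feas (sub G Y) β := by
  obtain ⟨J1, j1, j2⟩ := join_with m1 h1 t1 c1.cc_le _ (UU_sub_off hβ .k1)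
    (UU_sum hs (by decide)) e1
  obtain ⟨J2, j3, j4⟩ := join_with m2 h2 t2 c2.cc_le _ (UU_sub_off hβ .k2)
    (UU_sum hs (by decide)) e2
  have a1 : ∀ e, J1 e ≠ 0 → e ∈ T1 ∪ M1 := fun e he => by
    by_contra c
    exact he (j1 e (fun k => c (mem_union_left _ k)) fun k => c (mem_union_right _ k))
  have a2 : ∀ e, J2 e ≠ 0 → e ∈ T2 ∪ M2 := fun e he => by
    by_contra c
    exact he (j3 e (fun k => c (mem_union_left _ k)) fun k => c (mem_union_right _ k))
  refine feas_of_joins (a := .k1) (b := .k2) (J1 := J1) (J2 := J2) (by decide) (by decide)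
    (by decide) (fun e => ?_) (fun v => ?_) fun v => ?_
  · by_contra c
    push Not at c
    exact disjoint_left.mp dj (a1 e c.1) (a2 e c.2)
  · rw [← j2 v]
    exact df_same (fun e he => sub_st (union_subset (t1.trans (eset_mono sdiff_subset))
      (m1.trans (eset_mono h1)) (a1 e he))) v
  · rw [← j4 v]
    exact df_same (fun e he => sub_st (union_subset (t2.trans (eset_mono sdiff_subset))
      (m2.trans (eset_mono h2)) (a2 e he))) v

theorem feas_items {β : V → K} (hβ : ∀ v, v ∉ Y → β v = 0) (hs : ∑ v, β v = 0) (hX : X ⊆ Y)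
    (hne : (Y \ X).Nonempty) (h0 : ∀ W ⊆ Y, W.Nonempty → 0 ≤ sg G X W)
    (ht : Fz G Y + ein G X ≤ X.card) (ev : Ev G (UU (sub G Y) β .k1) X) : Feas (sub G Y) β := by
  obtain ⟨T1, t1, T2, t2, t3, t4, t5⟩ := pk_trees hX hne h0 ht
  obtain ⟨M, m, ev⟩ := ev
  refine feas_final (X2 := ∅) (M2 := ∅) hβ hs hX (empty_subset _) t1
    (by simpa using t2.trans sdiff_subset) m (empty_subset _) ?_ t4 (by simpa using t5) ev (by simp)
  rw [union_empty, disjoint_union_left]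
  exact ⟨t3, disjoint_left.mpr fun e a b => (mem_sdiff.mp (t2 b)).2 (m a)⟩

theorem NA.F_ge (h : NA G) (A : Finset V) : (1 ≤ A.card → 0 ≤ Fz G A) ∧ (2 ≤ A.card → 1 ≤ Fz G A) ∧
    (3 ≤ A.card → 2 ≤ Fz G A) ∧ (4 ≤ A.card → 3 ≤ Fz G A) := by
  have h1 := h.gi.F_small A
  have h2 : 6 ≤ A.card → 3 ≤ Fz G A := fun c => by
    by_contra k
    obtain ⟨Y, -, sp⟩ := exists_sp (f := 2) h.gi le_rfl (by omega) c (by push_cast; omega)
    exact h.na Y ⟨by have := sp.ten; omega, fun β b1 b2 => feas2 sp b1 b2⟩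
  omega

theorem NA.F0 (h : NA G) {A : Finset V} (hA : A.Nonempty) : 0 ≤ Fz G A :=
  (h.F_ge A).1 (card_pos.mpr hA)

theorem NA.hang1 (h : NA G) (sh : Sh G S) {U K : Finset V} (hU : U ⊆ S) (hne : U.Nonempty)
    (hK : K.Nonempty) (dj : Disjoint K U) : Fz G U + 1 ≤ Fz G (K ∪ U) := by
  have h1 := sh.F_le hU hne
  have h2 := h.F_ge (K ∪ U)
  have h3 := card_union_of_disjoint dj
  have h4 := card_pos.mpr hK
  have h5 := card_pos.mpr hne
  have h6 := (card_le_card hU).trans sh.card_le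
  omega

/-- vertices with two neighbours in `R` -/
theorem Gi.two_nb (gi : Gi G) {R Q : Finset V} (h : ∀ v ∈ Q, 2 ≤ dg G v R) :
    Q.card ≤ R.card * R.card := by
  rw [← card_product]
  refine card_le_card_of_forall_subsingleton
    (fun v (p : V × V) => p.1 ≠ p.2 ∧ Adj G v p.1 ∧ Adj G v p.2) (fun v hv => ?_) ?_
  · obtain ⟨a, ha, a1⟩ := dg_pos.mp (show 0 < dg G v R by have := h v hv; omega)
    obtain ⟨b, hb, b1, b2⟩ := exists_adj_ne (h v hv) a
    exact ⟨(a, b), mem_product.mpr ⟨ha, hb⟩, b2.symm, a1, b1⟩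
  · rintro ⟨a, b⟩ - v ⟨-, n, v1, v2⟩ w ⟨-, -, w1, w2⟩
    exact gi.quad v1.symm v2 w2.symm w1 n

end

end Pool.Agent.Lib.CF64
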