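import Pool.Agent.Lib.CF53.FinEb
import Pool.Agent.Lib.CF53.FinGpt

set_option linter.unusedSectionVars false
set_option linter.unusedVariables false
set_option linter.unusedSimpArgs false

namespace Pool.Agent.Lib.CF64

open Finset Pool.Agent.Lib.MP_aa6b05_co Pool.Agent.Lib.MP_aa6b05_co.MG

open scoped Classical

noncomputable section

variable {V E : Type} [Fintype V] [Fintype E] {G : MG V E}

theorem sub_nb {Y S : Finset V} (h : S ⊆ Y) : S ⊆ nb G Y S :=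
  fun v hv => mem_nb.mpr ⟨h hv, Or.inl hv⟩

theorem neg_count (na : NA G) {Z : Finset V} (hZ : Z.Nonempty) {ι : Type} (Q : ι → Finset V)
    (J : Finset ι) (dj : ∀ i ∈ J, ∀ j ∈ J, i ≠ j → Disjoint (Q i) (Q j))
    (h : ∀ i ∈ J, Fz G (Q i ∪ Z) + 1 ≤ Fz G Z) : (J.card : ℤ) ≤ Fz G Z := by
  have key : Fz G (J.biUnion Q ∪ Z) + J.card ≤ Fz G Z := by
    induction J using Finset.induction_on with
    | empty => simp
    | insert i J hi ih =>
      have a1 := ih (fun a ha b hb => dj a (mem_insert_of_mem ha) b (mem_insert_of_mem hb))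
        fun a ha => h a (mem_insert_of_mem ha)
      have a2 := h i (mem_insert_self _ _)
      have a3 := Fz_sub (G := G) (Q i ∪ Z) (J.biUnion Q ∪ Z)
      have a4 : Disjoint (Q i) (J.biUnion Q) := (disjoint_biUnion_right _ _ _).mpr fun j hj =>
        dj i (mem_insert_self _ _) j (mem_insert_of_mem hj) fun e => hi (e ▸ hj)
      rw [← union_union_distrib_right, ← inter_union_distrib_right,
        disjoint_iff_inter_eq_empty.mp a4, empty_union] at a3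
      rw [biUnion_insert, card_insert_of_notMem hi]
      push_cast
      omega
  have := na.F0 (hZ.mono (subset_union_right : Z ⊆ J.biUnion Q ∪ Z))
  omega

theorem seqJ (n m t : ℕ) : ∃ b : ℕ, ∀ {V E : Type} [Fintype V] [Fintype E] (G : MG V E), NA G →
    ∀ (Y X τ Z : Finset V) (PP : Finset (Finset V)) (s : ℤ) (Wf : Finset V → Finset V),
      Pl G Y X PP → 1 ≤ m → 1 ≤ s → (nb G Y X).card ≤ n → (∀ C ⊆ Y, C.Nonempty → 0 ≤ sg G X C) →
      (∀ C ⊆ Y, m ≤ (C ∩ PP.biUnion (nb G Y)).card → s ≤ sg G X C) → τ.Nonempty →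
      (∀ C ⊆ Y, τ ⊆ C → sg G X C ≤ 0 → C ⊆ Z) → ∀ (B : Finset V) (FF : Finset (Finset V)),
      FF ⊆ PP → τ ⊆ B → (∀ S ∈ FF, MinV G Y X S ∅ 0 (-1) (Wf S) ∧ Wf S ∩ (∅ ∪ nb G Y X) = τ ∧
        Disjoint S B) → b ≤ FF.card →
      ∃ J ⊆ FF, (t : ℤ) ≤ J.card + Fz G B ∧ (∀ S ∈ J, Wf S ∩ B ⊆ Z) ∧
        ∀ S ∈ J, ∀ S' ∈ J, S ≠ S' → Wf S ∩ Wf S' ⊆ Z := by
  induction t with
  | zero =>
    exact ⟨0, fun G na Y X τ Z PP s Wf pl hm hs hn i0 i1 hτ hZ B FF h1 h2 h3 _ =>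
      ⟨∅, empty_subset _, by simpa using na.F0 (hτ.mono h2), by simp, by simp⟩⟩
  | succ t ih =>
  obtain ⟨b, ih⟩ := ih
  obtain ⟨Be, eb⟩ := ebad ((b + m) * 14 + n)
  refine ⟨b + m + Be + 1, fun G na Y X τ Z PP s Wf pl hm hs hn i0 i1 hτ hZ B FF h1 h2 h3 h4 => ?_⟩
  obtain ⟨QQ, q1, q2⟩ := exists_subset_card_eq (s := FF) (n := b + m) (by omega)
  set N0 := QQ.biUnion (nb G Y) with hN0
  have n1 : N0.card ≤ (b + m) * 14 :=
    q2 ▸ card_biUnion_le_card_mul _ _ _ fun S hS => pl.low S (h1 (q1 hS))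
  obtain ⟨S, s1, s2⟩ : ∃ S ∈ FF \ QQ, ¬ ∃ C ⊆ Y, m ≤ (C ∩ N0).card ∧ sg G (X ∪ S) C ≤ s - 2 := by
    by_contra c
    push Not at c
    have a1 := eb G na Y X N0 (FF \ QQ) m s (pl.mono (sdiff_subset.trans h1)) hm
      ((card_union_le _ _).trans (by omega)) (fun C c1 c2 => i1 C c1 (c2.trans (card_le_card
        (inter_subset_inter_left (biUnion_subset_biUnion_of_subset_left _ (q1.trans h1)))))) c
    have a2 := card_sdiff_add_card_eq_card q1
    omega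
  obtain ⟨s3, s4⟩ := mem_sdiff.mp s1
  obtain ⟨w, w1, w2⟩ := h3 S s3
  have a1 : (Wf S ∩ N0).card < m := by
    by_contra c
    exact s2 ⟨Wf S, w.sub, not_lt.mp c, by have := w.vio; omega⟩
  have a2 := few_meet (PP := QQ) (R := Wf S ∩ N0) fun S a S' b c =>
    (pl.far S (h1 (q1 a)) S' (h1 (q1 b)) c).dj
  have a3 := card_filter_add_card_filter_not (s := QQ) (fun S' => Disjoint S' (Wf S ∩ N0))
  obtain ⟨J, j1, j2, j3, j4⟩ := ih G na Y X τ Z PP s Wf pl hm hs hn i0 i1 hτ hZ (B ∪ Wf S)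
    (QQ.filter (fun S' => Disjoint S' (Wf S ∩ N0))) ((filter_subset _ _).trans (q1.trans h1))
    (h2.trans subset_union_left) (fun S' hS' => by
      obtain ⟨b1, b2⟩ := mem_filter.mp hS'
      obtain ⟨b3, b4, b5⟩ := h3 S' (q1 b1)
      refine ⟨b3, b4, disjoint_union_right.mpr ⟨b5, disjoint_left.mpr fun v c d => ?_⟩⟩
      exact disjoint_left.mp b2 c (mem_inter.mpr ⟨d,
        mem_biUnion.mpr ⟨S', b1, sub_nb (pl.sub S' (h1 (q1 b1))) c⟩⟩)) (by omega)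
  have j5 : J ⊆ QQ := j1.trans (filter_subset _ _)
  have t1 : τ ⊆ Wf S ∩ B := subset_inter (w1 ▸ inter_subset_left) h2
  have c1 := w.up2 (Wf S ∩ B) inter_subset_left (w1 ▸ t1) (w2.symm.mono_left inter_subset_right)
  have c2 := Fz_sub (G := G) B (Wf S)
  rw [inter_comm] at c2
  have c3 := i0 (Wf S ∩ B) (inter_subset_left.trans w.sub) (hτ.mono t1)
  have j6 : ∀ S' ∈ J, Wf S' ∩ B ⊆ Z := fun S' h =>
    (inter_subset_inter_left subset_union_left).trans (j3 S' h)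
  by_cases c : sg G X (Wf S ∩ B) ≤ 0
  · have c4 := hZ _ (inter_subset_left.trans w.sub) t1 c
    have j7 : ∀ S' ∈ J, Wf S' ∩ Wf S ⊆ Z := fun S' h =>
      (inter_subset_inter_left subset_union_right).trans (j3 S' h)
    refine ⟨insert S J, insert_subset s3 (j5.trans q1), ?_, ?_, ?_⟩
    · rw [card_insert_of_notMem fun k => s4 (j5 k)]
      push_cast
      omega
    · intro S' h
      rcases mem_insert.mp h with rfl | h
      · exact c4
      · exact j6 S' h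
    · intro S1 h S2 h' k
      rcases mem_insert.mp h with a | a <;> rcases mem_insert.mp h' with a' | a'
      · exact absurd (a.trans a'.symm) k
      · rw [a, inter_comm]
        exact j7 S2 a'
      · rw [a']
        exact j7 S1 a
      · exact j4 S1 a S2 a' k
  · exact ⟨J, j5.trans q1, by push_cast; omega, j6, j4⟩

theorem tight_F (na : NA G) {Y X τ Z : Finset V} (hX : X ⊆ Y)
    (i0 : ∀ C ⊆ Y, C.Nonempty → 0 ≤ sg G X C) (hτ : τ.Nonempty) (t1 : τ ⊆ nb G Y X) (hZ : Z ⊆ Y)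
    (t2 : τ ⊆ Z) (h : sg G X Z ≤ 0) : Fz G Z ≤ 2 * (nb G Y X).card := by
  have a1 : cp G (Z \ X) ≤ (nb G Y X).card := cp_le_anch fun v hv => by
    by_contra k
    push Not at k
    have k2 : ∀ x ∈ cmp G (Z \ X) v, x ∉ nb G Y X := fun x hx c => k x c (mem_cmp.mp hx).2
    have b1 := peel (G := G) (T := ∅) hv (empty_subset _) fun x hx a ha j =>
      absurd (mem_nb.mpr ⟨hZ (mem_sdiff.mp (cmp_sub hx)).1, Or.inr ⟨a, (mem_inter.mp ha).2, j⟩⟩)
        (k2 x hx)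
    rw [union_empty, Fz_empty] at b1
    have b2 := na.F0 ⟨v, self_cmp (G := G) hv⟩
    have b3 := i0 (Z \ cmp G (Z \ X) v) (sdiff_subset.trans hZ)
      (hτ.mono (subset_sdiff.mpr ⟨t2, disjoint_left.mpr fun x a b => k2 x b (t1 a)⟩))
    omega
  have a2 : cp G (Z ∩ X) ≤ (nb G Y X).card :=
    cp_le_card.trans (card_le_card (inter_subset_right.trans (sub_nb hX)))
  unfold sg at h
  omega

/-- a neutral part of the petal of a violator meets the item -/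
theorem neutral_meets {Y X S W Z Q τ : Finset V} (sh : Sh G S) (far : FarG G S X)
    (i0 : ∀ C ⊆ Y, C.Nonempty → 0 ≤ sg G X C) (w : MinV G Y X S ∅ 0 (-1) W) (hX : X ⊆ Y)
    (w1 : W ∩ (∅ ∪ nb G Y X) = τ) (hτ : τ.Nonempty) (hZ : Z ⊆ Y) (t2 : τ ⊆ Z) (h : sg G X Z ≤ 0)
    (top : ∀ C ⊆ Y, τ ⊆ C → sg G X C ≤ 0 → C ⊆ Z) (dj : Disjoint S Z)
    (h0 : Fz G Z ≤ Fz G ((W \ Z) ∪ Z)) (hQ : Q ⊆ W \ Z) (ne : Q.Nonempty)
    (h1 : Fz G (Q ∪ Z) ≤ Fz G Z) : ¬ Disjoint Q S := by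
  intro d
  have a1 := sg_sub (G := G) (X ∪ S) W Z
  rw [sg_congr dj.symm, sg_congr (dj.symm.mono_left inter_subset_right)] at a1
  have t1 : τ ⊆ W := w1 ▸ inter_subset_left
  have a2 := i0 (W ∩ Z) (inter_subset_right.trans hZ) (hτ.mono (subset_inter t1 t2))
  have a3 := w.vio
  rw [sg_item sh far (w.meet.mono (inter_subset_inter_right subset_union_left))] at a1
  have x1 : ∀ v ∈ W, v ∈ X → v ∈ Z := fun v a b =>
    t2 (w1 ▸ mem_inter.mpr ⟨a, mem_union_right _ (sub_nb hX b)⟩)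
  have a4 : (W ∪ Z) ∩ X = (Q ∪ Z) ∩ X := by
    ext v
    have := x1 v
    have := fun k : v ∈ Q => mem_sdiff.mp (hQ k)
    simp only [mem_inter, mem_union]
    tauto
  have a5 : cp G ((W ∪ Z) \ (X ∪ S)) ≤ cp G ((Q ∪ Z) \ X) := by
    refine cp_le_of_meet (fun v hv => ?_) fun v hv => ?_
    · have := @disjoint_left.mp d v
      have := @disjoint_right.mp dj v
      have := fun k : v ∈ Q => mem_sdiff.mp (hQ k)
      simp only [mem_sdiff, mem_union] at *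
      tauto
    · obtain ⟨b1, b2⟩ := mem_sdiff.mp hv
      rcases mem_union.mp b1 with b | b
      · obtain ⟨a, c1, c2, c3⟩ := w.anch v (mem_sdiff.mpr ⟨b, b2⟩)
        obtain ⟨c4, c5⟩ := mem_sdiff.mp c2
        exact ⟨a, mem_sdiff.mpr ⟨mem_union_right _ (t2 (w1 ▸ mem_inter.mpr ⟨c4, c1⟩)),
          fun k => c5 (mem_union_left _ k)⟩,
          c3.mono (sdiff_subset_sdiff subset_union_left Subset.rfl)⟩
      · exact ⟨v, mem_sdiff.mpr ⟨mem_union_right _ b, fun k => b2 (mem_union_left _ k)⟩,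
          Cn.refl _ _⟩
  rw [sdiff_union_self_eq_union] at h0
  have a6 := top (Q ∪ Z) (union_subset (hQ.trans (sdiff_subset.trans w.sub)) hZ)
    (t2.trans subset_union_right) (by rw [a4] at a1; unfold sg; omega)
  obtain ⟨v, hv⟩ := ne
  exact (mem_sdiff.mp (hQ hv)).2 (a6 (mem_union_left _ hv))

theorem sbad (n m : ℕ) : ∃ B : ℕ, ∀ {V E : Type} [Fintype V] [Fintype E] (G : MG V E), NA G →
    ∀ (Y X : Finset V) (PP : Finset (Finset V)) (s : ℤ), Pl G Y X PP → 1 ≤ m → 1 ≤ s →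
      (nb G Y X).card ≤ n → (∀ C ⊆ Y, C.Nonempty → 0 ≤ sg G X C) →
      (∀ C ⊆ Y, m ≤ (C ∩ PP.biUnion (nb G Y)).card → s ≤ sg G X C) →
      (∀ S ∈ PP, ∃ C ⊆ Y, C.Nonempty ∧ sg G (X ∪ S) C ≤ -1) → PP.card ≤ B := by
  obtain ⟨t, pb⟩ := petals_bound (2 * n) m
  obtain ⟨b, sq⟩ := seqJ n m (t + 6 * n + m + 1)
  refine ⟨n + 2 ^ n * (b + 1), fun G na Y X PP s pl hm hs hn i0 i1 bad => ?_⟩
  by_contra hc
  set N := ∅ ∪ nb G Y X with hN
  have hN' : N = nb G Y X := empty_union _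
  have pd : ∀ S ∈ PP, ∀ S' ∈ PP, S ≠ S' → Disjoint S S' := fun S a S' b c => (pl.far S a S' b c).dj
  have a1 := few_meet (PP := PP) (R := N) pd
  have a2 := card_filter_add_card_filter_not (s := PP) (fun S => Disjoint S N)
  set P1 := PP.filter (fun S => Disjoint S N) with hP1
  have ex : ∀ S ∈ P1, ∃ W, MinV G Y X S ∅ 0 (-1) W := fun S hS => by
    obtain ⟨b1, b2⟩ := mem_filter.mp hS
    obtain ⟨C, c1, c2, c3⟩ := bad S b1
    exact exists_minV na pl.hX (pl.sh S b1) (pl.farX S b1) b2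
      (fun C a k _ => by have := i0 C a k; omega) ⟨C, c1, c2, Nat.zero_le _, c3⟩
  choose! Wf hW using ex
  have nc : N.card ≤ n := hN' ▸ hn
  obtain ⟨τ, t0, hy⟩ := exists_le_card_fiber_of_mul_le_card_of_maps_to (s := P1)
    (t := N.powerset) (f := fun S => Wf S ∩ N) (n := b + 1)
    (fun S _ => mem_powerset.mpr inter_subset_right) ⟨∅, by simp⟩ (by
      rw [card_powerset]
      have := Nat.mul_le_mul_right (b + 1) (Nat.pow_le_pow_right (n := 2) (by omega) nc)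
      omega)
  rw [mem_powerset] at t0
  set FF := P1.filter (fun S => Wf S ∩ N = τ) with hFF
  have ff : ∀ S ∈ FF, S ∈ PP ∧ MinV G Y X S ∅ 0 (-1) (Wf S) ∧ Wf S ∩ N = τ ∧ Disjoint S τ :=
    fun S hS => ⟨(mem_filter.mp (mem_filter.mp hS).1).1, hW S (mem_filter.mp hS).1,
      (mem_filter.mp hS).2, (mem_filter.mp (mem_filter.mp hS).1).2.mono_right t0⟩
  have hτ : τ.Nonempty := by
    obtain ⟨S, hS⟩ : FF.Nonempty := card_pos.mp (by omega)
    obtain ⟨b1, w, b2, -⟩ := ff S hS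
    by_contra k
    rw [not_nonempty_iff_eq_empty] at k
    have c1 : Wf S \ (X ∪ S) = ∅ := eq_empty_of_forall_notMem fun v hv => by
      obtain ⟨a, c1, c2, -⟩ := w.anch v hv
      have : a ∈ τ := b2 ▸ mem_inter.mpr ⟨(mem_sdiff.mp c2).1, c1⟩
      simp [k] at this
    have c2 : Wf S ∩ X = ∅ := eq_empty_of_forall_notMem fun v hv => by
      have : v ∈ τ := b2 ▸ mem_inter.mpr ⟨(mem_inter.mp hv).1,
        mem_union_right _ (sub_nb pl.hX (mem_inter.mp hv).2)⟩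
      simp [k] at this
    have c3 := w.vio
    rw [sg_item (pl.sh S b1) (pl.farX S b1) w.meet, c1, c2, cp_empty] at c3
    have := na.F0 (w.meet.mono inter_subset_left)
    omega
  have f1 := F_le_card (G := G) τ
  have f2 := (card_le_card t0).trans nc
  have run := fun Z hZ => sq G na Y X τ Z PP s Wf pl hm hs hn i0 i1 hτ hZ τ FF
    (fun S hS => (ff S hS).1) Subset.rfl (fun S hS => (ff S hS).2) (by omega)
  obtain ⟨Z0, z0⟩ : ∃ C, C ⊆ Y ∧ τ ⊆ C ∧ sg G X C ≤ 0 := by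
    by_contra k
    obtain ⟨J, j1, j2, j3, -⟩ := run ∅ fun C a b c => absurd ⟨C, a, b, c⟩ k
    obtain ⟨S, hS⟩ : J.Nonempty := card_pos.mp (by push_cast at j2; omega)
    obtain ⟨v, hv⟩ := hτ
    have := j3 S hS (mem_inter.mpr ⟨(mem_inter.mp ((ff S (j1 hS)).2.2.1 ▸ hv)).1, hv⟩)
    simp at this
  obtain ⟨Z, ⟨z1, z2, z3⟩, z4⟩ := exists_top (p := fun C => C ⊆ Y ∧ τ ⊆ C ∧ sg G X C ≤ 0)
    (fun A B ⟨x1, x2, x3⟩ ⟨y1, y2, y3⟩ => ⟨union_subset x1 y1, x2.trans subset_union_left, by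
      have := sg_sub (G := G) X A B
      have := i0 (A ∩ B) (inter_subset_left.trans x1) (hτ.mono (subset_inter x2 y2))
      omega⟩) z0
  have top : ∀ C ⊆ Y, τ ⊆ C → sg G X C ≤ 0 → C ⊆ Z := fun C a b c => z4 C ⟨a, b, c⟩
  obtain ⟨J, j1, j2, -, j4⟩ := run Z top
  have zF := tight_F na pl.hX i0 hτ (hN' ▸ t0) z1 z2 z3
  set R := Z ∩ PP.biUnion (nb G Y) with hR
  have rc : R.card < m := by
    by_contra k
    have := i1 Z z1 (not_lt.mp k)
    omega
  have jp : J ⊆ PP := fun S hS => (ff S (j1 hS)).1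
  have g1 := few_meet (PP := J) (R := R) fun S a S' b => pd S (jp a) S' (jp b)
  have g2 := card_filter_add_card_filter_not (s := J) (fun S => Disjoint S R)
  set J1 := J.filter (fun S => Disjoint S R) with hJ1
  have jj : J1 ⊆ J := filter_subset _ _
  have dZ : ∀ S ∈ J1, Disjoint S Z := fun S hS => disjoint_left.mpr fun v a c =>
    disjoint_left.mp (mem_filter.mp hS).2 a (mem_inter.mpr ⟨c,
      mem_biUnion.mpr ⟨S, jp (jj hS), sub_nb (pl.sub S (jp (jj hS))) a⟩⟩)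
  have dP : ∀ S ∈ J1, ∀ S' ∈ J1, S ≠ S' → Disjoint (Wf S \ Z) (Wf S' \ Z) :=
    fun S a S' c k => disjoint_left.mpr fun v x y => (mem_sdiff.mp x).2
      (j4 S (jj a) S' (jj c) k (mem_inter.mpr ⟨(mem_sdiff.mp x).1, (mem_sdiff.mp y).1⟩))
  have ex : ∀ S ∈ J1, ∃ Q ⊆ Wf S \ Z, Q.Nonempty ∧ Fz G (Q ∪ Z) ≤ Fz G Z ∧
      ∀ Q' ⊆ Q, Q'.Nonempty → Q' ≠ Q → Fz G Z + 1 ≤ Fz G (Q' ∪ Z) := fun S hS => by
    obtain ⟨-, w, b2, -⟩ := ff S (j1 (jj hS))
    have t1 : τ ⊆ Wf S ∩ Z := subset_inter (b2 ▸ inter_subset_left) z2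
    refine exists_pt sdiff_disjoint (w.meet.mono (subset_sdiff.mpr ⟨inter_subset_left,
      (dZ S hS).mono_left inter_subset_right⟩)) ?_
    have c1 := w.up2 (Wf S ∩ Z) inter_subset_left (b2 ▸ t1)
      ((dZ S hS).symm.mono_left inter_subset_right)
    have c2 := Fz_sub (G := G) (Wf S) Z
    have c3 := i0 (Wf S ∩ Z) (inter_subset_right.trans z1) (hτ.mono t1)
    rw [sdiff_union_self_eq_union]
    omega
  choose! Q q1 q2 q3 q4 using ex
  have dQ : ∀ S ∈ J1, ∀ S' ∈ J1, S ≠ S' → Disjoint (Q S) (Q S') :=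
    fun S a S' c k => (dP S a S' c k).mono (q1 S a) (q1 S' c)
  have zn := hτ.mono z2
  set J2 := J1.filter (fun S => Fz G (Wf S \ Z ∪ Z) + 1 ≤ Fz G Z) with hJ2
  set J3 := J1.filter (fun S => Fz G (Q S ∪ Z) + 1 ≤ Fz G Z) with hJ3
  have g3 := neg_count na zn (fun S => Wf S \ Z) J2
    (fun S a S' c => dP S (mem_filter.mp a).1 S' (mem_filter.mp c).1) fun S a => (mem_filter.mp a).2
  have g4 := neg_count na zn Q J3
    (fun S a S' c => dQ S (mem_filter.mp a).1 S' (mem_filter.mp c).1) fun S a => (mem_filter.mp a).2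
  have g5 := le_card_sdiff (J2 ∪ J3) J1
  have g6 := card_union_le J2 J3
  have j4' : ∀ S ∈ J1 \ (J2 ∪ J3), S ∈ J1 ∧ Fz G Z ≤ Fz G (Wf S \ Z ∪ Z) ∧ Pt G Z (Q S) := by
    intro S hS
    obtain ⟨a, c⟩ := mem_sdiff.mp hS
    have c1 : ¬ Fz G (Wf S \ Z ∪ Z) + 1 ≤ Fz G Z :=
      fun k => c (mem_union_left _ (mem_filter.mpr ⟨a, k⟩))
    have c2 : ¬ Fz G (Q S ∪ Z) + 1 ≤ Fz G Z :=
      fun k => c (mem_union_right _ (mem_filter.mpr ⟨a, k⟩))
    have c3 := q3 S a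
    exact ⟨a, by omega, sdiff_disjoint.mono_left (q1 S a), q2 S a, by omega, q4 S a⟩
  have g7 := pb G na Z R ((J1 \ (J2 ∪ J3)).image Q) zn (by push_cast; omega) rc.le
    (fun P hP => by
      obtain ⟨S, hS, rfl⟩ := mem_image.mp hP
      exact (j4' S hS).2.2)
    (fun v hv => by
      obtain ⟨S, hS, e⟩ := mem_image.mp hv
      obtain ⟨a, c, p⟩ := j4' S hS
      obtain ⟨b1, w, b2, -⟩ := ff S (j1 (jj a))
      have c1 := neutral_meets (pl.sh S b1) (pl.farX S b1) i0 w pl.hX b2 hτ z1 z2 z3 top (dZ S a) c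
        (q1 S a) p.ne p.h0.le
      rw [e] at c1 p
      have c2 : v ∈ S := by simpa using c1
      have c3 := p.h0
      rw [← insert_eq, F_insert na.gi.np (by simpa using p.dj)] at c3
      refine le_trans (show 2 ≤ dg G v Z by omega) (card_le_card fun x hx => ?_)
      obtain ⟨x1, x2⟩ := mem_filter.mp hx
      exact mem_filter.mpr ⟨mem_inter.mpr ⟨x1, mem_biUnion.mpr ⟨S, b1,
        mem_nb.mpr ⟨z1 x1, Or.inr ⟨v, c2, x2⟩⟩⟩⟩, x2⟩)
    (fun P hP P' hP' k => by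
      obtain ⟨S, hS, rfl⟩ := mem_image.mp hP
      obtain ⟨S', hS', rfl⟩ := mem_image.mp hP'
      exact dQ S (j4' S hS).1 S' (j4' S' hS').1 fun e => k (e ▸ rfl))
  rw [card_image_of_injOn fun S hS S' hS' e => by
    by_contra k
    have := dQ S (j4' S hS).1 S' (j4' S' hS').1 k
    rw [e, disjoint_self_iff_empty] at this
    exact (j4' S' hS').2.2.ne.ne_empty this] at g7
  push_cast at j2
  omega

end

end Pool.Agent.Lib.CF64
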