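import Pool.Agent.Lib.CF53.FinMain

set_option linter.unusedSectionVars false
set_option linter.unusedVariables false
set_option linter.unusedSimpArgs false

namespace Pool.Agent.Lib.CF64

open Finset Pool.Agent.Lib.MP_aa6b05_co Pool.Agent.Lib.MP_aa6b05_co.MG

open scoped Classical

noncomputable section

variable {V E : Type} [Fintype V] [Fintype E] {G : MG V E}

open Pool.Agent.Lib.MP_aa6b05_co.D

theorem df_cast (g : E → ℤ) (v : V) :
    G.df (fun e => (g e : ZMod 2)) v = ((G.bd g v : ℤ) : ZMod 2) := by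
  unfold df cut bd
  rw [sum_filter]
  push_cast
  refine sum_congr rfl fun e _ => ?_
  by_cases a : G.s e = v <;> by_cases b : G.t e = v <;> simp [a, b]

theorem col_of_flow [inst : DecidableEq V] (h : HasNZ4Flow G.s G.t) : G.Col := by
  obtain ⟨f, f1, f2⟩ := h
  have f3 : ∀ v, G.bd f v = 0 := fun v => by
    have := f2 v
    rw [sum_filter, sum_filter, ← sub_eq_zero, ← sum_sub_distrib] at this
    rw [← this]
    refine sum_congr rfl fun e _ => ?_
    by_cases a : G.s e = v <;> by_cases b : G.t e = v <;> simp [a, b]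
  obtain ⟨g, g1, g2⟩ := circ (fun e => (f e : ZMod 2)) _ G le_rfl fun v => by simp [df_cast, f3]
  have z : ∀ e, (2 ∣ f e ∧ (f e : ZMod 2) = 0) ∨ (¬ 2 ∣ f e ∧ (f e : ZMod 2) = 1) := fun e => by
    have a := ZMod.intCast_zmod_eq_zero_iff_dvd (f e) 2
    push_cast at a
    rcases zmod2_cases (f e : ZMod 2) with b | b
    · exact Or.inl ⟨a.mp b, b⟩
    · exact Or.inr ⟨fun c => absurd (b.symm.trans (a.mpr c)) (by decide), b⟩
  have h2 : ∀ e, 2 * ((f e + g e) / 2) = f e + g e := fun e => by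
    rcases z e with ⟨a, b⟩ | ⟨a, b⟩
    · have := (g1 e).1 b
      omega
    · have := (g1 e).2 b
      omega
  have h3 : ∀ v, G.bd (fun e => (f e + g e) / 2) v = 0 := fun v => by
    have : 2 * G.bd (fun e => (f e + g e) / 2) v = G.bd f v + G.bd g v := by
      unfold bd
      rw [mul_sum, ← sum_add_distrib]
      refine sum_congr rfl fun e _ => ?_
      have := h2 e
      beta_reduce
      split_ifs <;> omega
    rw [f3, g2] at this
    omega
  refine ⟨fun e => sm (f e : ZMod 2) .k1 + sm (((f e + g e) / 2 : ℤ) : ZMod 2) .k2,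
    fun e => ?_, fun v _ => ?_⟩
  · have k : ∀ i j : ZMod 2, (i = 1 ∨ j = 1) → sm i .k1 + sm j .k2 ≠ 0 := by decide
    refine k _ _ ?_
    rcases z e with ⟨a, b⟩ | ⟨a, b⟩
    · right
      have c := (g1 e).1 b
      have d := f1 e
      rw [abs_pos, abs_lt] at d
      have : (f e + g e) / 2 = 1 ∨ (f e + g e) / 2 = -1 := by omega
      rcases this with c | c <;> rw [c] <;> decide
    · exact Or.inl b
  · rw [df_add, df_hom (fun j => sm j .k1) (fun i j => sm_add _ i j),
      df_hom (fun j => sm j .k2) (fun i j => sm_add _ i j), df_cast, df_cast, f3, h3]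
    decide

theorem col_map {W : Type} [Fintype W] (ρ : V → W) (h : G.Col) : (G.map ρ).Col := by
  obtain ⟨φ, h⟩ := h
  exact ⟨φ, h.1, fun w _ => h.sum_cut (X := ρ ⁻¹' {w}) (Set.subset_univ _)⟩

theorem col_con {X : Set V} {φ : E → K} (h : G.Loc Xᶜ φ) : (G.map (con X)).Col := by
  refine ⟨φ, h.1, fun w _ => ?_⟩
  show ∑ e ∈ G.cut (con X ⁻¹' {w}), φ e = 0
  rcases w with _ | w
  · rw [← cut_compl]
    refine h.sum_cut fun v hv c => hv ?_
    simp [con, c]
  · refine h.sum_cut fun v hv c => ?_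
    simp [con, c] at hv

theorem na_of_crit (hc : ¬ G.Col)
    (h : ∀ e, G.s e ≠ G.t e → ∃ φ, G.Loc ({G.s e, G.t e} : Set V)ᶜ φ) : NA G := by
  have key : ∀ (X : Set V) e a b, G.Joins e a b → a ≠ b → a ∈ X → b ∈ X → ∃ φ, G.Loc Xᶜ φ := by
    intro X e a b j n ha hb
    obtain ⟨φ, k⟩ := h e (j.ne n)
    refine ⟨φ, k.mono (Set.compl_subset_compl.mpr ?_)⟩
    rcases j with ⟨rfl, rfl⟩ | ⟨rfl, rfl⟩ <;> simp [Set.insert_subset_iff, ha, hb]
  refine ⟨⟨fun e f a b n1 n2 j1 j2 => ?_, fun e f g a b c n1 n2 n3 j1 j2 j3 => ?_,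
    fun e f g k a b c d n1 n2 n3 n4 n5 n6 j1 j2 j3 j4 => ?_⟩, fun Y ⟨y1, y2⟩ => ?_⟩
  · obtain ⟨φ, k⟩ := key {a, b} e a b j1 n2 (by simp) (by simp)
    exact hc (col_of_par n1 n2 j1 j2 (col_con k))
  · obtain ⟨φ, k⟩ := key {a, b, c} e a b j1 n1 (by simp) (by simp)
    exact hc (col_of_tri n1 n2 n3 j1 j2 j3 (col_con k))
  · obtain ⟨φ, k⟩ := key {a, b, c, d} e a b j1 n1 (by simp) (by simp)
    exact hc (col_of_quad n1 n2 n3 n4 n5 n6 j1 j2 j3 j4 (col_con k))
  · obtain ⟨a, ha, b, hb, n⟩ := one_lt_card.mp y1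
    obtain ⟨ψ, -, p⟩ := y2 (fun v => (if v = a then .k1 else 0) + (if v = b then .k1 else 0))
      (fun v hv => by simp [show v ≠ a from fun e => hv (e ▸ ha), show v ≠ b from fun e => hv (e ▸ hb)])
      (by simp [sum_add_distrib, K.add_self])
    obtain ⟨e, he⟩ : ((sub G Y).cut {a}).Nonempty := by
      by_contra c
      have := p a
      rw [not_nonempty_iff_eq_empty] at c
      simp only [df, c, sum_empty, if_true, n, if_false, add_zero] at this
      exact absurd this (by decide)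
    obtain ⟨e1, e2, e3⟩ := mem_eset.mp (sub_ne.mp (mem_cut_single.mp he).1)
    obtain ⟨φ, k⟩ := key (↑Y) e _ _ (joins_self e) e1 e2 e3
    exact hc (col_of_feas k (y2 _ bdry_off (bdry_sum k)))

theorem conn_comp {W : Type} {e : E} (π : Option V → W)
    (h : ∀ x y, π x = π y → Conn (G.map (con {G.s e, G.t e})).s (G.map (con {G.s e, G.t e})).t
      {w | π w = π x} Set.univ x y) (u v : V)
    (huv : π (con {G.s e, G.t e} u) = π (con {G.s e, G.t e} v)) :
    Conn G.s G.t {w | π (con {G.s e, G.t e} w) = π (con {G.s e, G.t e} u)} Set.univ u v := by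
  set ρ := con ({G.s e, G.t e} : Set V) with hρ
  have fib : ∀ p q, π (ρ p) = π (ρ u) → ρ p = ρ q →
      Conn G.s G.t {w | π (ρ w) = π (ρ u)} Set.univ p q := by
    intro p q h1 h2
    by_cases c : p = q
    · exact c ▸ Relation.ReflTransGen.refl
    refine Relation.ReflTransGen.single ⟨h1, (congrArg π h2).symm.trans h1, e, trivial, ?_⟩
    simp only [hρ, con, Set.mem_insert_iff, Set.mem_singleton_iff] at h2
    split_ifs at h2 with a b
    · rcases a with rfl | rfl <;> rcases b with rfl | rfl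
      · exact absurd rfl c
      · exact Or.inl ⟨rfl, rfl⟩
      · exact Or.inr ⟨rfl, rfl⟩
      · exact absurd rfl c
    · exact absurd (Option.some.inj h2) c
  have key : ∀ x, Conn (G.map ρ).s (G.map ρ).t {w | π w = π (ρ u)} Set.univ (ρ u) x →
      ∀ v, ρ v = x → Conn G.s G.t {w | π (ρ w) = π (ρ u)} Set.univ u v := by
    intro x hx
    induction hx with
    | refl => exact fun v hv => fib u v rfl hv.symm
    | tail _ hs ih =>
      intro v hv
      obtain ⟨a, b, g, -, ⟨rfl, rfl⟩ | ⟨rfl, rfl⟩⟩ := hs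
      · exact ((ih _ rfl).tail ⟨a, b, g, trivial, Or.inl ⟨rfl, rfl⟩⟩).trans (fib _ v b hv.symm)
      · exact ((ih _ rfl).tail ⟨a, b, g, trivial, Or.inr ⟨rfl, rfl⟩⟩).trans (fib _ v b hv.symm)
  exact key _ (h _ _ huv) v rfl

theorem contr {E : Type} [Fintype E] {k N : ℕ}
    (hN : ∀ {V : Type} [Fintype V] (G : MG V E), NA G → ∀ Z : Finset V, Fz G Z ≤ k → Z.card ≤ N)
    (n : ℕ) : ∀ {V : Type} [Fintype V] (G : MG V E), G.m ≤ n → Hyp k G → ¬ G.Col →
      ∃ (W : Type) (_ : Fintype W) (π : V → W),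
        (∀ u v, π u = π v → Conn G.s G.t {w | π w = π u} Set.univ u v) ∧ ¬ (G.map π).Col ∧
        (NIs (G.map π)).card ≤ N := by
  induction n using Nat.strong_induction_on with
  | _ n ih =>
  intro V _ G hm hyp hc
  by_cases c : ∀ e, G.s e ≠ G.t e → (G.map (con {G.s e, G.t e})).Col
  · exact ⟨V, inferInstance, id, fun u v h => (show u = v from h) ▸ Relation.ReflTransGen.refl, hc,
      hN G (na_of_crit hc fun e he => (c e he).imp fun φ => loc_of_con) _ hyp.F_le⟩
  push Not at c
  obtain ⟨e, e1, e2⟩ := c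
  obtain ⟨W, i, π, p1, p2, p3⟩ := ih _ (lt_of_lt_of_le (m_con_lt (X := {G.s e, G.t e})
    (joins_self e) e1 (by simp) (by simp)) hm) _ le_rfl (hyp.map _) e2
  exact ⟨W, i, π ∘ con {G.s e, G.t e}, conn_comp π p1, p2, p3⟩

theorem fin_final (k : ℕ) : ∃ N : ℕ, ∀ {V E : Type} [Fintype V] [Fintype E] [DecidableEq V]
    (s t : E → V), ¬ HasNZ4Flow s t →
    (((∀ e, s e ≠ t e) → 2 * Fintype.card V ≤ Fintype.card E + k →
      (∀ e, HasNZ4Flow ((fun v => if v = t e then s e else v) ∘ s)
        ((fun v => if v = t e then s e else v) ∘ t)) → Fintype.card V ≤ N) ∧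
    ((∀ a b, Conn s t Set.univ Set.univ a b) →
      (∃ (s' t' : Fin k → V) (c : E ⊕ Fin k → Bool),
        ∀ b u v, Conn (Sum.elim s s') (Sum.elim t t') Set.univ {e | c e = b} u v) →
      ∃ n ≤ N, ∃ π : V → Fin n, Function.Surjective π ∧
        (∀ u v, π u = π v → Conn s t {w | π w = π u} Set.univ u v) ∧
        ¬ HasNZ4Flow (π ∘ s) (π ∘ t))) := by
  obtain ⟨N, hN⟩ := fin_core k
  refine ⟨N + 1, fun {V E} _ _ _ s t hf => ?_⟩
  let G : MG V E := ⟨s, t⟩
  have hc : ¬ G.Col := fun h => hf h.flow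
  refine ⟨fun h1 h2 h3 => ?_, fun h1 ⟨s', t', c, h2⟩ => ?_⟩
  · have na : NA G := na_of_crit hc fun e _ => by
      obtain ⟨φ, p1, p2⟩ := col_of_flow (G := G.map fun v => if v = t e then s e else v) (h3 e)
      refine ⟨φ, p1, fun v hv => ?_⟩
      simp only [Set.mem_compl_iff, Set.mem_insert_iff, Set.mem_singleton_iff, not_or] at hv
      rw [← df_map (fun v => if v = t e then s e else v) φ v fun u hu => ?_]
      · exact p2 _ trivial
      · rw [if_neg hv.2] at hu
        split_ifs at hu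
        · exact absurd hu.symm hv.1
        · exact hu
    have a : eset G univ = univ := eq_univ_of_forall fun e => mem_eset.mpr ⟨h1 e, by simp⟩
    have := hN G na univ (by
      unfold Fz ein
      rw [a, card_univ, card_univ]
      omega)
    rw [card_univ] at this
    omega
  · obtain ⟨W, i, π, p1, p2, p3⟩ := contr (fun G => hN G) _ G le_rfl
      (hyp_of_trees s t k s' t' c h2) hc
    obtain ⟨I, hI⟩ : ∃ I : Finset W, ∀ w, w ∈ I ↔ ∃ v, π v = w :=
      ⟨univ.filter fun w => ∃ v, π v = w, by simp⟩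
    have a : I.card ≤ N + 1 := by
      by_cases d : ∀ u v, π u = π v
      · refine (card_le_one.mpr fun x hx y hy => ?_).trans (by omega)
        obtain ⟨u, rfl⟩ := (hI x).mp hx
        obtain ⟨v, rfl⟩ := (hI y).mp hy
        exact d u v
      push Not at d
      obtain ⟨u1, u2, d⟩ := d
      refine (card_le_card fun w hw => mem_NIs.mpr ?_).trans (p3.trans (by omega))
      obtain ⟨v, rfl⟩ := (hI w).mp hw
      by_contra hn
      have : ∀ u, π u = π v := fun u => by
        induction h1 v u with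
        | refl => rfl
        | tail _ hs ih =>
          by_contra k
          obtain ⟨-, -, g, -, ⟨rfl, rfl⟩ | ⟨rfl, rfl⟩⟩ := hs
          · exact hn ⟨g, _, Or.inl ⟨ih, rfl⟩, Ne.symm k⟩
          · exact hn ⟨g, _, Or.inr ⟨rfl, ih⟩, Ne.symm k⟩
      exact d ((this u1).trans (this u2).symm)
    let q : V → Fin I.card := fun v => I.equivFin ⟨π v, (hI _).mpr ⟨v, rfl⟩⟩
    have hq : ∀ u v, q u = q v ↔ π u = π v := fun u v => by simp [q]
    refine ⟨I.card, a, q, fun j => ?_, fun u v h => ?_, fun h => p2 ?_⟩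
    · obtain ⟨v, hv⟩ := (hI _).mp (I.equivFin.symm j).2
      exact ⟨v, by simp [q, hv]⟩
    · simpa only [hq] using p1 u v ((hq u v).mp h)
    · have := col_map (fun j => (I.equivFin.symm j).1) (col_of_flow (G := G.map q) h)
      simpa [MG.map, q] using this

theorem fin_crit (k : ℕ) : ∃ N : ℕ, ∀ (V E : Type) [Fintype V] [Fintype E] [DecidableEq V]
    (s t : E → V), ¬ HasNZ4Flow s t →
    (∀ e, HasNZ4Flow (fun x => if s x = t e then s e else s x)
      (fun x => if t x = t e then s e else t x)) →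
    2 * Fintype.card V ≤ Fintype.card E + k → Fintype.card V + Fintype.card E ≤ N := by
  obtain ⟨N, hN⟩ := fin_core k
  refine ⟨3 * N, fun V E _ _ _ s t hf h3 h2 => ?_⟩
  let G : MG V E := ⟨s, t⟩
  have hc : ¬ G.Col := fun h => hf h.flow
  have h1 : ∀ e, s e ≠ t e := fun e c => hf (by
    have a : ∀ v, (if v = t e then s e else v) = v := fun v => by
      split_ifs with b
      · exact c.trans b.symm
      · rfl
    simpa only [a] using h3 e)
  have na : NA G := na_of_crit hc fun e _ => by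
    obtain ⟨φ, p1, p2⟩ := col_of_flow (G := G.map fun v => if v = t e then s e else v) (h3 e)
    refine ⟨φ, p1, fun v hv => ?_⟩
    simp only [Set.mem_compl_iff, Set.mem_insert_iff, Set.mem_singleton_iff, not_or] at hv
    rw [← df_map (fun v => if v = t e then s e else v) φ v fun u hu => ?_]
    · exact p2 _ trivial
    · rw [if_neg hv.2] at hu
      split_ifs at hu
      · exact absurd hu.symm hv.1
      · exact hu
  have a : eset G univ = univ := eq_univ_of_forall fun e => mem_eset.mpr ⟨h1 e, by simp⟩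
  have b : Fz G univ = 2 * (Fintype.card V : ℤ) - 2 - Fintype.card E := by
    unfold Fz ein
    rw [a, card_univ, card_univ]
  have c := hN G na univ (by omega)
  have d := (na.F_ge univ).1
  rw [card_univ] at c d
  rcases Nat.eq_zero_or_pos (Fintype.card V) with z | z
  · have : IsEmpty V := Fintype.card_eq_zero_iff.mp z
    have : IsEmpty E := ⟨fun e => IsEmpty.false (s e)⟩
    simp
  · have := d z
    omega

end

end Pool.Agent.Lib.CF64
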