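import Pool.Agent.Lib.CF64.Main

set_option linter.unusedSectionVars false
set_option linter.unusedVariables false
set_option linter.unusedSimpArgs false

namespace Pool.Agent.Lib.CF64

open Finset Pool.Agent.Lib.MP_aa6b05_co Pool.Agent.Lib.MP_aa6b05_co.MG

open scoped Classical

noncomputable section

variable {V E : Type} [Fintype V] [Fintype E] {G : MG V E}

theorem r5_split_joins {c1 c2 e : E} {v a b p q : V} (h1 : e ≠ c1) (h2 : e ≠ c2)
    (h : G.Joins e p q) : (G.split c1 c2 v a b).Joins e p q := by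
  unfold Joins MG.split
  simp only [h1, h2, if_false]
  exact h

theorem r5_split_m {α : Type} (π : V → α) (c1 c2 : E) (v a b : V) :
    (G.map π).m ≤ ((G.split c1 c2 v a b).map π).m + 2 := by
  unfold MG.m
  refine le_trans (card_le_card (t := univ.filter (fun e =>
    ((G.split c1 c2 v a b).map π).s e ≠ ((G.split c1 c2 v a b).map π).t e) ∪ {c1, c2}) ?_)
    ((card_union_le _ _).trans (Nat.add_le_add_left card_le_two _))
  intro e he
  by_cases h1 : e = c1
  · simp [h1]
  by_cases h2 : e = c2
  · simp [h2]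
  refine mem_union_left _ ?_
  simpa [MG.map, MG.split, h1, h2] using he

theorem r5_split_NIs {c1 c2 : E} {v a b : V} (ha : G.NI a) (hb : G.NI b) :
    NIs (G.split c1 c2 v a b) ⊆ NIs G := by
  apply NIs_sub
  intro e he
  by_cases h1 : e = c1
  · simp [MG.split, h1, mem_NIs, ha, hb]
  by_cases h2 : e = c2
  · subst h2
    simp [MG.split, h1] at he
  simp only [MG.split, h1, h2, if_false] at he ⊢
  exact NIs_hN e he

theorem r5_map_NIs {V' α : Type} [Fintype V'] [DecidableEq α] (ρ : V → V') (π : V' → α) :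
    (NIs (G.map ρ)).image π ⊆ (NIs G).image (π ∘ ρ) := by
  intro i hi
  obtain ⟨w, hw, rfl⟩ := mem_image.mp hi
  obtain ⟨e, b, hj, hne⟩ := mem_NIs.mp hw
  have h1 : G.s e ≠ G.t e := fun h => hj.ne hne (congrArg ρ h)
  rcases hj with ⟨a, -⟩ | ⟨-, a⟩
  · exact mem_image.mpr ⟨_, (NIs_hN e h1).1, congrArg π a⟩
  · exact mem_image.mpr ⟨_, (NIs_hN e h1).2, congrArg π a⟩

theorem r5_count4 (gi : Gi G) {N : Finset V} (FN : Fz G N ≤ 4)
    (f4 : ∀ Z : Finset V, 6 ≤ Z.card → 4 ≤ Fz G Z) {α : Type} [DecidableEq α] (π : V → α)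
    {i0 : α} (h4 : 4 ≤ (N.filter (fun v => π v = i0)).card) {m : ℕ}
    (hm : (G.map π).m ≤ m + 2) :
    2 * (N.image π).card ≤ m + 5 ∧
      (m + 5 ≤ 2 * (N.image π).card → N.card ≤ (N.image π).card + 4) := by
  have h0 : i0 ∈ N.image π := by
    obtain ⟨w, hw⟩ := card_pos.mp (show 0 < (N.filter (fun v => π v = i0)).card by omega)
    exact mem_image.mpr ⟨w, mem_filter.mp hw⟩
  have ps := part_sum (G := G) π N
  rw [← add_sum_erase _ _ h0] at ps
  have pos : ∀ i ∈ (N.image π).erase i0, 0 < (N.filter (fun v => π v = i)).card := by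
    intro i hi
    obtain ⟨w, hw, rfl⟩ := mem_image.mp (mem_of_mem_erase hi)
    exact card_pos.mpr ⟨w, by simp [hw]⟩
  have nn : ∀ i ∈ (N.image π).erase i0, 0 ≤ Fz G (N.filter (fun v => π v = i)) := by
    intro i hi
    have a := pos i hi
    have b := gi.F_small (N.filter (fun v => π v = i))
    have c := f4 (N.filter (fun v => π v = i))
    omega
  have s0 := sum_nonneg nn
  have b := gi.F_small (N.filter (fun v => π v = i0))
  have c := f4 (N.filter (fun v => π v = i0))
  refine ⟨by omega, fun h => ?_⟩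
  have s1 : ∀ i ∈ (N.image π).erase i0, (N.filter (fun v => π v = i)).card ≤ 1 := by
    intro i hi
    have a := single_le_sum nn hi
    have b' := gi.F_small (N.filter (fun v => π v = i))
    have c' := f4 (N.filter (fun v => π v = i))
    omega
  have s2 := sum_le_card_nsmul _ _ _ s1
  have s3 := card_eq_sum_card_fiberwise (f := π) (s := N) (t := N.image π)
    (fun v hv => mem_image_of_mem _ hv)
  rw [← add_sum_erase _ _ h0] at s3
  rw [card_erase_of_mem h0, smul_eq_mul, mul_one] at s2
  have := card_pos.mpr ⟨_, h0⟩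
  omega

/-- In a minimal counterexample every vertex of a 5-cycle is cubic. -/
theorem r5 (h4 : G.E4) (gi : Gi G) (FN : Fz G (NIs G) ≤ 4)
    (f4 : ∀ Z : Finset V, 6 ≤ Z.card → 4 ≤ Fz G Z) (n15 : 15 ≤ (NIs G).card) (hc : ¬ G.Col)
    {v a x y b : V} (h1 : Adj G v a) (h2 : Adj G a x) (h3 : Adj G x y) (h4' : Adj G y b)
    (h5 : Adj G b v) : G.d {v} ≤ 3 := by
  by_contra hv
  have vx : v ≠ x := by
    rintro rfl
    exact gi.tri h3 h4' h5
  have vy : v ≠ y := by
    rintro rfl
    exact gi.tri h1 h2 h3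
  have ay : a ≠ y := by
    rintro rfl
    exact gi.tri h1 h4' h5
  have ab : a ≠ b := by
    rintro rfl
    exact gi.tri h2 h3 h4'
  have xb : x ≠ b := by
    rintro rfl
    exact gi.tri h1 h2 h5
  obtain ⟨va, c1, j1⟩ := h1
  obtain ⟨ax, e2, j2⟩ := h2
  obtain ⟨xy, e3, j3⟩ := h3
  obtain ⟨yb, e4, j4⟩ := h4'
  obtain ⟨bv, c2, j5⟩ := h5
  have h12 : c1 ≠ c2 := j1.symm.ne_edge j5 ab va.symm
  have na := j1.ni' va
  have nx := j2.ni' ax
  have ny := j3.ni' xy
  have nb := j4.ni' yb
  have nv := j1.ni va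
  obtain ⟨G', hG'⟩ : ∃ G', G' = G.split c1 c2 v a b := ⟨_, rfl⟩
  obtain ⟨X, hX⟩ : ∃ X : Set V, X = {a, x, y, b} := ⟨_, rfl⟩
  have ca : con X a = none := by simp [con, hX]
  have cx : con X x = none := by simp [con, hX]
  have cy : con X y = none := by simp [con, hX]
  have cb : con X b = none := by simp [con, hX]
  have hcol : ¬ (G'.map (con X)).Col := by
    intro h
    subst hG' hX
    refine hc (col_of_split h12 j1 j5.symm (col_of_quad (e := e2) (f := e3) (g := e4) (h := c1)
      ax ay ab xy xb yb ?_ ?_ ?_ ?_ h))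
    · exact r5_split_joins (j2.symm.ne_edge j1 vx.symm ax.symm) (j2.ne_edge j5 ab va.symm) j2
    · exact r5_split_joins (j3.ne_edge j1 vx.symm ax.symm) (j3.ne_edge j5 xb vx.symm) j3
    · exact r5_split_joins (j4.ne_edge j1 vy.symm ay.symm) (j4.ne_edge j5 yb vy.symm) j4
    · exact Or.inr (by simp [MG.split])
  have hbl : (G'.map (con X)).Bl := by
    have key : ∀ Z : Set (Option V), con X v ∉ Z → (G'.map (con X)).d Z ≠ 1 := by
      intro Z hZ h
      rw [d_map, hG'] at h
      have ds := d_split h12 j1 j5.symm (con X ⁻¹' Z)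
      split_ifs at ds with hc'
      · have vW : v ∉ con X ⁻¹' Z := hZ
        have aW : a ∈ con X ⁻¹' Z := by tauto
        have xW : x ∈ con X ⁻¹' Z := by
          rw [Set.mem_preimage, cx, ← ca]
          exact aW
        rcases h4.2 (con X ⁻¹' Z) (by omega) with t | t
        · exact ax (t.eq' na nx aW xW)
        · have : G.cut {v} ⊆ G.cut (con X ⁻¹' Z) := by
            intro e he
            obtain ⟨z, hz, hvz⟩ := exists_other he
            rw [hz.mem_cut]
            have : z ∈ con X ⁻¹' Z := by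
              by_contra h'
              exact hvz (t.eq' nv (hz.ni' hvz) vW h')
            tauto
          have := card_le_card this
          unfold MG.d at *
          omega
      · exact (h4.1 (con X ⁻¹' Z)).1 (by omega)
    intro Z
    by_cases hZ : con X v ∈ Z
    · rw [← d_compl]
      exact key Zᶜ (fun h => h hZ)
    · exact key Z hZ
  have cnt : ∀ {α : Type} [DecidableEq α] (π : Option V → α),
      2 * ((NIs G).image (π ∘ con X)).card ≤ ((G'.map (con X)).map π).m + 5 ∧
      (((G'.map (con X)).map π).m + 5 ≤ 2 * ((NIs G).image (π ∘ con X)).card →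
        (NIs G).card ≤ ((NIs G).image (π ∘ con X)).card + 4) := by
    intro α _ π
    refine r5_count4 gi FN f4 (π ∘ con X) (i0 := π none) ?_ (hG' ▸ r5_split_m (π ∘ con X) c1 c2 v a b)
    have : ({a, x, y, b} : Finset V) ⊆ (NIs G).filter (fun w => (π ∘ con X) w = π none) := by
      intro w hw
      simp only [mem_insert, mem_singleton] at hw
      rcases hw with rfl | rfl | rfl | rfl
      · exact mem_filter.mpr ⟨mem_NIs.mpr na, congrArg π ca⟩
      · exact mem_filter.mpr ⟨mem_NIs.mpr nx, congrArg π cx⟩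
      · exact mem_filter.mpr ⟨mem_NIs.mpr ny, congrArg π cy⟩
      · exact mem_filter.mpr ⟨mem_NIs.mpr nb, congrArg π cb⟩
    refine le_trans (le_of_eq ?_) (card_le_card this)
    rw [card_insert_of_notMem (by simp [ax, ay, ab]), card_insert_of_notMem (by simp [xy, xb]),
      card_pair yb]
  have sub : ∀ {α : Type} [DecidableEq α] (π : Option V → α),
      (NIs (G'.map (con X))).image π ⊆ (NIs G).image (π ∘ con X) := by
    intro α _ π
    exact (r5_map_NIs _ π).trans (image_subset_image (hG' ▸ r5_split_NIs na nb))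
  have hyp : Hyp 3 (G'.map (con X)) := by
    intro π
    have a1 := (cnt π).1
    have a2 := card_le_card (sub π)
    omega
  obtain ⟨π, ι, q⟩ := induct3 _ _ le_rfl hbl hyp hcol
  have a1 := (cnt π).2
  have a2 : ((G'.map (con X)).map π).m ≤ 15 := quo_m_le q id
  have a3 : univ ⊆ (NIs (G'.map (con X))).image π := by
    intro w _
    by_contra hn
    have a := q.d_eq {w}
    have b : (G'.map (con X)).d (π ⁻¹' {w}) = 0 := d_zero NIs_hN (fun u hu hu' =>
      hn (mem_image.mpr ⟨u, hu, hu'⟩))
    rw [pet_d, b] at a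
    omega
  have a4 := card_le_card (a3.trans (sub π))
  have a5 := card_le_univ ((NIs G).image (π ∘ con X))
  simp only [card_univ, Fintype.card_fin] at a4 a5
  omega

end

end Pool.Agent.Lib.CF64
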